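import Pool.Agent.H994R2.K.Expand2
import Pool.Agent.Helper799.Cheeger

/-! From an approximate equilibrium on an expander to a local minimum. -/

open scoped Classical

namespace H994K

/-- the energy -/
noncomputable def energy {V : Type*} [Fintype V] (G : SimpleGraph V) (φ : V → ℝ) : ℝ :=
  (1 / 2 : ℝ) * ∑ i, ∑ j, (if G.Adj i j then 1 - Real.cos (φ i - φ j) else 0)

/-- Poincaré inequality on cubic expanders -/
lemma poinc {V : Type*} [Fintype V] [Nonempty V] {G : SimpleGraph V} (hG : Cubic G)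
    (hE : Expander G) (f : V → ℝ) (hf : ∑ x, f x = 0) :
    ∑ x, f x ^ 2 ≤ 240000 * ∑ x, ∑ y, (if G.Adj x y then (f x - f y) ^ 2 else 0) := by
  have hdeg : ∀ x, ∑ y, (if G.Adj x y then (1 : ℝ) else 0) = 3 := by
    intro x
    have := cubic_sum hG x
    have h2 : ((∑ w, (if G.Adj x w then 1 else 0) : ℕ) : ℝ) = 3 := by rw [this]; norm_num
    rw [← h2]
    push_cast
    rfl
  have hexp : ∀ S : Finset V, 2 * S.card ≤ Fintype.card V →
      (1 / 100 : ℝ) * S.card ≤ ∑ x ∈ S, ∑ y ∈ Sᶜ, (if G.Adj x y then (1 : ℝ) else 0) := by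
    intro S hS
    have h1 := hE S hS
    have h2 : ∑ x ∈ S, ∑ y ∈ Sᶜ, (if G.Adj x y then (1 : ℝ) else 0) = (bd G S : ℝ) := by
      unfold bd
      push_cast
      apply Finset.sum_congr rfl
      intro x _
      rw [← Finset.sum_filter, Finset.sum_const, nsmul_eq_mul, mul_one]
      congr 1
      congr 1
      ext y
      simp only [Finset.mem_filter, Finset.mem_compl, Finset.mem_univ, true_and]
      exact and_comm
    rw [h2]
    have h3 : (S.card : ℝ) ≤ 100 * bd G S := by exact_mod_cast h1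
    linarith
  have hN : (0 : ℝ) < Fintype.card V := by exact_mod_cast Fintype.card_pos
  have h := Pool.Agent.Helper799.Cheeger.poincare (fun x y => G.Adj x y)
    (fun x y h => h.symm) (1 / 100) (by norm_num) 3 (by norm_num) (fun x => (hdeg x).le) hexp f
  have hP : ∑ x : V, ∑ y, (if G.Adj x y then (1 : ℝ) else 0) = 3 * Fintype.card V := by
    rw [Finset.sum_congr rfl (fun x _ => hdeg x), Finset.sum_const, Finset.card_univ, nsmul_eq_mul]
    ring
  have hL : ∑ x, ∑ y, (f x - f y) ^ 2 = 2 * Fintype.card V * ∑ x, f x ^ 2 := by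
    have h1 : ∀ x, ∑ y, (f x - f y) ^ 2
        = Fintype.card V * f x ^ 2 + ∑ y, f y ^ 2 := by
      intro x
      have : ∀ y, (f x - f y) ^ 2 = f x ^ 2 - 2 * f x * f y + f y ^ 2 := fun y => by ring
      rw [Finset.sum_congr rfl (fun y _ => this y), Finset.sum_add_distrib,
        Finset.sum_sub_distrib, ← Finset.mul_sum, hf, Finset.sum_const, Finset.card_univ,
        nsmul_eq_mul]
      ring
    rw [Finset.sum_congr rfl (fun x _ => h1 x), Finset.sum_add_distrib, ← Finset.mul_sum,
      Finset.sum_const, Finset.card_univ, nsmul_eq_mul]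
    ring
  rw [hP, hL] at h
  set D2 := ∑ x, ∑ y, (if G.Adj x y then (f x - f y) ^ 2 else 0) with hD2
  set N : ℝ := (Fintype.card V : ℝ) with hNdef
  have h3 : (1 / N ^ 2) * (2 * N * ∑ x, f x ^ 2) = (2 / N) * ∑ x, f x ^ 2 := by
    field_simp
  have h4 : (16 * (3 : ℝ) ^ 2 / (1 / 100) ^ 2) * (D2 / (3 * N)) = (2 / N) * (240000 * D2) := by
    field_simp
    ring
  rw [h3, h4] at h
  exact le_of_mul_le_mul_left h (by positivity)

lemma trig {x d : ℝ} (hd : |d| ≤ 1 / 20) (hx : 99 / 1000 ≤ Real.cos x) :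
    Real.cos x - Real.cos (x + d) ≥ d * Real.sin x + 1 / 25 * d ^ 2 := by
  rw [Real.cos_add]
  have h1 := Real.cos_bound (show |d| ≤ 1 by linarith)
  have h2 := Real.sin_bound (show |d| ≤ 1 by linarith)
  rw [abs_le] at h1 h2
  have hd2 : |d| ^ 4 = d ^ 4 := by
    rw [show |d| ^ 4 = (|d| ^ 2) ^ 2 by ring, sq_abs]; ring
  have hd5 : |d| ^ 5 = d ^ 4 * |d| := by
    rw [show |d| ^ 5 = |d| ^ 4 * |d| by ring, hd2]
  rw [hd2] at h1
  rw [hd5] at h2
  have hs1 := Real.sin_le_one x
  have hs2 := Real.neg_one_le_sin x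
  have hdd : d ^ 2 ≤ 1 / 400 := by
    have : d ^ 2 = |d| ^ 2 := (sq_abs d).symm
    rw [this]
    nlinarith [abs_nonneg d]
  have hd4 : d ^ 4 ≤ d ^ 2 * (1 / 400) := by
    have : d ^ 4 = d ^ 2 * d ^ 2 := by ring
    rw [this]
    nlinarith [sq_nonneg d]
  have hd6 : d ^ 4 * |d| ≤ d ^ 2 * (1 / 8000) := by
    calc d ^ 4 * |d| ≤ (d ^ 2 * (1 / 400)) * (1 / 20) :=
          mul_le_mul hd4 hd (abs_nonneg _) (by positivity)
      _ = _ := by ring
  -- 1 - cos d ≥ 0.4998 d²
  have hc : 4998 / 10000 * d ^ 2 ≤ 1 - Real.cos d := by nlinarith [sq_nonneg d]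
  -- |sin d - d| ≤ 0.0085 d²
  have hd3 : |d ^ 3| ≤ d ^ 2 * (1 / 20) := by
    rw [show d ^ 3 = d ^ 2 * d by ring, abs_mul, abs_of_nonneg (sq_nonneg d)]
    exact mul_le_mul_of_nonneg_left hd (sq_nonneg d)
  rw [abs_le] at hd3
  have hsin : |Real.sin d - d| ≤ 85 / 10000 * d ^ 2 := by
    rw [abs_le]
    constructor <;> nlinarith [sq_nonneg d]
  have hss : |Real.sin x * (Real.sin d - d)| ≤ 85 / 10000 * d ^ 2 := by
    rw [abs_mul]
    calc |Real.sin x| * |Real.sin d - d| ≤ 1 * |Real.sin d - d| :=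
          mul_le_mul_of_nonneg_right (Real.abs_sin_le_one x) (abs_nonneg _)
      _ ≤ _ := by linarith
  rw [abs_le] at hss
  have hcc : 99 / 1000 * (4998 / 10000 * d ^ 2) ≤ Real.cos x * (1 - Real.cos d) :=
    mul_le_mul hx hc (by positivity) (by linarith)
  nlinarith [sq_nonneg d]

lemma energy_lower {V : Type*} [Fintype V] {G : SimpleGraph V} {θ h : V → ℝ}
    (hcos : ∀ i j, G.Adj i j → 99 / 1000 ≤ Real.cos (θ i - θ j)) (hh : ∀ i, |h i| ≤ 1 / 40) :
    ∑ i, h i * (∑ j, if G.Adj i j then Real.sin (θ i - θ j) else 0)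
      + 1 / 50 * ∑ i, ∑ j, (if G.Adj i j then (h i - h j) ^ 2 else 0)
      ≤ energy G (fun i => θ i + h i) - energy G θ := by
  have h1 : energy G (fun i => θ i + h i) - energy G θ
      = 1 / 2 * ∑ i, ∑ j, (if G.Adj i j then
        Real.cos (θ i - θ j) - Real.cos ((θ i - θ j) + (h i - h j)) else 0) := by
    unfold energy
    rw [← mul_sub, ← Finset.sum_sub_distrib]
    congr 1
    apply Finset.sum_congr rfl
    intro i _
    rw [← Finset.sum_sub_distrib]
    apply Finset.sum_congr rfl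
    intro j _
    split_ifs with hij
    · rw [show θ i + h i - (θ j + h j) = (θ i - θ j) + (h i - h j) by ring]
      ring
    · ring
  rw [h1]
  have h2 : ∀ i j, (if G.Adj i j then (h i - h j) * Real.sin (θ i - θ j) +
      1 / 25 * (h i - h j) ^ 2 else 0) ≤ (if G.Adj i j then
        Real.cos (θ i - θ j) - Real.cos ((θ i - θ j) + (h i - h j)) else 0) := by
    intro i j
    split_ifs with hij
    · apply trig _ (hcos i j hij)
      calc |h i - h j| ≤ |h i| + |h j| := abs_sub _ _
        _ ≤ 1 / 20 := by linarith [hh i, hh j]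
    · exact le_refl _
  have h3 : ∑ i, ∑ j, (if G.Adj i j then (h i - h j) * Real.sin (θ i - θ j) +
      1 / 25 * (h i - h j) ^ 2 else 0) ≤ ∑ i, ∑ j, (if G.Adj i j then
        Real.cos (θ i - θ j) - Real.cos ((θ i - θ j) + (h i - h j)) else 0) :=
    Finset.sum_le_sum (fun i _ => Finset.sum_le_sum (fun j _ => h2 i j))
  have h4 : ∑ i, ∑ j, (if G.Adj i j then (h i - h j) * Real.sin (θ i - θ j) +
      1 / 25 * (h i - h j) ^ 2 else 0)
      = 2 * ∑ i, h i * (∑ j, if G.Adj i j then Real.sin (θ i - θ j) else 0)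
        + 1 / 25 * ∑ i, ∑ j, (if G.Adj i j then (h i - h j) ^ 2 else 0) := by
    have e1 : ∀ i j, (if G.Adj i j then (h i - h j) * Real.sin (θ i - θ j) +
      1 / 25 * (h i - h j) ^ 2 else 0)
        = (h i * (if G.Adj i j then Real.sin (θ i - θ j) else 0)
          + h j * (if G.Adj j i then Real.sin (θ j - θ i) else 0))
          + 1 / 25 * (if G.Adj i j then (h i - h j) ^ 2 else 0) := by
      intro i j
      by_cases hij : G.Adj i j
      · rw [if_pos hij, if_pos hij, if_pos hij.symm, if_pos hij,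
          show θ j - θ i = -(θ i - θ j) by ring, Real.sin_neg]
        ring
      · rw [if_neg hij, if_neg hij, if_neg (fun h => hij h.symm), if_neg hij]
        ring
    simp_rw [e1, Finset.sum_add_distrib, Finset.mul_sum]
    rw [Finset.sum_comm (f := fun i j => h j * (if G.Adj j i then Real.sin (θ j - θ i) else 0))]
    ring_nf
    simp_rw [Finset.sum_mul]
    ring_nf
  rw [h4] at h3
  linarith

/-- An approximate equilibrium with positive weights on an expander is close to a local minimum. -/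
theorem nonsync_of_approx {V : Type*} [Fintype V] [Nonempty V] {G : SimpleGraph V} (hG : Cubic G)
    (hE : Expander G) (θ : V → ℝ)
    (hcos : ∀ i j, G.Adj i j → 99 / 1000 ≤ Real.cos (θ i - θ j))
    (hr : ∑ i, (∑ j, if G.Adj i j then Real.sin (θ i - θ j) else 0) ^ 2 < (1 / 480000000) ^ 2)
    (u v : V) (huv : Real.cos (θ u - θ v) < 1 - 1 / 800) :
    ∃ θ' : V → ℝ, IsLocalMin (energy G) θ' ∧ ¬ ∃ k : ℤ, θ' u - θ' v = 2 * Real.pi * (k : ℝ) := by
  set r : V → ℝ := fun i => ∑ j, if G.Adj i j then Real.sin (θ i - θ j) else 0 with hrdef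
  -- the quantitative lower bound
  have key : ∀ h : V → ℝ, ∑ i, h i = 0 → ∑ i, h i ^ 2 ≤ (1 / 40) ^ 2 →
      (∀ i, |h i| ≤ 1 / 40) := by
    intro h _ h2 i
    have : h i ^ 2 ≤ ∑ i, h i ^ 2 :=
      Finset.single_le_sum (f := fun i => h i ^ 2) (fun _ _ => sq_nonneg _) (Finset.mem_univ i)
    exact abs_le_of_sq_le_sq (this.trans h2) (by norm_num)
  have bdry : ∀ h : V → ℝ, ∑ i, h i = 0 → ∑ i, h i ^ 2 = (1 / 40) ^ 2 →
      energy G θ < energy G (fun i => θ i + h i) := by
    intro h h1 h2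
    have h3 := energy_lower hcos (key h h1 h2.le)
    have h4 := poinc hG hE h h1
    have h5 : (∑ i, h i * r i) ^ 2 ≤ (∑ i, h i ^ 2) * ∑ i, r i ^ 2 :=
      Finset.sum_mul_sq_le_sq_mul_sq _ _ _
    have h6 : |∑ i, h i * r i| < 1 / 40 * (1 / 480000000) := by
      apply abs_lt_of_sq_lt_sq _ (by norm_num)
      calc (∑ i, h i * r i) ^ 2 ≤ (∑ i, h i ^ 2) * ∑ i, r i ^ 2 := h5
        _ < (1 / 40) ^ 2 * (1 / 480000000) ^ 2 := by
            rw [h2]
            exact mul_lt_mul_of_pos_left hr (by norm_num)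
        _ = _ := by ring
    rw [abs_lt] at h6
    rw [h2] at h4
    have h7 : ∑ i, h i * r i + 1 / 50 * ∑ i, ∑ j, (if G.Adj i j then (h i - h j) ^ 2 else 0)
        ≤ energy G (fun i => θ i + h i) - energy G θ := h3
    nlinarith
  -- compact set
  let B : Set (V → ℝ) := {h | ∑ i, h i = 0 ∧ ∑ i, h i ^ 2 ≤ (1 / 40) ^ 2}
  have hBc : IsCompact B := by
    apply Metric.isCompact_of_isClosed_isBounded
    · have e1 : IsClosed {h : V → ℝ | ∑ i, h i = 0} :=
        isClosed_eq (by fun_prop) continuous_const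
      have e2 : IsClosed {h : V → ℝ | ∑ i, h i ^ 2 ≤ (1 / 40) ^ 2} :=
        isClosed_le (by fun_prop) continuous_const
      exact e1.inter e2
    · rw [Metric.isBounded_iff_subset_closedBall 0]
      refine ⟨1 / 40, ?_⟩
      intro h hh
      rw [mem_closedBall_zero_iff, pi_norm_le_iff_of_nonneg (by norm_num)]
      intro i
      exact key h hh.1 hh.2 i
  have hcont : Continuous (energy G) := by
    unfold energy
    apply Continuous.mul continuous_const
    apply continuous_finsetSum
    intro i _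
    apply continuous_finsetSum
    intro j _
    by_cases hij : G.Adj i j
    · simp only [if_pos hij]
      fun_prop
    · simp only [if_neg hij]
      exact continuous_const
  have h0B : (0 : V → ℝ) ∈ B := by
    constructor
    · simp
    · simp
  have hc2 : Continuous (fun h : V → ℝ => fun i => θ i + h i) := by
    apply continuous_pi
    intro i
    exact continuous_const.add (continuous_apply i)
  obtain ⟨h, hB, hmin⟩ := hBc.exists_isMinOn ⟨0, h0B⟩
    (f := fun h : V → ℝ => energy G (fun i => θ i + h i)) (hcont.comp hc2).continuousOn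
  have hlt : ∑ i, h i ^ 2 < (1 / 40) ^ 2 := by
    rcases hB.2.lt_or_eq with h1 | h1
    · exact h1
    · exfalso
      have h2 := bdry h hB.1 h1
      have h3 := hmin h0B
      simp only [Set.mem_ofPred_eq, Pi.zero_apply, add_zero] at h3
      linarith
  refine ⟨fun i => θ i + h i, ?_, ?_⟩
  · -- local minimum
    have hNpos : (0 : ℝ) < Fintype.card V := by exact_mod_cast Fintype.card_pos
    let c : (V → ℝ) → ℝ := fun φ => (∑ i, (φ i - θ i)) / Fintype.card V
    have hcc : Continuous c := by fun_prop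
    have hev : ∀ᶠ φ in nhds (fun i => θ i + h i),
        ∑ i, (φ i - θ i - c φ) ^ 2 < (1 / 40) ^ 2 := by
      have hcts : Continuous (fun φ : V → ℝ => ∑ i, (φ i - θ i - c φ) ^ 2) := by fun_prop
      apply hcts.continuousAt.eventually_lt continuousAt_const
      have hc0 : c (fun i => θ i + h i) = 0 := by
        simp only [c, add_sub_cancel_left, hB.1, zero_div]
      rw [hc0]
      simpa using hlt
    filter_upwards [hev] with φ hφ
    have hmem : (fun i => φ i - θ i - c φ) ∈ B := by
      refine ⟨?_, hφ.le⟩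
      rw [Finset.sum_sub_distrib, Finset.sum_const, Finset.card_univ, nsmul_eq_mul]
      simp only [c]
      field_simp
      ring
    have h3 := hmin hmem
    simp only [Set.mem_ofPred_eq] at h3
    refine h3.trans (le_of_eq ?_)
    unfold energy
    congr 1
    apply Finset.sum_congr rfl
    intro i _
    apply Finset.sum_congr rfl
    intro j _
    rw [show θ i + (φ i - θ i - c φ) - (θ j + (φ j - θ j - c φ)) = φ i - φ j by ring]
  · rintro ⟨k, hk⟩
    have h1 := key h hB.1 hB.2
    have h2 : θ u - θ v = -(h u - h v) + k * (2 * Real.pi) := by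
      have : θ u + h u - (θ v + h v) = 2 * Real.pi * k := hk
      linarith
    rw [h2, Real.cos_add_int_mul_two_pi, Real.cos_neg] at huv
    have h3 : |h u - h v| ≤ 1 / 20 := by
      calc |h u - h v| ≤ |h u| + |h v| := abs_sub _ _
        _ ≤ 1 / 20 := by linarith [h1 u, h1 v]
    have h4 := Real.one_sub_sq_div_two_le_cos (x := h u - h v)
    have h5 : (h u - h v) ^ 2 ≤ 1 / 400 := by
      rw [← sq_abs]
      nlinarith [abs_nonneg (h u - h v)]
    linarith

end H994K
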