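import Mathlib

/-! The angles of the twisted state along the levels of the tree. -/

namespace H994K

open Real Finset

lemma arcsin_upper {y : ℝ} (h0 : 0 ≤ y) (h1 : y ≤ 1) : arcsin y ≤ π / 2 * y := by
  have h2 : 0 ≤ arcsin y := arcsin_nonneg.mpr h0
  have h3 : arcsin y ≤ π / 2 := arcsin_le_pi_div_two y
  have h4 := mul_le_sin h2 h3
  rw [sin_arcsin (by linarith) h1] at h4
  have hpi := pi_pos
  have h5 : arcsin y = π / 2 * (2 / π * arcsin y) := by field_simp
  rw [h5]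
  exact mul_le_mul_of_nonneg_left h4 (by positivity)

lemma arcsin_lower {y : ℝ} (h0 : 0 ≤ y) (h1 : y ≤ 1) : y ≤ arcsin y := by
  have h2 : 0 ≤ arcsin y := arcsin_nonneg.mpr h0
  have h4 := sin_le h2
  rwa [sin_arcsin (by linarith) h1] at h4

lemma geo (r : ℕ) : ∑ i ∈ range r, (1 : ℝ) / 2 ^ (i + 1) = 1 - 1 / 2 ^ r := by
  induction r with
  | zero => simp
  | succ r ih =>
    rw [sum_range_succ, ih, pow_succ]
    field_simp
    ring

lemma exists_x (r : ℕ) (hr : 6 ≤ r) : ∃ x : ℝ, 1 ≤ x ∧ x ≤ π / 2 - 1 / 10 ∧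
    x / 2 + ∑ i ∈ range (r + 1), arcsin (sin x / 2 ^ i) = π := by
  have hpi3 := pi_gt_three
  have hpi4 := pi_lt_d2
  have hpi5 := pi_gt_d2
  set F : ℝ → ℝ := fun x => x / 2 + ∑ i ∈ range (r + 1), arcsin (sin x / 2 ^ i) with hF
  have hcont : Continuous F := by
    apply Continuous.add (by fun_prop)
    apply continuous_finsetSum
    intro i _
    exact continuous_arcsin.comp (by fun_prop)
  have hle : (1 : ℝ) ≤ π / 2 - 1 / 10 := by linarith
  have hsplit : ∀ x : ℝ, 1 ≤ x → x ≤ π / 2 - 1 / 10 → F x = x / 2 + x +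
      ∑ i ∈ range r, arcsin (sin x / 2 ^ (i + 1)) := by
    intro x h1 h2
    simp only [hF]
    rw [sum_range_succ', pow_zero, div_one, arcsin_sin (by linarith) (by linarith)]
    ring
  have hsin : ∀ x : ℝ, 1 ≤ x → x ≤ π / 2 - 1 / 10 → 0 ≤ sin x :=
    fun x h1 h2 => sin_nonneg_of_nonneg_of_le_pi (by linarith) (by linarith)
  have hdiv : ∀ x : ℝ, ∀ i : ℕ, 0 ≤ sin x → 0 ≤ sin x / 2 ^ i ∧ sin x / 2 ^ i ≤ 1 := by
    intro x i h
    refine ⟨by positivity, ?_⟩
    rw [div_le_one (by positivity)]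
    calc sin x ≤ 1 := sin_le_one x
      _ ≤ 2 ^ i := one_le_pow₀ (by norm_num)
  have hlow : F 1 ≤ π := by
    rw [hsplit 1 le_rfl hle]
    have h1 : ∑ i ∈ range r, arcsin (sin 1 / 2 ^ (i + 1))
        ≤ ∑ i ∈ range r, π / 2 * (1 / 2 ^ (i + 1)) := by
      apply sum_le_sum
      intro i _
      have h2 := hdiv 1 (i + 1) (hsin 1 le_rfl hle)
      refine (arcsin_upper h2.1 h2.2).trans ?_
      apply mul_le_mul_of_nonneg_left _ (by positivity)
      gcongr
      exact sin_le_one 1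
    rw [← mul_sum, geo] at h1
    have h3 : (0 : ℝ) < 1 / 2 ^ r := by positivity
    nlinarith
  have hhigh : π ≤ F (π / 2 - 1 / 10) := by
    rw [hsplit _ hle le_rfl]
    have h0 := hsin (π / 2 - 1 / 10) hle le_rfl
    have h1 : ∑ i ∈ range r, sin (π / 2 - 1 / 10) * (1 / 2 ^ (i + 1))
        ≤ ∑ i ∈ range r, arcsin (sin (π / 2 - 1 / 10) / 2 ^ (i + 1)) := by
      apply sum_le_sum
      intro i _
      have h2 := hdiv (π / 2 - 1 / 10) (i + 1) h0
      rw [mul_one_div]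
      exact arcsin_lower h2.1 h2.2
    rw [← mul_sum, geo, sin_pi_div_two_sub] at h1
    have h4 := one_sub_sq_div_two_le_cos (x := 1 / 10)
    have h5 : (1 : ℝ) / 2 ^ r ≤ 1 / 64 := by
      apply one_div_le_one_div_of_le (by norm_num)
      calc (64 : ℝ) = 2 ^ 6 := by norm_num
        _ ≤ 2 ^ r := pow_le_pow_right₀ (by norm_num) hr
    have h6 : (1 - (1 / 10 : ℝ) ^ 2 / 2) * (1 - 1 / 64) ≤ cos (1 / 10) * (1 - 1 / 2 ^ r) := by
      apply mul_le_mul h4 (by linarith) (by norm_num)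
      linarith
    rw [sin_pi_div_two_sub]
    have h7 : (0.979 : ℝ) ≤ (1 - (1 / 10 : ℝ) ^ 2 / 2) * (1 - 1 / 64) := by norm_num
    linarith
  obtain ⟨x, hx, hFx⟩ := intermediate_value_Icc hle hcont.continuousOn ⟨hlow, hhigh⟩
  exact ⟨x, hx.1, hx.2, hFx⟩

/-- The angle at level `j` of the tree. -/
theorem exists_angles (r : ℕ) (hr : 6 ≤ r) : ∃ a : ℕ → ℝ, a (r + 1) = 0 ∧
    sin (2 * a 0) + sin (a 0 - a 1) = 0 ∧
    (∀ j < r, sin (a (j + 1) - a j) + 2 * sin (a (j + 1) - a (j + 2)) = 0) ∧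
    99 / 1000 ≤ cos (2 * a 0) ∧
    (∀ j ≤ r, 99 / 1000 ≤ cos (a j - a (j + 1))) ∧
    |sin (a r)| ≤ 1 / 2 ^ r ∧
    cos (2 * a 0) < 1 - 1 / 800 := by
  obtain ⟨x, h1, h2, hx⟩ := exists_x r hr
  have hpi3 := pi_gt_three
  have hpi4 := pi_lt_d2
  have hs0 : 0 ≤ sin x := sin_nonneg_of_nonneg_of_le_pi (by linarith) (by linarith)
  have hd : ∀ i : ℕ, 0 ≤ sin x / 2 ^ i ∧ sin x / 2 ^ i ≤ 1 := by
    intro i
    refine ⟨by positivity, ?_⟩
    rw [div_le_one (by positivity)]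
    calc sin x ≤ 1 := sin_le_one x
      _ ≤ 2 ^ i := one_le_pow₀ (by norm_num)
  set a : ℕ → ℝ := fun j => π - x / 2 - ∑ i ∈ range j, arcsin (sin x / 2 ^ i) with ha
  have hstep : ∀ j, a j - a (j + 1) = arcsin (sin x / 2 ^ j) := by
    intro j
    simp only [ha]
    rw [sum_range_succ]
    ring
  have hsin : ∀ j, sin (a j - a (j + 1)) = sin x / 2 ^ j := by
    intro j
    rw [hstep, sin_arcsin (by linarith [(hd j).1]) (hd j).2]
  have h2a : 2 * a 0 = 2 * π - x := by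
    simp only [ha, range_zero, sum_empty]
    ring
  have hcosx : cos (2 * a 0) = cos x := by
    rw [h2a, show 2 * π - x = -x + 2 * π by ring, cos_add_two_pi, cos_neg]
  have hcx : 99 / 1000 ≤ cos x := by
    have h3 : cos (π / 2 - 1 / 10) ≤ cos x :=
      cos_le_cos_of_nonneg_of_le_pi (by linarith) (by linarith) h2
    rw [cos_pi_div_two_sub] at h3
    have h4 := sin_gt_sub_cube (x := 1 / 10) (by norm_num)
    norm_num at h4 h3 ⊢
    linarith
  have ha1 : a (r + 1) = 0 := by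
    simp only [ha]
    linarith
  refine ⟨a, ha1, ?_, ?_, ?_, ?_, ?_, ?_⟩
  · rw [hsin 0, h2a, show 2 * π - x = -x + 2 * π by ring, sin_add_two_pi, sin_neg, pow_zero,
      div_one]
    ring
  · intro j _
    rw [hsin (j + 1), show a (j + 1) - a j = -(a j - a (j + 1)) by ring, sin_neg, hsin j, pow_succ]
    field_simp
    ring
  · rw [hcosx]; exact hcx
  · intro j _
    rw [hstep, cos_arcsin]
    apply le_sqrt_of_sq_le
    have h3 : (sin x / 2 ^ j) ^ 2 ≤ sin x ^ 2 := by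
      apply pow_le_pow_left₀ (hd j).1
      exact div_le_self hs0 (one_le_pow₀ (by norm_num))
    have h4 := sin_sq_add_cos_sq x
    nlinarith
  · have h3 : a r = a r - a (r + 1) := by rw [ha1]; ring
    rw [h3, hsin r, abs_of_nonneg (hd r).1]
    gcongr
    exact sin_le_one x
  · rw [hcosx]
    have h3 : cos x ≤ cos 1 := cos_le_cos_of_nonneg_of_le_pi (by norm_num) (by linarith) h1
    have h4 := cos_one_le
    linarith

end H994K
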