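import Mathlib

/-! Cubic graphs: basic definitions. -/

open scoped Classical

namespace H994K

/-- Every vertex has exactly three neighbours. -/
def Cubic {V : Type*} [Fintype V] (G : SimpleGraph V) : Prop :=
  ∀ v : V, (Finset.univ.filter (fun w => G.Adj v w)).card = 3

/-- the finite set of all cubic graphs on `V` -/
noncomputable def cub (V : Type*) [Fintype V] : Finset (SimpleGraph V) :=
  Finset.univ.filter (fun G => Cubic G)

lemma mem_cub {V : Type*} [Fintype V] {G : SimpleGraph V} : G ∈ cub V ↔ Cubic G := by
  unfold cub; simp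

/-- number of cubic graphs on `V` -/
noncomputable def nC (V : Type*) [Fintype V] : ℕ := (cub V).card

lemma cubic_comap {V W : Type*} [Fintype V] [Fintype W] (φ : V ≃ W) {G : SimpleGraph W}
    (hG : Cubic G) : Cubic (G.comap φ) := by
  intro v
  rw [← hG (φ v)]
  apply Finset.card_bij (fun w _ => φ w)
  · intro w hw
    rw [Finset.mem_filter] at hw ⊢
    exact ⟨Finset.mem_univ _, hw.2⟩
  · intro a _ b _ h
    exact φ.injective h
  · intro b hb
    rw [Finset.mem_filter] at hb
    refine ⟨φ.symm b, ?_, by simp⟩
    rw [Finset.mem_filter]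
    refine ⟨Finset.mem_univ _, ?_⟩
    rw [SimpleGraph.comap_adj]
    simpa using hb.2

lemma comap_inj {V W : Type*} (φ : V ≃ W) {G G' : SimpleGraph W}
    (h : G.comap φ = G'.comap φ) : G = G' := by
  ext a b
  have h1 : (G.comap φ).Adj (φ.symm a) (φ.symm b) ↔ (G'.comap φ).Adj (φ.symm a) (φ.symm b) := by
    rw [h]
  rw [SimpleGraph.comap_adj, SimpleGraph.comap_adj] at h1
  simpa using h1

lemma nC_congr {V W : Type*} [Fintype V] [Fintype W] (φ : V ≃ W) : nC V = nC W := by
  apply le_antisymm
  · apply Finset.card_le_card_of_injOn (fun G => G.comap φ.symm)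
    · intro G hG
      rw [Finset.mem_coe, mem_cub] at hG ⊢
      exact cubic_comap φ.symm hG
    · intro G _ G' _ h
      exact comap_inj φ.symm h
  · apply Finset.card_le_card_of_injOn (fun G => G.comap φ)
    · intro G hG
      rw [Finset.mem_coe, mem_cub] at hG ⊢
      exact cubic_comap φ hG
    · intro G _ G' _ h
      exact comap_inj φ h

/-- number of cubic graphs on `n` labelled vertices -/
noncomputable def g (n : ℕ) : ℕ := nC (Fin n)

lemma nC_eq_g (V : Type*) [Fintype V] : nC V = g (Fintype.card V) :=
  nC_congr (Fintype.equivFin V)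

/-- ordered count: the three neighbours -/
lemma cubic_sum {V : Type*} [Fintype V] {G : SimpleGraph V} (hG : Cubic G) (v : V) :
    ∑ w, (if G.Adj v w then 1 else 0) = 3 := by
  rw [← hG v, Finset.card_filter]

lemma cubic_edges {V : Type*} [Fintype V] {G : SimpleGraph V} (hG : Cubic G) :
    2 * Fintype.card G.edgeSet = 3 * Fintype.card V := by
  have h1 := G.sum_degrees_eq_twice_card_edges
  have h2 : ∀ v, G.degree v = 3 := by
    intro v
    rw [← hG v, ← SimpleGraph.card_neighborFinset_eq_degree]
    congr 1
    ext w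
    simp
  rw [Finset.sum_congr rfl (fun v _ => h2 v)] at h1
  simp only [Finset.sum_const, Finset.card_univ, smul_eq_mul] at h1
  have h3 : Fintype.card G.edgeSet = G.edgeFinset.card := by
    rw [SimpleGraph.edgeFinset, Set.toFinset_card]
  rw [h3, ← h1]
  ring

end H994K
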