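import Pool.Agent.H994R2.K.Moment

/-! A positive proportion of cubic graphs has a good 4-cycle (for infinitely many sizes). -/

open scoped Classical

namespace H994K

lemma gg_step {m n : ℕ} (h2 : 2 ≤ n) (h : m ≤ 2 * n) :
    (m : ℝ) ^ 3 / 16 * gg (n - 1) ≤ gg n := by
  refine le_trans ?_ (gg_lower h2)
  apply mul_le_mul_of_nonneg_right _ (Nat.cast_nonneg _)
  have h1 : (m : ℝ) ≤ 2 * n := by exact_mod_cast h
  have h3 : (m : ℝ) ^ 3 ≤ (2 * n) ^ 3 := pow_le_pow_left₀ (Nat.cast_nonneg _) h1 3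
  have h4 : (2 * (n : ℝ)) ^ 3 = 8 * n ^ 3 := by ring
  linarith

lemma gg_four {m : ℕ} (hm : 8 ≤ m) :
    (m : ℝ) ^ 6 * gg (m - 2) ≤ 256 * gg m ∧ (m : ℝ) ^ 12 * gg (m - 4) ≤ 65536 * gg m := by
  have h1 := gg_step (m := m) (n := m) (by omega) (by omega)
  have h2 := gg_step (m := m) (n := m - 1) (by omega) (by omega)
  have h3 := gg_step (m := m) (n := m - 2) (by omega) (by omega)
  have h4 := gg_step (m := m) (n := m - 3) (by omega) (by omega)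
  rw [show m - 1 - 1 = m - 2 by omega] at h2
  rw [show m - 2 - 1 = m - 3 by omega] at h3
  rw [show m - 3 - 1 = m - 4 by omega] at h4
  have hx : (0 : ℝ) ≤ (m : ℝ) ^ 3 / 16 := by positivity
  have h12 : ((m : ℝ) ^ 3 / 16) ^ 2 * gg (m - 2) ≤ gg m := by
    calc ((m : ℝ) ^ 3 / 16) ^ 2 * gg (m - 2) = (m : ℝ) ^ 3 / 16 * ((m : ℝ) ^ 3 / 16 * gg (m - 2)) := by
          ring
      _ ≤ (m : ℝ) ^ 3 / 16 * gg (m - 1) := mul_le_mul_of_nonneg_left h2 hx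
      _ ≤ _ := h1
  have h34 : ((m : ℝ) ^ 3 / 16) ^ 2 * gg (m - 4) ≤ gg (m - 2) := by
    calc ((m : ℝ) ^ 3 / 16) ^ 2 * gg (m - 4) = (m : ℝ) ^ 3 / 16 * ((m : ℝ) ^ 3 / 16 * gg (m - 4)) := by
          ring
      _ ≤ (m : ℝ) ^ 3 / 16 * gg (m - 3) := mul_le_mul_of_nonneg_left h4 hx
      _ ≤ _ := h3
  constructor
  · have : (m : ℝ) ^ 6 * gg (m - 2) = 256 * (((m : ℝ) ^ 3 / 16) ^ 2 * gg (m - 2)) := by ring
    rw [this]
    linarith
  · have e : (m : ℝ) ^ 12 * gg (m - 4)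
        = 65536 * (((m : ℝ) ^ 3 / 16) ^ 2 * (((m : ℝ) ^ 3 / 16) ^ 2 * gg (m - 4))) := by ring
    rw [e]
    have h5 : ((m : ℝ) ^ 3 / 16) ^ 2 * (((m : ℝ) ^ 3 / 16) ^ 2 * gg (m - 4))
        ≤ ((m : ℝ) ^ 3 / 16) ^ 2 * gg (m - 2) :=
      mul_le_mul_of_nonneg_left h34 (sq_nonneg _)
    linarith

lemma sumY_bound (q : ℕ) {m : ℕ} (hm : 8 ≤ m) :
    ((∑ G ∈ cub (Fin (2 * m)), Yc q G : ℕ) : ℝ) ≤ 147456 * gg m := by
  have h := sumY_le (V := Fin (2 * m)) (q := q)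
  rw [Fintype.card_fin] at h
  have e : g (2 * m - 4) = gg (m - 2) := by
    unfold gg
    congr 1
    omega
  rw [e] at h
  have h2 : (2 * m).descFactorial 4 * (gg (m - 2) * (3 * (2 * m - 4)) ^ 2)
      ≤ (2 * m) ^ 4 * (gg (m - 2) * (6 * m) ^ 2) := by
    apply Nat.mul_le_mul (Nat.descFactorial_le_pow _ _)
    apply Nat.mul_le_mul_left
    apply Nat.pow_le_pow_left
    omega
  have h3 : ((∑ G ∈ cub (Fin (2 * m)), Yc q G : ℕ) : ℝ)
      ≤ (2 * m) ^ 4 * (gg (m - 2) * (6 * m) ^ 2) := by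
    exact_mod_cast h.trans h2
  have h4 := (gg_four hm).1
  calc _ ≤ (2 * (m : ℝ)) ^ 4 * (gg (m - 2) * (6 * m) ^ 2) := h3
    _ = 576 * ((m : ℝ) ^ 6 * gg (m - 2)) := by ring
    _ ≤ 576 * (256 * gg m) := by linarith
    _ = _ := by ring

lemma sumZ_bound {m : ℕ} (hm : 8 ≤ m) :
    ((∑ G ∈ cub (Fin (2 * m)), Zc G : ℕ) : ℝ) ≤ 21743271936 * gg m := by
  have h := sumZ_le (V := Fin (2 * m))
  rw [Fintype.card_fin] at h
  have e : g (2 * m - 8) = gg (m - 4) := by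
    unfold gg
    congr 1
    omega
  rw [e] at h
  have h2 : (2 * m).descFactorial 8 * (gg (m - 4) * (3 * (2 * m - 8)) ^ 4)
      ≤ (2 * m) ^ 8 * (gg (m - 4) * (6 * m) ^ 4) := by
    apply Nat.mul_le_mul (Nat.descFactorial_le_pow _ _)
    apply Nat.mul_le_mul_left
    apply Nat.pow_le_pow_left
    omega
  have h3 : ((∑ G ∈ cub (Fin (2 * m)), Zc G : ℕ) : ℝ)
      ≤ (2 * m) ^ 8 * (gg (m - 4) * (6 * m) ^ 4) := by
    exact_mod_cast h.trans h2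
  have h4 := (gg_four hm).2
  calc _ ≤ (2 * (m : ℝ)) ^ 8 * (gg (m - 4) * (6 * m) ^ 4) := h3
    _ = 331776 * ((m : ℝ) ^ 12 * gg (m - 4)) := by ring
    _ ≤ 331776 * (65536 * gg m) := by linarith
    _ = _ := by ring

lemma sumYsq_bound {q : ℕ} (hq : 3 ≤ q) {m : ℕ} (hm : 8 ≤ m) :
    ∑ G ∈ cub (Fin (2 * m)), (Yc q G : ℝ) ^ 2 ≤ 30000000000 * gg m := by
  have h1 := sumY_bound q hm
  have h2 := sumZ_bound hm
  have h3 : ∑ G ∈ cub (Fin (2 * m)), (Yc q G : ℝ) ^ 2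
      ≤ ∑ G ∈ cub (Fin (2 * m)), (256 * (Yc q G : ℝ) + (Zc G : ℝ)) := by
    apply Finset.sum_le_sum
    intro G hG
    have := Y_sq hq (mem_cub.mp hG)
    exact_mod_cast this
  rw [Finset.sum_add_distrib, ← Finset.mul_sum] at h3
  push_cast at h1 h2
  have hg : (0 : ℝ) ≤ gg m := Nat.cast_nonneg _
  linarith

lemma sumY_lower (q : ℕ) {m : ℕ} (hm : 2 * (4 * 2 ^ q) ≤ m)
    (hs : (gg m : ℝ) ≤ 2 * (6 * (m : ℝ) ^ 3) ^ (4 * 2 ^ q) * gg (m - 4 * 2 ^ q)) :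
    (gg m : ℝ) ≤ 2 * 6 ^ (4 * 2 ^ q) * 3 ^ (8 * 2 ^ q) *
      ((∑ G ∈ cub (Fin (2 * m)), Yc q G : ℕ) : ℝ) := by
  have hM : 1 ≤ 2 ^ q := Nat.one_le_two_pow
  have h := sum_copies_ge (V := Fin (2 * m)) (F := T (2 ^ q)) (L := Lf (2 ^ q))
    (fun w hw => T_deg_leaf hM w hw) (fun w hw => T_deg_inner hM w hw)
  rw [Fintype.card_fin, card_W, card_Lf] at h
  set κ := 4 * 2 ^ q with hκ
  have e8 : 8 * 2 ^ q = 2 * κ := by omega
  rw [e8] at h ⊢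
  have e1 : g (2 * m - 2 * κ) = gg (m - κ) := by
    unfold gg
    congr 1
    omega
  have e2 : 3 * (2 * m - 2 * κ) / 2 = 3 * (m - κ) := by omega
  rw [e1, e2] at h
  have h1 : ∑ G ∈ cub (Fin (2 * m)), (Finset.univ.filter
      (fun τ : (Bool × Bool) × Fin (2 * 2 ^ q) ↪ Fin (2 * m) => Ind (T (2 ^ q)) G τ)).card
      ≤ ∑ G ∈ cub (Fin (2 * m)), 3 ^ (2 * κ) * Yc q G := by
    apply Finset.sum_le_sum
    intro G hG
    rw [← e8]
    exact X_le (mem_cub.mp hG)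
  rw [← Finset.mul_sum] at h1
  have h2 : m ^ (2 * κ) ≤ (2 * m).descFactorial (2 * κ) := by
    refine le_trans ?_ (Nat.pow_sub_le_descFactorial _ _)
    apply Nat.pow_le_pow_left
    omega
  have h3 : m ^ κ ≤ (3 * (m - κ)).descFactorial κ := by
    refine le_trans ?_ (Nat.pow_sub_le_descFactorial _ _)
    apply Nat.pow_le_pow_left
    omega
  have h4 : m ^ (2 * κ) * (gg (m - κ) * m ^ κ)
      ≤ 3 ^ (2 * κ) * ∑ G ∈ cub (Fin (2 * m)), Yc q G := by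
    refine le_trans ?_ (h.trans h1)
    exact Nat.mul_le_mul h2 (Nat.mul_le_mul_left _ h3)
  have h5 : (m : ℝ) ^ (2 * κ) * (gg (m - κ) * (m : ℝ) ^ κ)
      ≤ 3 ^ (2 * κ) * ((∑ G ∈ cub (Fin (2 * m)), Yc q G : ℕ) : ℝ) := by
    exact_mod_cast h4
  calc (gg m : ℝ) ≤ 2 * (6 * (m : ℝ) ^ 3) ^ κ * gg (m - κ) := hs
    _ = 2 * 6 ^ κ * ((m : ℝ) ^ (2 * κ) * (gg (m - κ) * (m : ℝ) ^ κ)) := by
        rw [mul_pow, ← pow_mul, pow_mul' (m : ℝ) 2 κ]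
        have : (m : ℝ) ^ (3 * κ) = ((m : ℝ) ^ κ) ^ 2 * (m : ℝ) ^ κ := by
          rw [← pow_succ, ← pow_mul]
          congr 1
          ring
        rw [this]
        ring
    _ ≤ 2 * 6 ^ κ * (3 ^ (2 * κ) * ((∑ G ∈ cub (Fin (2 * m)), Yc q G : ℕ) : ℝ)) := by
        apply mul_le_mul_of_nonneg_left h5 (by positivity)
    _ = _ := by ring

/-- infinitely often, a positive fraction of the cubic graphs has a good 4-cycle -/
theorem many_good {q : ℕ} (hq : 3 ≤ q) : ∃ c : ℝ, 0 < c ∧ ∀ m1 : ℕ, ∃ m, m1 ≤ m ∧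
    c * gg m ≤ (((cub (Fin (2 * m))).filter (fun G => 0 < Yc q G)).card : ℝ) := by
  set A : ℝ := 2 * 6 ^ (4 * 2 ^ q) * 3 ^ (8 * 2 ^ q) with hA
  have hApos : 0 < A := by positivity
  refine ⟨1 / (A ^ 2 * 30000000000), by positivity, ?_⟩
  intro m1
  obtain ⟨m, hm, hs⟩ := special (4 * 2 ^ q) (max m1 (2 * (4 * 2 ^ q) + 8)) (by positivity)
    (by omega)
  refine ⟨m, by omega, ?_⟩
  have h1 := sumY_lower q (m := m) (by omega) hs
  have h2 := sumYsq_bound hq (m := m) (by omega)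
  have hg : (0 : ℝ) < gg m := by
    have := gg_pos (m := m) (by omega)
    exact_mod_cast this
  rw [← hA] at h1
  set P := (cub (Fin (2 * m))).filter (fun G => 0 < Yc q G) with hP
  -- Cauchy-Schwarz
  have h3 : ((∑ G ∈ cub (Fin (2 * m)), Yc q G : ℕ) : ℝ)
      = ∑ G ∈ P, (1 : ℝ) * (Yc q G : ℝ) := by
    rw [hP, Finset.sum_filter]
    push_cast
    apply Finset.sum_congr rfl
    intro G _
    split_ifs with h
    · ring
    · have : Yc q G = 0 := by omega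
      rw [this]
      simp
  have h4 := Finset.sum_mul_sq_le_sq_mul_sq P (fun _ => (1 : ℝ)) (fun G => (Yc q G : ℝ))
  have h5 : ∑ G ∈ P, (Yc q G : ℝ) ^ 2 ≤ ∑ G ∈ cub (Fin (2 * m)), (Yc q G : ℝ) ^ 2 := by
    apply Finset.sum_le_sum_of_subset_of_nonneg (Finset.filter_subset _ _)
    intro G _ _
    positivity
  rw [← h3] at h4
  simp only [one_pow, Finset.sum_const, nsmul_eq_mul, mul_one] at h4
  set Sg : ℝ := ((∑ G ∈ cub (Fin (2 * m)), Yc q G : ℕ) : ℝ) with hSg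
  have h6 : Sg ^ 2 ≤ (P.card : ℝ) * (30000000000 * gg m) := by
    refine h4.trans ?_
    apply mul_le_mul_of_nonneg_left (h5.trans h2) (Nat.cast_nonneg _)
  have h7 : (gg m : ℝ) ^ 2 ≤ A ^ 2 * Sg ^ 2 := by
    rw [← mul_pow]
    exact pow_le_pow_left₀ hg.le h1 2
  have h8 : (gg m : ℝ) * gg m ≤ (A ^ 2 * 30000000000 * P.card) * gg m := by
    calc (gg m : ℝ) * gg m = (gg m : ℝ) ^ 2 := by ring
      _ ≤ A ^ 2 * Sg ^ 2 := h7
      _ ≤ A ^ 2 * ((P.card : ℝ) * (30000000000 * gg m)) :=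
          mul_le_mul_of_nonneg_left h6 (sq_nonneg _)
      _ = _ := by ring
  have h9 := le_of_mul_le_mul_right h8 hg
  rw [one_div, inv_mul_le_iff₀ (by positivity)]
  exact h9

end H994K
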