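import Pool.Agent.H994R2.K.Growth

/-! Most cubic graphs are expanders. -/

open scoped Classical

namespace H994K

/-! ### binomial inequalities -/

lemma vander1 (M a : ℕ) : M.choose a ^ 2 ≤ (2 * M).choose (2 * a) := by
  rw [two_mul M, Nat.add_choose_eq]
  rw [sq]
  refine Finset.single_le_sum (f := fun ij : ℕ × ℕ => M.choose ij.1 * M.choose ij.2)
    (fun _ _ => Nat.zero_le _) (a := (a, a)) ?_
  simp [two_mul]

lemma vander2 (m k j : ℕ) : (2 * m).choose k * m.choose j ≤ (3 * m).choose (k + j) := by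
  rw [show 3 * m = 2 * m + m by ring, Nat.add_choose_eq]
  refine Finset.single_le_sum (f := fun ij : ℕ × ℕ => (2 * m).choose ij.1 * m.choose ij.2)
    (fun _ _ => Nat.zero_le _) (a := (k, j)) ?_
  simp

lemma two_pow_le_choose (r : ℕ) : ∀ n, 2 * r ≤ n → 2 ^ r ≤ n.choose r := by
  induction r with
  | zero => intro n _; simp
  | succ r ih =>
    intro n hn
    obtain ⟨n, rfl⟩ : ∃ k, n = k + 1 := ⟨n - 1, by omega⟩
    have h := ih n (by omega)
    have h2 := Nat.add_one_mul_choose_eq n r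
    -- (n + 1) * n.choose r = (n + 1).choose (r + 1) * (r + 1)
    have h3 : 2 * (r + 1) * 2 ^ r ≤ (n + 1) * n.choose r := Nat.mul_le_mul hn h
    rw [h2] at h3
    have h4 : (r + 1) * 2 ^ (r + 1) ≤ (r + 1) * (n + 1).choose (r + 1) := by
      calc (r + 1) * 2 ^ (r + 1) = 2 * (r + 1) * 2 ^ r := by ring
        _ ≤ (n + 1).choose (r + 1) * (r + 1) := h3
        _ = _ := by ring
    exact Nat.le_of_mul_le_mul_left h4 (by omega)

/-- lower bound for `m.choose j` -/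
lemma choose_lower {m j : ℕ} (hj : 2 ≤ j) (hm : 2 * j ≤ m) :
    m * (m - 1) * 2 ^ (j - 2) ≤ m.choose j * (j * (j - 1)) := by
  obtain ⟨i, rfl⟩ : ∃ i, j = i + 2 := ⟨j - 2, by omega⟩
  obtain ⟨n, rfl⟩ : ∃ n, m = n + 2 := ⟨m - 2, by omega⟩
  have h1 := Nat.add_one_mul_choose_eq (n + 1) (i + 1)
  have h2 := Nat.add_one_mul_choose_eq n i
  have h3 := two_pow_le_choose i n (by omega)
  have e1 : n + 2 - 1 = n + 1 := by omega
  have e2 : i + 2 - 2 = i := by omega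
  have e3 : i + 2 - 1 = i + 1 := by omega
  rw [e1, e2, e3]
  calc (n + 2) * (n + 1) * 2 ^ i ≤ (n + 2) * ((n + 1) * n.choose i) := by
        rw [mul_assoc]
        exact Nat.mul_le_mul_left _ (Nat.mul_le_mul_left _ h3)
    _ = (n + 2) * ((n + 1).choose (i + 1) * (i + 1)) := by rw [h2]
    _ = (n + 1 + 1) * (n + 1).choose (i + 1) * (i + 1) := by ring
    _ = (n + 1 + 1).choose (i + 1 + 1) * (i + 1 + 1) * (i + 1) := by rw [h1]
    _ = (n + 2).choose (i + 2) * ((i + 2) * (i + 1)) := by ring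

/-- `C(n,b) x^b ≤ (1+x)^n` -/
lemma choose_mul_pow_le (n b : ℕ) (x : ℝ) (hx : 0 ≤ x) : (n.choose b : ℝ) * x ^ b ≤ (1 + x) ^ n := by
  by_cases h : b ≤ n
  · rw [add_pow]
    have := Finset.single_le_sum (s := Finset.range (n + 1))
      (f := fun i => (1 : ℝ) ^ i * x ^ (n - i) * (n.choose i : ℝ))
      (fun i _ => by positivity) (show n - b ∈ Finset.range (n + 1) by
        rw [Finset.mem_range]; omega)
    simp only [one_pow, one_mul] at this ⊢
    rw [Nat.choose_symm h, show n - (n - b) = b by omega] at this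
    linarith
  · rw [Nat.choose_eq_zero_of_lt (by omega)]
    simp only [Nat.cast_zero, zero_mul]
    positivity

lemma choose_small {k b j : ℕ} (hk : k = 2 * j + b) (hb : 100 * b ≤ k) :
    ((3 * k).choose b : ℝ) ≤ (9 / 10 : ℝ) ^ k * 2 ^ j := by
  have h1 := choose_mul_pow_le (3 * k) b (1 / 30) (by norm_num)
  have h2 : ((3 * k).choose b : ℝ) ≤ (31 / 30 : ℝ) ^ (3 * k) * 30 ^ b := by
    have h3 : ((1 : ℝ) / 30) ^ b * 30 ^ b = 1 := by
      rw [← mul_pow]; norm_num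
    calc ((3 * k).choose b : ℝ) = ((3 * k).choose b : ℝ) * (1 / 30) ^ b * 30 ^ b := by
          rw [mul_assoc, h3, mul_one]
      _ ≤ (1 + 1 / 30) ^ (3 * k) * 30 ^ b := by gcongr
      _ = _ := by norm_num
  have hbj : 99 * b ≤ 2 * j := by omega
  -- square
  have h4 : ((3 * k).choose b : ℝ) ^ 2 ≤ 2 ^ j := by
    have h5 : ((3 * k).choose b : ℝ) ^ 2 ≤ ((31 / 30 : ℝ) ^ (3 * k) * 30 ^ b) ^ 2 := by
      gcongr
    refine h5.trans ?_
    have h6 : ((31 / 30 : ℝ) ^ (3 * k) * 30 ^ b) ^ 2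
        = ((31 / 30 : ℝ) ^ 12) ^ j * ((31 / 30 : ℝ) ^ 6 * 900) ^ b := by
      rw [hk, mul_pow, mul_pow, ← pow_mul, ← pow_mul, ← pow_mul, ← pow_mul,
        show (3 * (2 * j + b)) * 2 = 12 * j + 6 * b by ring, pow_add]
      rw [show (900 : ℝ) = 30 ^ 2 by norm_num, ← pow_mul, mul_comm b 2]
      ring
    rw [h6]
    have h7 : ((31 / 30 : ℝ) ^ 6 * 900) ^ b ≤ (134 / 100 : ℝ) ^ j := by
      have h8 : (((31 / 30 : ℝ) ^ 6 * 900) ^ b) ^ 2 ≤ ((134 / 100 : ℝ) ^ j) ^ 2 := by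
        calc (((31 / 30 : ℝ) ^ 6 * 900) ^ b) ^ 2 = (((31 / 30 : ℝ) ^ 6 * 900) ^ 2) ^ b := by
              rw [← pow_mul, ← pow_mul, mul_comm b 2]
          _ ≤ ((134 / 100 : ℝ) ^ 99) ^ b := by
              apply pow_le_pow_left₀ (by positivity)
              norm_num
          _ = (134 / 100 : ℝ) ^ (99 * b) := by rw [← pow_mul]
          _ ≤ (134 / 100 : ℝ) ^ (2 * j) := pow_le_pow_right₀ (by norm_num) hbj
          _ = ((134 / 100 : ℝ) ^ j) ^ 2 := by rw [← pow_mul, mul_comm]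
      exact le_of_sq_le_sq h8 (by positivity)
    calc ((31 / 30 : ℝ) ^ 12) ^ j * ((31 / 30 : ℝ) ^ 6 * 900) ^ b
        ≤ ((31 / 30 : ℝ) ^ 12) ^ j * (134 / 100 : ℝ) ^ j := by gcongr
      _ = ((31 / 30 : ℝ) ^ 12 * (134 / 100)) ^ j := by rw [mul_pow]
      _ ≤ 2 ^ j := by
          apply pow_le_pow_left₀ (by positivity)
          norm_num
  have h9 : ((3 * k).choose b : ℝ) ^ 2 ≤ ((9 / 10 : ℝ) ^ k * 2 ^ j) ^ 2 := by
    refine h4.trans ?_
    have h10 : ((9 / 10 : ℝ) ^ k * 2 ^ j) ^ 2 = (81 / 100 : ℝ) ^ k * 4 ^ j := by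
      rw [mul_pow, ← pow_mul, ← pow_mul, mul_comm k 2, mul_comm j 2, pow_mul, pow_mul]
      norm_num
    rw [h10]
    have h11 : (81 / 100 : ℝ) ^ (3 * j) ≤ (81 / 100 : ℝ) ^ k :=
      pow_le_pow_of_le_one (by norm_num) (by norm_num) (by omega)
    calc (2 : ℝ) ^ j ≤ ((81 / 100 : ℝ) ^ 3 * 4) ^ j := by
          apply pow_le_pow_left₀ (by norm_num)
          norm_num
      _ = (81 / 100 : ℝ) ^ (3 * j) * 4 ^ j := by rw [mul_pow, ← pow_mul]
      _ ≤ _ := by gcongr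
  exact le_of_sq_le_sq h9 (by positivity)

end H994K
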