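import Pool.Agent.H994R2.K.Expand

/-! Most cubic graphs are expanders: the union bound. -/

open scoped Classical

namespace H994K

section Bd
variable {V : Type*} [Fintype V]

/-- size of the edge boundary -/
noncomputable def bd (G : SimpleGraph V) (S : Finset V) : ℕ :=
  ∑ v ∈ S, (Finset.univ.filter (fun w => G.Adj v w ∧ w ∉ S)).card

/-- edge expansion with constant `1/100` -/
def Expander (G : SimpleGraph V) : Prop :=
  ∀ S : Finset V, 2 * S.card ≤ Fintype.card V → S.card ≤ 100 * bd G S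

lemma small_set {G : SimpleGraph V} (hG : Cubic G) {S : Finset V}
    (h : 100 * bd G S < S.card) : 4 ≤ S.card := by
  by_contra hlt
  have h0 : bd G S = 0 := by omega
  have hne : S.Nonempty := by
    rw [← Finset.card_pos]; omega
  obtain ⟨v, hv⟩ := hne
  have h1 : (Finset.univ.filter (fun w => G.Adj v w ∧ w ∉ S)).card = 0 := by
    unfold bd at h0
    exact (Finset.sum_eq_zero_iff.mp h0) v hv
  rw [Finset.card_eq_zero, Finset.filter_eq_empty_iff] at h1
  have h2 : Finset.univ.filter (fun w => G.Adj v w) ⊆ S.erase v := by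
    intro w hw
    rw [Finset.mem_filter] at hw
    rw [Finset.mem_erase]
    refine ⟨hw.2.ne', ?_⟩
    by_contra hwS
    exact h1 (Finset.mem_univ w) ⟨hw.2, hwS⟩
  have h3 := Finset.card_le_card h2
  rw [hG v, Finset.card_erase_of_mem hv] at h3
  omega

/-- the half edges of `S` paired inside `S` -/
noncomputable def Qs {G : SimpleGraph V} (l : Lab G) (S : Finset V) : Finset (V × Fin 3) :=
  (S ×ˢ (Finset.univ : Finset (Fin 3))).filter (fun x => (perm l x).1 ∈ S)

lemma Qs_sub {G : SimpleGraph V} (l : Lab G) (S : Finset V) :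
    Qs l S ⊆ S ×ˢ (Finset.univ : Finset (Fin 3)) := Finset.filter_subset _ _

lemma Qs_stable {G : SimpleGraph V} (l : Lab G) (S : Finset V) :
    ∀ x ∈ Qs l S, perm l x ∈ Qs l S := by
  intro x hx
  unfold Qs at hx ⊢
  rw [Finset.mem_filter, Finset.mem_product] at hx ⊢
  refine ⟨⟨hx.2, Finset.mem_univ _⟩, ?_⟩
  have := (mem_Inv.mp (perm_mem l)).2 x
  rw [this]
  exact hx.1.1

lemma Qs_card {G : SimpleGraph V} (l : Lab G) (S : Finset V) :
    (Qs l S).card + bd G S = 3 * S.card := by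
  have h1 : (S ×ˢ (Finset.univ : Finset (Fin 3))).card = 3 * S.card := by
    rw [Finset.card_product, Finset.card_univ, Fintype.card_fin, mul_comm]
  rw [← h1, ← Finset.card_filter_add_card_filter_not (s := S ×ˢ (Finset.univ : Finset (Fin 3)))
    (fun x => (perm l x).1 ∈ S)]
  unfold Qs
  congr 1
  unfold bd
  rw [← Finset.card_sigma]
  symm
  apply Finset.card_bij (fun (x : V × Fin 3) _ => (⟨x.1, (perm l x).1⟩ : (_ : V) × V))
  · intro x hx
    rw [Finset.mem_filter, Finset.mem_product] at hx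
    rw [Finset.mem_sigma, Finset.mem_filter]
    exact ⟨hx.1.1, Finset.mem_univ _, perm_adj l x, hx.2⟩
  · intro x _ y _ h
    rw [Sigma.mk.injEq] at h
    obtain ⟨h1, h2⟩ := h
    have h2' := eq_of_heq h2
    obtain ⟨v, i⟩ := x
    obtain ⟨v', i'⟩ := y
    change v = v' at h1
    subst h1
    rw [perm_fst, perm_fst] at h2'
    have : i = i' := (l v).injective (Subtype.ext h2')
    rw [this]
  · rintro ⟨v, w⟩ hx
    rw [Finset.mem_sigma, Finset.mem_filter] at hx
    refine ⟨(v, (l v).symm ⟨w, hx.2.2.1⟩), ?_, ?_⟩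
    · rw [Finset.mem_filter, Finset.mem_product]
      refine ⟨⟨hx.1, Finset.mem_univ _⟩, ?_⟩
      rw [perm_fst]
      simp only [Equiv.apply_symm_apply]
      exact hx.2.2.2
    · simp only [perm_fst, Equiv.apply_symm_apply]

end Bd

lemma num_bound {m a X Y : ℕ} (hle : a ≤ 3 * m)
    (e1 : X * (2 ^ a * a.factorial) = (2 * a).factorial)
    (e2 : Y * (2 ^ (3 * m - a) * (3 * m - a).factorial) = (2 * (3 * m - a)).factorial) :
    ((X : ℝ) * Y) * ((3 * m).choose a : ℝ) ≤ Dr m := by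
  have e4 := vander1 (3 * m) a
  have f1 : (3 * m).choose a * a.factorial * (3 * m - a).factorial = (3 * m).factorial :=
    Nat.choose_mul_factorial_mul_factorial hle
  have f2 : (2 * (3 * m)).choose (2 * a) * (2 * a).factorial * (2 * (3 * m) - 2 * a).factorial
      = (2 * (3 * m)).factorial :=
    Nat.choose_mul_factorial_mul_factorial (by omega)
  have f3 : 2 * (3 * m) - 2 * a = 2 * (3 * m - a) := by omega
  rw [f3, ← e1, ← e2] at f2
  have hD : Dr m = ((2 * (3 * m)).factorial : ℝ) / (2 ^ (3 * m) * (3 * m).factorial) := by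
    unfold Dr
    rw [show 2 * (3 * m) = 6 * m by ring]
  rw [hD, le_div_iff₀ (by positivity), ← f2, ← f1]
  push_cast
  have e4' : ((3 * m).choose a : ℝ) ^ 2 ≤ ((2 * (3 * m)).choose (2 * a) : ℝ) := by
    exact_mod_cast e4
  have hp : (2 : ℝ) ^ (3 * m) = 2 ^ a * 2 ^ (3 * m - a) := by
    rw [← pow_add]; congr 1; omega
  rw [hp]
  generalize ((2 * (3 * m)).choose (2 * a) : ℝ) = C2 at *
  generalize ((3 * m).choose a : ℝ) = C1 at *
  have hn : (0 : ℝ) ≤ (X * (2 ^ a * a.factorial)) *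
        (Y * (2 ^ (3 * m - a) * (3 * m - a).factorial)) := by positivity
  calc (X : ℝ) * Y * C1 * (2 ^ a * 2 ^ (3 * m - a) *
        (C1 * (a.factorial) * ((3 * m - a).factorial)))
      = C1 ^ 2 * ((X * (2 ^ a * a.factorial)) *
        (Y * (2 ^ (3 * m - a) * (3 * m - a).factorial))) := by ring
    _ ≤ C2 * ((X * (2 ^ a * a.factorial)) *
        (Y * (2 ^ (3 * m - a) * (3 * m - a).factorial))) := mul_le_mul_of_nonneg_right e4' hn
    _ = _ := by ring

lemma stab_bound' {P : Type*} [Fintype P] {m k b j : ℕ} (hP : Fintype.card P = 2 * (3 * m))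
    (hk : k = 2 * j + b) (hkm : k ≤ m)
    (Q : Finset P) (hQ : Q.card = 3 * k - b) :
    ((Stab Q).card : ℝ) * (((2 * m).choose k : ℝ) * (m.choose j : ℝ)) ≤ Dr m := by
  have h1 : Fintype.card {x // x ∈ Q} = 2 * (k + j) := by
    rw [Fintype.card_coe, hQ]; omega
  have h2 : Fintype.card {x // x ∉ Q} = 2 * (3 * m - (k + j)) := by
    rw [Fintype.card_subtype_compl, hP, h1]; omega
  have e1 := card_Inv h1
  have e2 := card_Inv h2
  have e3 := card_stab Q
  have hkey := num_bound (show k + j ≤ 3 * m by omega) e1 e2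
  have e3' : ((Stab Q).card : ℝ) ≤ ((Inv {x // x ∈ Q}).card : ℝ) * (Inv {x // x ∉ Q}).card := by
    rw [← Nat.cast_mul]
    exact Nat.cast_le.mpr e3
  have e5' : ((2 * m).choose k : ℝ) * (m.choose j : ℝ) ≤ ((3 * m).choose (k + j) : ℝ) := by
    rw [← Nat.cast_mul]
    exact Nat.cast_le.mpr (vander2 m k j)
  refine le_trans ?_ hkey
  exact mul_le_mul e3' e5' (mul_nonneg (Nat.cast_nonneg _) (Nat.cast_nonneg _))
    (mul_nonneg (Nat.cast_nonneg _) (Nat.cast_nonneg _))

lemma stab_bound {m k b j : ℕ} (hk : k = 2 * j + b) (hkm : k ≤ m)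
    (Q : Finset (Fin (2 * m) × Fin 3)) (hQ : Q.card = 3 * k - b) :
    ((Stab Q).card : ℝ) * (((2 * m).choose k : ℝ) * (m.choose j : ℝ)) ≤ Dr m := by
  have hP : Fintype.card (Fin (2 * m) × Fin 3) = 2 * (3 * m) := by
    rw [Fintype.card_prod, Fintype.card_fin, Fintype.card_fin]; ring
  exact stab_bound' hP hk hkm Q hQ

lemma stab_zero {P : Type*} [Fintype P] {k b : ℕ} (hb : b ≤ k) (Q : Finset P)
    (hQ : Q.card = 3 * k - b)
    (hpar : ¬ ∃ j, k = 2 * j + b) : (Stab Q).card = 0 := by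
  have hodd : ¬ Even (Fintype.card {x // x ∈ Q}) := by
    rw [Fintype.card_coe, hQ]
    rintro ⟨c, hc⟩
    exact hpar ⟨c - k, by omega⟩
  have h1 := card_stab Q
  rw [card_Inv_odd hodd, zero_mul] at h1
  omega

lemma term_bound {m k b : ℕ} (hk4 : 4 ≤ k) (hkm : k ≤ m) (hb : 100 * b ≤ k) :
    ∑ S ∈ Finset.powersetCard k (Finset.univ : Finset (Fin (2 * m))),
      ∑ Q ∈ Finset.powersetCard (3 * k - b) (S ×ˢ (Finset.univ : Finset (Fin 3))),
        ((Stab Q).card : ℝ)
      ≤ Dr m * (4 * (k : ℝ) ^ 2 * (9 / 10) ^ k / (m * (m - 1))) := by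
  have hm4 : (4 : ℝ) ≤ m := by exact_mod_cast (by omega : 4 ≤ m)
  have hD := Dr_pos m
  have hmm : (0 : ℝ) < m * (m - 1) := by
    apply mul_pos <;> linarith
  by_cases hpar : ∃ j, k = 2 * j + b
  · obtain ⟨j, hj⟩ := hpar
    have hj2 : 2 ≤ j := by omega
    have hjm : 2 * j ≤ m := by omega
    have hc1 : 0 < (2 * m).choose k := Nat.choose_pos (by omega)
    have hc2 : 0 < m.choose j := Nat.choose_pos (by omega)
    have hc1' : (0 : ℝ) < ((2 * m).choose k : ℝ) := by exact_mod_cast hc1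
    have hc2' : (0 : ℝ) < (m.choose j : ℝ) := by exact_mod_cast hc2
    have hin : ∀ S ∈ Finset.powersetCard k (Finset.univ : Finset (Fin (2 * m))),
        ∑ Q ∈ Finset.powersetCard (3 * k - b) (S ×ˢ (Finset.univ : Finset (Fin 3))),
        ((Stab Q).card : ℝ)
        ≤ ((3 * k).choose b : ℝ) * (Dr m / (((2 * m).choose k : ℝ) * (m.choose j : ℝ))) := by
      intro S hS
      rw [Finset.mem_powersetCard] at hS
      have h1 : ∀ Q ∈ Finset.powersetCard (3 * k - b) (S ×ˢ (Finset.univ : Finset (Fin 3))),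
          ((Stab Q).card : ℝ)
          ≤ Dr m / (((2 * m).choose k : ℝ) * (m.choose j : ℝ)) := by
        intro Q hQ
        rw [Finset.mem_powersetCard] at hQ
        rw [le_div_iff₀ (by positivity)]
        exact stab_bound hj hkm Q hQ.2
      refine (Finset.sum_le_sum h1).trans ?_
      rw [Finset.sum_const, Finset.card_powersetCard, Finset.card_product, hS.2,
        Finset.card_univ, Fintype.card_fin, nsmul_eq_mul, mul_comm k 3,
        Nat.choose_symm (show b ≤ 3 * k by omega)]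
    refine (Finset.sum_le_sum hin).trans ?_
    rw [Finset.sum_const, Finset.card_powersetCard, Finset.card_univ, Fintype.card_fin,
      nsmul_eq_mul]
    have h2 : ((2 * m).choose k : ℝ) * (((3 * k).choose b : ℝ) *
        (Dr m / (((2 * m).choose k : ℝ) * (m.choose j : ℝ))))
        = Dr m * (((3 * k).choose b : ℝ) / (m.choose j : ℝ)) := by
      field_simp
    rw [h2]
    apply mul_le_mul_of_nonneg_left _ hD.le
    rw [div_le_div_iff₀ hc2' hmm]
    have h3 := choose_small hj hb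
    have h4 := choose_lower hj2 hjm
    have h4' : (m : ℝ) * (m - 1) * 2 ^ j ≤ 4 * ((m.choose j : ℝ) * (k : ℝ) ^ 2) := by
      have h5 : (m : ℝ) * (m - 1) * 2 ^ (j - 2) ≤ (m.choose j : ℝ) * (j * (j - 1)) := by
        have := h4
        have e1 : ((m - 1 : ℕ) : ℝ) = m - 1 := by
          rw [Nat.cast_sub (by omega)]; norm_num
        have e2 : ((j - 1 : ℕ) : ℝ) = j - 1 := by
          rw [Nat.cast_sub (by omega)]; norm_num
        rw [← e1, ← e2]
        exact_mod_cast this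
      have h6 : (2 : ℝ) ^ j = 4 * 2 ^ (j - 2) := by
        have : j = (j - 2) + 2 := by omega
        conv_lhs => rw [this, pow_add]
        norm_num
        ring
      have hjk : (j : ℝ) ≤ k := by exact_mod_cast (by omega : j ≤ k)
      have hj0 : (2 : ℝ) ≤ j := by exact_mod_cast hj2
      have h7 : (j : ℝ) * (j - 1) ≤ (k : ℝ) ^ 2 := by nlinarith
      rw [h6]
      calc (m : ℝ) * (m - 1) * (4 * 2 ^ (j - 2)) = 4 * ((m : ℝ) * (m - 1) * 2 ^ (j - 2)) := by ring
        _ ≤ 4 * ((m.choose j : ℝ) * (j * (j - 1))) := by linarith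
        _ ≤ 4 * ((m.choose j : ℝ) * (k : ℝ) ^ 2) := by gcongr
    calc ((3 * k).choose b : ℝ) * (m * (m - 1)) ≤ ((9 / 10 : ℝ) ^ k * 2 ^ j) * (m * (m - 1)) := by
          gcongr
      _ = (9 / 10 : ℝ) ^ k * ((m : ℝ) * (m - 1) * 2 ^ j) := by ring
      _ ≤ (9 / 10 : ℝ) ^ k * (4 * ((m.choose j : ℝ) * (k : ℝ) ^ 2)) := by gcongr
      _ = _ := by ring
  · have h0 : ∑ S ∈ Finset.powersetCard k (Finset.univ : Finset (Fin (2 * m))),
      ∑ Q ∈ Finset.powersetCard (3 * k - b) (S ×ˢ (Finset.univ : Finset (Fin 3))),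
        ((Stab Q).card : ℝ) = 0 := by
      apply Finset.sum_eq_zero
      intro S _
      apply Finset.sum_eq_zero
      intro Q hQ
      rw [Finset.mem_powersetCard] at hQ
      rw [stab_zero (show b ≤ k by omega) Q hQ.2 hpar]
      norm_num
    rw [h0]
    positivity

lemma bad_bound {m : ℕ} (hm : 4 ≤ m) :
    (((cub (Fin (2 * m))).filter (fun G => ¬ Expander G)).card : ℝ) * 36 ^ m
      ≤ Dr m * ((∑ k ∈ Finset.Icc 4 m, 4 * (k : ℝ) ^ 3 * (9 / 10) ^ k) / (m * (m - 1))) := by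
  set B : Finset (Equiv.Perm (Fin (2 * m) × Fin 3)) :=
    (Finset.Icc 4 m).biUnion (fun k => (Finset.range (k / 100 + 1)).biUnion (fun b =>
      (Finset.powersetCard k (Finset.univ : Finset (Fin (2 * m)))).biUnion (fun S =>
        (Finset.powersetCard (3 * k - b) (S ×ˢ (Finset.univ : Finset (Fin 3)))).biUnion (fun Q =>
          Stab Q)))) with hB
  have h1 : ((cub (Fin (2 * m))).filter (fun G => ¬ Expander G)).card
      * 6 ^ Fintype.card (Fin (2 * m)) ≤ B.card := by
    apply count_le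
    · intro G hG
      rw [Finset.mem_filter, mem_cub] at hG
      exact hG.1
    · intro G hG l
      rw [Finset.mem_filter, mem_cub] at hG
      obtain ⟨hc, hne⟩ := hG
      unfold Expander at hne
      push Not at hne
      obtain ⟨S, hS1, hS2⟩ := hne
      rw [Fintype.card_fin] at hS1
      have hS4 := small_set hc hS2
      have hQ := Qs_card l S
      rw [hB, Finset.mem_biUnion]
      refine ⟨S.card, by rw [Finset.mem_Icc]; omega, ?_⟩
      rw [Finset.mem_biUnion]
      refine ⟨bd G S, by rw [Finset.mem_range]; omega, ?_⟩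
      rw [Finset.mem_biUnion]
      refine ⟨S, by rw [Finset.mem_powersetCard]; exact ⟨Finset.subset_univ _, rfl⟩, ?_⟩
      rw [Finset.mem_biUnion]
      refine ⟨Qs l S, by rw [Finset.mem_powersetCard]; exact ⟨Qs_sub l S, by omega⟩, ?_⟩
      rw [mem_Stab]
      exact ⟨perm_mem l, Qs_stable l S⟩
  rw [Fintype.card_fin, pow_mul] at h1
  norm_num at h1
  have h1' : (((cub (Fin (2 * m))).filter (fun G => ¬ Expander G)).card : ℝ) * 36 ^ m
      ≤ (B.card : ℝ) := by exact_mod_cast h1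
  refine h1'.trans ?_
  have h2 : (B.card : ℝ) ≤ ∑ k ∈ Finset.Icc 4 m, ∑ b ∈ Finset.range (k / 100 + 1),
      ∑ S ∈ Finset.powersetCard k (Finset.univ : Finset (Fin (2 * m))),
      ∑ Q ∈ Finset.powersetCard (3 * k - b) (S ×ˢ (Finset.univ : Finset (Fin 3))),
        ((Stab Q).card : ℝ) := by
    have h3 : B.card ≤ ∑ k ∈ Finset.Icc 4 m, ∑ b ∈ Finset.range (k / 100 + 1),
      ∑ S ∈ Finset.powersetCard k (Finset.univ : Finset (Fin (2 * m))),
      ∑ Q ∈ Finset.powersetCard (3 * k - b) (S ×ˢ (Finset.univ : Finset (Fin 3))),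
        (Stab Q).card := by
      rw [hB]
      refine Finset.card_biUnion_le.trans (Finset.sum_le_sum fun k _ => ?_)
      refine Finset.card_biUnion_le.trans (Finset.sum_le_sum fun b _ => ?_)
      refine Finset.card_biUnion_le.trans (Finset.sum_le_sum fun S _ => ?_)
      exact Finset.card_biUnion_le
    exact_mod_cast h3
  refine h2.trans ?_
  have hm4 : (4 : ℝ) ≤ m := by exact_mod_cast hm
  have hmm : (0 : ℝ) < m * (m - 1) := by
    apply mul_pos <;> linarith
  rw [Finset.sum_div, Finset.mul_sum]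
  apply Finset.sum_le_sum
  intro k hk
  rw [Finset.mem_Icc] at hk
  have h4 : ∀ b ∈ Finset.range (k / 100 + 1),
      ∑ S ∈ Finset.powersetCard k (Finset.univ : Finset (Fin (2 * m))),
      ∑ Q ∈ Finset.powersetCard (3 * k - b) (S ×ˢ (Finset.univ : Finset (Fin 3))),
        ((Stab Q).card : ℝ)
      ≤ Dr m * (4 * (k : ℝ) ^ 2 * (9 / 10) ^ k / (m * (m - 1))) := by
    intro b hb
    rw [Finset.mem_range] at hb
    exact term_bound hk.1 hk.2 (by omega)
  refine (Finset.sum_le_sum h4).trans ?_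
  rw [Finset.sum_const, Finset.card_range, nsmul_eq_mul]
  have hD := Dr_pos m
  have hk' : ((k / 100 + 1 : ℕ) : ℝ) ≤ k := by
    have : k / 100 + 1 ≤ k := by omega
    exact_mod_cast this
  calc ((k / 100 + 1 : ℕ) : ℝ) * (Dr m * (4 * (k : ℝ) ^ 2 * (9 / 10) ^ k / (m * (m - 1))))
      ≤ (k : ℝ) * (Dr m * (4 * (k : ℝ) ^ 2 * (9 / 10) ^ k / (m * (m - 1)))) := by gcongr
    _ = _ := by ring

/-- Most cubic graphs are expanders. -/
lemma most_expanders (δ : ℝ) (hδ : 0 < δ) :
    ∃ M : ℕ, ∀ m : ℕ, M ≤ m →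
      (((cub (Fin (2 * m))).filter (fun G => ¬ Expander G)).card : ℝ) ≤ δ * gg m := by
  obtain ⟨c, hc, hR⟩ := R_lower
  have hsum : Summable (fun k : ℕ => 4 * (k : ℝ) ^ 3 * (9 / 10 : ℝ) ^ k) := by
    have := summable_pow_mul_geometric_of_norm_lt_one 3 (r := (9 / 10 : ℝ)) (by
      rw [Real.norm_of_nonneg (by norm_num)]; norm_num)
    have h2 := this.mul_left 4
    simpa [mul_assoc] using h2
  set C := ∑' k : ℕ, 4 * (k : ℝ) ^ 3 * (9 / 10 : ℝ) ^ k with hC
  have hC0 : 0 ≤ C := tsum_nonneg (fun k => by positivity)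
  -- choose M
  obtain ⟨M, hM⟩ := exists_nat_gt (4 * C ^ 2 / (c * δ ^ 2))
  refine ⟨max M 4, ?_⟩
  intro m hm
  have hm4 : 4 ≤ m := le_trans (le_max_right _ _) hm
  have hmM : M ≤ m := le_trans (le_max_left _ _) hm
  have hm4' : (4 : ℝ) ≤ m := by exact_mod_cast hm4
  have hmM' : (M : ℝ) ≤ m := by exact_mod_cast hmM
  have h1 := bad_bound hm4
  have hsumle : ∑ k ∈ Finset.Icc 4 m, 4 * (k : ℝ) ^ 3 * (9 / 10 : ℝ) ^ k ≤ C :=
    hsum.sum_le_tsum _ (fun k _ => by positivity)
  have hD := Dr_pos m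
  have hmm : (0 : ℝ) < m * (m - 1) := by
    apply mul_pos <;> linarith
  set b : ℝ := (((cub (Fin (2 * m))).filter (fun G => ¬ Expander G)).card : ℝ) with hb
  have hb0 : 0 ≤ b := Nat.cast_nonneg _
  have h2 : b * 36 ^ m ≤ Dr m * (C / (m * (m - 1))) := by
    refine h1.trans ?_
    gcongr
  -- gg in terms of R
  have h3 : (gg m : ℝ) * 36 ^ m = R m * Dr m := by
    unfold R; field_simp
  have h4 := hR m (by omega)
  have hR0 := R_pos (show 2 ≤ m by omega)
  -- C / (m (m-1)) ≤ δ R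
  have h5 : C / (m * (m - 1)) ≤ δ * R m := by
    have h6 : (C / (m * (m - 1))) ^ 2 ≤ (δ * R m) ^ 2 := by
      rw [div_pow, div_le_iff₀ (pow_pos hmm 2), mul_pow δ]
      have h7 : 4 * C ^ 2 ≤ c * δ ^ 2 * m := by
        have : 4 * C ^ 2 / (c * δ ^ 2) < (m : ℝ) := lt_of_lt_of_le hM hmM'
        rw [div_lt_iff₀ (by positivity)] at this
        linarith
      have h8 : (m : ℝ) ^ 4 ≤ 4 * ((m : ℝ) * (m - 1)) ^ 2 := by
        have : (m : ℝ) ^ 2 ≤ 2 * ((m : ℝ) * (m - 1)) := by nlinarith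
        calc (m : ℝ) ^ 4 = ((m : ℝ) ^ 2) ^ 2 := by ring
          _ ≤ (2 * ((m : ℝ) * (m - 1))) ^ 2 := pow_le_pow_left₀ (by positivity) this 2
          _ = _ := by ring
      have h9 : c * (m : ℝ) ≤ (R m) ^ 2 * (m : ℝ) ^ 4 := by
        have : (R m) ^ 2 * (m : ℝ) ^ 4 = ((R m) ^ 2 * (m : ℝ) ^ 3) * m := by ring
        rw [this]
        exact mul_le_mul_of_nonneg_right h4 (by linarith)
      have h10 : C ^ 2 ≤ δ ^ 2 * ((R m) ^ 2 * (m : ℝ) ^ 4) / 4 := by
        have : δ ^ 2 * (c * (m : ℝ)) ≤ δ ^ 2 * ((R m) ^ 2 * (m : ℝ) ^ 4) :=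
          mul_le_mul_of_nonneg_left h9 (sq_nonneg _)
        linarith
      calc C ^ 2 ≤ δ ^ 2 * ((R m) ^ 2 * (m : ℝ) ^ 4) / 4 := h10
        _ ≤ δ ^ 2 * ((R m) ^ 2 * (4 * (m * (m - 1)) ^ 2)) / 4 := by gcongr
        _ = _ := by ring
    exact le_of_sq_le_sq h6 (by positivity)
  have h11 : b * 36 ^ m ≤ (δ * gg m) * 36 ^ m := by
    calc b * 36 ^ m ≤ Dr m * (C / (m * (m - 1))) := h2
      _ ≤ Dr m * (δ * R m) := by gcongr
      _ = δ * (gg m * 36 ^ m) := by rw [h3]; ring
      _ = _ := by ring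
  exact le_of_mul_le_mul_right h11 (by positivity)

end H994K
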