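import Pool.Agent.H994R2.K.Count

/-! A positive fraction of cubic graphs has a nonconstant stable state, infinitely often. -/

open scoped Classical

namespace H994K

/-- the graph has a local minimum of the energy which is not constant modulo `2π` -/
def NonSync {V : Type*} [Fintype V] (G : SimpleGraph V) : Prop :=
  ∃ θ : V → ℝ, IsLocalMin (energy G) θ ∧
      ∃ u v, ¬ ∃ k : ℤ, θ u - θ v = 2 * Real.pi * (k : ℝ)

theorem main_bound : ∃ c : ℝ, 0 < c ∧ ∀ m1 : ℕ, ∃ m, m1 ≤ m ∧ 0 < gg m ∧
    c * gg m ≤ (((cub (Fin (2 * m))).filter (fun G => NonSync G)).card : ℝ) := by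
  obtain ⟨c, hc, h1⟩ := many_good (q := 64) (by norm_num)
  obtain ⟨M, hM⟩ := most_expanders (c / 2) (by positivity)
  refine ⟨c / 2, by positivity, ?_⟩
  intro m1
  obtain ⟨m, hm, h2⟩ := h1 (max m1 (M + 2))
  refine ⟨m, by omega, gg_pos (by omega), ?_⟩
  have h3 := hM m (by omega)
  have hsub : (cub (Fin (2 * m))).filter (fun G => 0 < Yc 64 G)
      ⊆ (cub (Fin (2 * m))).filter (fun G => NonSync G) ∪
        (cub (Fin (2 * m))).filter (fun G => ¬ Expander G) := by
    intro G hG
    rw [Finset.mem_filter] at hG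
    rw [Finset.mem_union, Finset.mem_filter, Finset.mem_filter]
    by_cases hE : Expander G
    · left
      refine ⟨hG.1, ?_⟩
      have hY := hG.2
      unfold Yc at hY
      rw [Finset.card_pos] at hY
      obtain ⟨c, hc⟩ := hY
      rw [Finset.mem_filter] at hc
      obtain ⟨_, τ, hτ, _⟩ := hc
      exact nonsync_of_copy (mem_cub.mp hG.1) hE le_rfl τ hτ
    · right
      exact ⟨hG.1, hE⟩
  have h4 := (Finset.card_le_card hsub).trans (Finset.card_union_le _ _)
  have h5 : (((cub (Fin (2 * m))).filter (fun G => 0 < Yc 64 G)).card : ℝ)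
      ≤ (((cub (Fin (2 * m))).filter (fun G => NonSync G)).card : ℝ)
        + (((cub (Fin (2 * m))).filter (fun G => ¬ Expander G)).card : ℝ) := by
    exact_mod_cast h4
  linarith

end H994K
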