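import Pool.Agent.H994R2.K.Tmpl

/-! Removing a 2-regular induced subgraph from a cubic graph: an upper bound. -/

open scoped Classical

namespace H994K

section
variable {V W0 : Type*} [Fintype V] [Fintype W0]

/-- the other half -/
def flip {W0 : Type*} (w : W0 × Bool) : W0 × Bool := (w.1, !w.2)

lemma flip_flip {W0 : Type*} (w : W0 × Bool) : flip (flip w) = w := by simp [flip]

/-- the situation in which the copy `c` can be removed, with outer neighbours `o` -/
structure Rem (F : SimpleGraph (W0 × Bool)) (G : SimpleGraph V) (c : W0 × Bool ↪ V)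
    (o : W0 × Bool → V) : Prop where
  ind : Ind F G c
  adj : ∀ w, G.Adj (c w) (o w)
  out : ∀ w, o w ∉ Set.range c
  inj : Function.Injective o
  nadj : ∀ w, ¬ G.Adj (o w) (o (flip w))

variable {F : SimpleGraph (W0 × Bool)} {G : SimpleGraph V} {c : W0 × Bool ↪ V}
  {o : W0 × Bool → V}

/-- the copy can be removed -/
def RemP (F : SimpleGraph (W0 × Bool)) (G : SimpleGraph V) (c : W0 × Bool ↪ V) : Prop :=
  ∃ o, Rem F G c o

lemma Rem.ne (h : Rem F G c o) (w : W0 × Bool) : o w ≠ o (flip w) := by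
  intro h1
  have h2 := h.inj h1
  have h3 : w.2 = !w.2 := congrArg Prod.snd h2
  cases h4 : w.2 <;> simp [h4] at h3

lemma Rem.adj_iff (h : Rem F G c o) (hG : Cubic G)
    (hF : ∀ w, (Finset.univ.filter (fun w' => F.Adj w w')).card = 2)
    {w : W0 × Bool} {v : V} (hv : v ∉ Set.range c) : G.Adj (c w) v ↔ v = o w := by
  constructor
  · intro hadj
    have h1 := outer_card hG h.ind w
    rw [hF w] at h1
    have h2 : (Finset.univ.filter (fun v => G.Adj (c w) v ∧ v ∉ Set.range c)).card ≤ 1 := by omega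
    rw [Finset.card_le_one] at h2
    apply h2
    · rw [Finset.mem_filter]; exact ⟨Finset.mem_univ _, hadj, hv⟩
    · rw [Finset.mem_filter]; exact ⟨Finset.mem_univ _, h.adj w, h.out w⟩
  · rintro rfl
    exact h.adj w

/-- the graph after the removal -/
def remG (G : SimpleGraph V) (c : W0 × Bool ↪ V) (o : W0 × Bool → V)
    (hn : ∀ w, o w ≠ o (flip w)) : SimpleGraph {v // v ∉ Set.range c} where
  Adj u u' := G.Adj u.1 u'.1 ∨ ∃ w, u.1 = o w ∧ u'.1 = o (flip w)
  symm := by
    constructor
    rintro u u' (h | ⟨w, h1, h2⟩)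
    · exact Or.inl h.symm
    · exact Or.inr ⟨flip w, h2, by rw [flip_flip]; exact h1⟩
  loopless := by
    constructor
    rintro u (h | ⟨w, h1, h2⟩)
    · exact G.irrefl h
    · exact hn w (h1.symm.trans h2)

lemma remG_cubic (h : Rem F G c o) (hG : Cubic G)
    (hF : ∀ w, (Finset.univ.filter (fun w' => F.Adj w w')).card = 2) :
    Cubic (remG G c o h.ne) := by
  intro u
  have h1 : (Finset.univ.filter (fun v => G.Adj u.1 v)).card = 3 := hG u
  have h2 : (Finset.univ.filter (fun v => G.Adj u.1 v)).card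
      = (Finset.univ.filter (fun u' : {v // v ∉ Set.range c} => G.Adj u.1 u'.1)).card
        + (Finset.univ.filter (fun w => G.Adj u.1 (c w))).card := by
    rw [Finset.card_filter, Finset.card_filter, Finset.card_filter, ← (splitE c).sum_comp,
      Fintype.sum_sum_type]
    rfl
  have h3 : Finset.univ.filter (fun w => G.Adj u.1 (c w))
      = Finset.univ.filter (fun w => u.1 = o w) := by
    ext w
    simp only [Finset.mem_filter, Finset.mem_univ, true_and]
    rw [SimpleGraph.adj_comm]
    exact h.adj_iff hG hF u.2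
  have h4 : Finset.univ.filter (fun u' => (remG G c o h.ne).Adj u u')
      = Finset.univ.filter (fun u' : {v // v ∉ Set.range c} => G.Adj u.1 u'.1) ∪
        Finset.univ.filter (fun u' : {v // v ∉ Set.range c} =>
          ∃ w, u.1 = o w ∧ u'.1 = o (flip w)) := by
    ext u'
    simp only [Finset.mem_filter, Finset.mem_univ, true_and, Finset.mem_union]
    rfl
  have h5 : Disjoint (Finset.univ.filter (fun u' : {v // v ∉ Set.range c} => G.Adj u.1 u'.1))
      (Finset.univ.filter (fun u' : {v // v ∉ Set.range c} =>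
          ∃ w, u.1 = o w ∧ u'.1 = o (flip w))) := by
    rw [Finset.disjoint_left]
    intro u' hu hu'
    rw [Finset.mem_filter] at hu hu'
    obtain ⟨_, w, hw1, hw2⟩ := hu'
    have := hu.2
    rw [hw1, hw2] at this
    exact h.nadj w this
  have h6 : (Finset.univ.filter (fun u' : {v // v ∉ Set.range c} =>
          ∃ w, u.1 = o w ∧ u'.1 = o (flip w))).card
      = (Finset.univ.filter (fun w => u.1 = o w)).card := by
    symm
    apply Finset.card_bij (fun w _ => (⟨o (flip w), h.out _⟩ : {v // v ∉ Set.range c}))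
    · intro w hw
      rw [Finset.mem_filter] at hw ⊢
      exact ⟨Finset.mem_univ _, w, hw.2, rfl⟩
    · intro w _ w' _ hww
      have h7 := h.inj (congrArg Subtype.val hww)
      rw [← flip_flip w, h7, flip_flip]
    · intro u' hu'
      rw [Finset.mem_filter] at hu'
      obtain ⟨_, w, hw1, hw2⟩ := hu'
      refine ⟨w, ?_, Subtype.ext hw2.symm⟩
      rw [Finset.mem_filter]
      exact ⟨Finset.mem_univ _, hw1⟩
  rw [h4, Finset.card_union_of_disjoint h5, h6, ← h3, ← h2, h1]

/-- number of darts -/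
lemma darts {U : Type*} [Fintype U] {H : SimpleGraph U} (hH : Cubic H) :
    (Finset.univ.filter (fun p : U × U => H.Adj p.1 p.2)).card = 3 * Fintype.card U := by
  rw [Finset.card_filter, Fintype.sum_prod_type]
  rw [Finset.sum_congr rfl (fun u _ => cubic_sum hH u), Finset.sum_const, Finset.card_univ,
    smul_eq_mul, mul_comm]

/-- the removal bound -/
lemma rem_count {F : SimpleGraph (W0 × Bool)}
    (hF : ∀ w, (Finset.univ.filter (fun w' => F.Adj w w')).card = 2) (c : W0 × Bool ↪ V) :
    ((cub V).filter (fun G => RemP F G c)).card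
      ≤ g (Fintype.card V - 2 * Fintype.card W0) *
        (3 * (Fintype.card V - 2 * Fintype.card W0)) ^ (Fintype.card W0) := by
  have hcU : Fintype.card {v // v ∉ Set.range c} = Fintype.card V - 2 * Fintype.card W0 := by
    rw [card_compl_range, Fintype.card_prod, Fintype.card_bool, mul_comm]
  set Tg : Finset ((_ : SimpleGraph {v // v ∉ Set.range c}) ×
      (W0 → {v // v ∉ Set.range c} × {v // v ∉ Set.range c})) :=
    (cub {v // v ∉ Set.range c}).sigma (fun H => Fintype.piFinset (fun _ : W0 =>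
      Finset.univ.filter (fun p => H.Adj p.1 p.2))) with hTg
  have hTc : Tg.card = g (Fintype.card V - 2 * Fintype.card W0) *
        (3 * (Fintype.card V - 2 * Fintype.card W0)) ^ (Fintype.card W0) := by
    rw [hTg, Finset.card_sigma]
    have : ∀ H ∈ cub {v // v ∉ Set.range c}, (Fintype.piFinset (fun _ : W0 =>
      Finset.univ.filter (fun p : {v // v ∉ Set.range c} × {v // v ∉ Set.range c} =>
        H.Adj p.1 p.2))).card
        = (3 * (Fintype.card V - 2 * Fintype.card W0)) ^ (Fintype.card W0) := by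
      intro H hH
      rw [Fintype.card_piFinset, Finset.prod_const, darts (mem_cub.mp hH), hcU, Finset.card_univ]
    rw [Finset.sum_congr rfl this, Finset.sum_const, smul_eq_mul]
    congr 1
    rw [← hcU]
    exact nC_eq_g _
  rw [← hTc]
  have hex : ∀ G ∈ (cub V).filter (fun G => RemP F G c), ∃ t ∈ Tg, ∃ o, Rem F G c o ∧
      (∀ u u' : {v // v ∉ Set.range c}, t.1.Adj u u' ↔
        (G.Adj u.1 u'.1 ∨ ∃ w, u.1 = o w ∧ u'.1 = o (flip w))) ∧
      (∀ w0, (t.2 w0).1.1 = o (w0, false) ∧ (t.2 w0).2.1 = o (w0, true)) := by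
    intro G hG
    rw [Finset.mem_filter, mem_cub] at hG
    obtain ⟨hG, o, ho⟩ := hG
    refine ⟨⟨remG G c o ho.ne, fun w0 => (⟨o (w0, false), ho.out _⟩, ⟨o (w0, true), ho.out _⟩)⟩,
      ?_, o, ho, fun _ _ => Iff.rfl, fun _ => ⟨rfl, rfl⟩⟩
    rw [hTg, Finset.mem_sigma]
    refine ⟨mem_cub.mpr (remG_cubic ho hG hF), ?_⟩
    rw [Fintype.mem_piFinset]
    intro w0
    rw [Finset.mem_filter]
    refine ⟨Finset.mem_univ _, ?_⟩
    exact Or.inr ⟨(w0, false), rfl, rfl⟩
  rcases Finset.eq_empty_or_nonempty ((cub V).filter (fun G => RemP F G c)) with he | ⟨G0, hG0⟩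
  · rw [he, Finset.card_empty]
    exact Nat.zero_le _
  obtain ⟨t0, _⟩ := hex G0 hG0
  have : Nonempty ((_ : SimpleGraph {v // v ∉ Set.range c}) ×
      (W0 → {v // v ∉ Set.range c} × {v // v ∉ Set.range c})) := ⟨t0⟩
  choose! f hf using hex
  apply Finset.card_le_card_of_injOn f
  · intro G hG
    exact (hf G hG).1
  · intro G hG G' hG' hff
    have hcG : Cubic G := mem_cub.mp (Finset.mem_filter.mp hG).1
    have hcG' : Cubic G' := mem_cub.mp (Finset.mem_filter.mp hG').1
    obtain ⟨_, o, ho, h1, h2⟩ := hf G hG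
    obtain ⟨_, o', ho', h1', h2'⟩ := hf G' hG'
    rw [← hff] at h1' h2'
    have hoo : o = o' := by
      funext w
      obtain ⟨w0, b⟩ := w
      cases b
      · rw [← (h2 w0).1, (h2' w0).1]
      · rw [← (h2 w0).2, (h2' w0).2]
    subst hoo
    have hUU : ∀ u u' : {v // v ∉ Set.range c}, G.Adj u.1 u'.1 ↔ G'.Adj u.1 u'.1 := by
      intro u u'
      by_cases hw : ∃ w, u.1 = o w ∧ u'.1 = o (flip w)
      · obtain ⟨w, hw1, hw2⟩ := hw
        rw [hw1, hw2]
        exact ⟨fun h => absurd h (ho.nadj w), fun h => absurd h (ho'.nadj w)⟩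
      · have a1 := h1 u u'
        have a2 := h1' u u'
        rw [or_iff_left hw] at a1 a2
        rw [← a1, ← a2]
    ext u v
    by_cases hu : u ∈ Set.range c
    · obtain ⟨w, rfl⟩ := hu
      by_cases hv : v ∈ Set.range c
      · obtain ⟨w', rfl⟩ := hv
        rw [ho.ind w w', ho'.ind w w']
      · rw [ho.adj_iff hcG hF hv, ho'.adj_iff hcG' hF hv]
    · by_cases hv : v ∈ Set.range c
      · obtain ⟨w', rfl⟩ := hv
        rw [SimpleGraph.adj_comm, ho.adj_iff hcG hF hu, SimpleGraph.adj_comm (G := G'),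
          ho'.adj_iff hcG' hF hu]
      · exact hUU ⟨u, hu⟩ ⟨v, hv⟩

end

end H994K
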