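import Pool.Agent.H994R2.K.Local
import Pool.Agent.H994R2.K.Remove

/-! Good 4-cycles: depth function, far and near pairs. -/

open scoped Classical

namespace H994K

/-- the 4-cycle -/
def C4 : SimpleGraph (Bool × Bool) where
  Adj x y := (x.1 = y.1 ∧ x.2 ≠ y.2) ∨ (x.1 ≠ y.1 ∧ x.2 = y.2)
  symm := by
    constructor
    rintro x y (⟨h1, h2⟩ | ⟨h1, h2⟩)
    · exact Or.inl ⟨h1.symm, h2.symm⟩
    · exact Or.inr ⟨h1.symm, h2.symm⟩
  loopless := by
    constructor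
    rintro x (⟨_, h⟩ | ⟨h, _⟩)
    · exact h rfl
    · exact h rfl

lemma C4_adj {x y : Bool × Bool} : C4.Adj x y ↔
    (x.1 = y.1 ∧ x.2 ≠ y.2) ∨ (x.1 ≠ y.1 ∧ x.2 = y.2) := Iff.rfl

lemma C4_iff {x y : Bool × Bool} : C4.Adj x y ↔ y = (x.1, !x.2) ∨ y = (!x.1, x.2) := by
  rw [C4_adj]
  obtain ⟨a, b⟩ := x
  obtain ⟨a', b'⟩ := y
  cases a <;> cases b <;> cases a' <;> cases b' <;> simp

lemma C4_deg (x : Bool × Bool) : (Finset.univ.filter (fun y => C4.Adj x y)).card = 2 := by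
  have : Finset.univ.filter (fun y => C4.Adj x y) = {(x.1, !x.2), (!x.1, x.2)} := by
    ext y
    rw [Finset.mem_filter, C4_iff, Finset.mem_insert, Finset.mem_singleton]
    simp
  rw [this, Finset.card_pair]
  intro h
  have h1 : x.1 = !x.1 := congrArg Prod.fst h
  cases h2 : x.1 <;> simp [h2] at h1

/-- two disjoint 4-cycles -/
def F2 : SimpleGraph ((Bool × Bool) × Bool) where
  Adj w w' := w.1.1 = w'.1.1 ∧ C4.Adj (w.1.2, w.2) (w'.1.2, w'.2)
  symm := by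
    constructor
    rintro x y ⟨h1, h2⟩
    exact ⟨h1.symm, h2.symm⟩
  loopless := by
    constructor
    rintro x ⟨_, h⟩
    exact C4.irrefl h

lemma F2_adj {w w' : (Bool × Bool) × Bool} : F2.Adj w w' ↔
    w.1.1 = w'.1.1 ∧ C4.Adj (w.1.2, w.2) (w'.1.2, w'.2) := Iff.rfl

lemma F2_deg (w : (Bool × Bool) × Bool) :
    (Finset.univ.filter (fun y => F2.Adj w y)).card = 2 := by
  obtain ⟨⟨j, a⟩, b⟩ := w
  have : Finset.univ.filter (fun y => F2.Adj ((j, a), b) y) = {((j, a), !b), ((j, !a), b)} := by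
    ext ⟨⟨j', a'⟩, b'⟩
    rw [Finset.mem_filter, F2_adj, C4_iff, Finset.mem_insert, Finset.mem_singleton]
    simp only [Finset.mem_univ, true_and, Prod.mk.injEq]
    constructor
    · rintro ⟨h1, ⟨h2, h3⟩ | ⟨h2, h3⟩⟩
      · exact Or.inl ⟨⟨h1.symm, h2⟩, h3⟩
      · exact Or.inr ⟨⟨h1.symm, h2⟩, h3⟩
    · rintro (⟨⟨h1, h2⟩, h3⟩ | ⟨⟨h1, h2⟩, h3⟩)
      · exact ⟨h1.symm, Or.inl ⟨h2, h3⟩⟩
      · exact ⟨h1.symm, Or.inr ⟨h2, h3⟩⟩
  rw [this, Finset.card_pair]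
  intro h
  have h1 : b = !b := (congrArg Prod.snd h).symm
  cases h2 : b <;> simp [h2] at h1

section
variable {V : Type*} [Fintype V] {G : SimpleGraph V} {q : ℕ}

/-- depth -/
noncomputable def dep (τ : (Bool × Bool) × Fin (2 * 2 ^ q) ↪ V) : V → ℕ :=
  Function.extend τ (fun w => Nat.size w.2.val) (fun _ => q + 2)

omit [Fintype V] in
lemma dep_in (τ : (Bool × Bool) × Fin (2 * 2 ^ q) ↪ V) (w : (Bool × Bool) × Fin (2 * 2 ^ q)) :
    dep τ (τ w) = Nat.size w.2.val :=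
  τ.injective.extend_apply _ _ w

omit [Fintype V] in
lemma dep_out (τ : (Bool × Bool) × Fin (2 * 2 ^ q) ↪ V) {v : V}
    (hv : v ∉ Set.range τ) : dep τ v = q + 2 := by
  unfold dep
  rw [Function.extend_apply' _ _ _ (fun h => hv h)]

lemma size_le_q (w : (Bool × Bool) × Fin (2 * 2 ^ q)) : Nat.size w.2.val ≤ q + 1 := by
  rw [Nat.size_le, pow_succ]
  have := w.2.2
  omega

omit [Fintype V] in
lemma dep_le (τ : (Bool × Bool) × Fin (2 * 2 ^ q) ↪ V) (v : V) : dep τ v ≤ q + 2 := by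
  by_cases hv : v ∈ Set.range τ
  · obtain ⟨w, rfl⟩ := hv
    rw [dep_in]
    have := size_le_q w
    omega
  · rw [dep_out τ hv]

lemma dep_adj (hG : Cubic G) {τ : (Bool × Bool) × Fin (2 * 2 ^ q) ↪ V}
    (hτ : Ind (T (2 ^ q)) G τ) {v v' : V} (h : G.Adj v v') : dep τ v' ≤ dep τ v + 1 := by
  by_cases hv : v ∈ Set.range τ
  · obtain ⟨w, rfl⟩ := hv
    by_cases hv' : v' ∈ Set.range τ
    · obtain ⟨w', rfl⟩ := hv'
      rw [dep_in, dep_in]
      rcases (hτ w w').mp h with ⟨h1, h2, _⟩ | ⟨h1, h2⟩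
      · rw [h1, h2]; simp
      · rcases h2 with ⟨h2, h3⟩ | ⟨h2, h3⟩
        · have := size_half h2
          rw [h3]; omega
        · have := size_half h2
          rw [h3]; omega
    · have hleaf := leaf_of_outer hG hτ hv' h
      rw [dep_in, dep_out τ hv', size_leaf hleaf]
  · rw [dep_out τ hv]
    have := dep_le τ v'
    omega

omit [Fintype V] in
lemma dep_unique {τ : (Bool × Bool) × Fin (2 * 2 ^ q) ↪ V}
    (hτ : Ind (T (2 ^ q)) G τ) {v v1 v2 : V} (h0 : 1 ≤ dep τ v) (h1 : dep τ v ≤ q + 1)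
    (a1 : G.Adj v v1) (a2 : G.Adj v v2) (l1 : dep τ v1 ≤ dep τ v) (l2 : dep τ v2 ≤ dep τ v) :
    v1 = v2 := by
  have hv : v ∈ Set.range τ := by
    by_contra hv
    rw [dep_out τ hv] at h1
    omega
  obtain ⟨w, rfl⟩ := hv
  rw [dep_in] at h0
  have hw : w.2.val ≠ 0 := by
    intro hw
    rw [hw] at h0
    simp at h0
  have key : ∀ v1, G.Adj (τ w) v1 → dep τ v1 ≤ dep τ (τ w) → ∃ w1, τ w1 = v1 ∧ w1.1 = w.1 ∧
      w1.2.val = w.2.val / 2 := by
    intro v1 a1 l1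
    have hv1 : v1 ∈ Set.range τ := by
      by_contra hv
      rw [dep_out τ hv] at l1
      omega
    obtain ⟨w1, rfl⟩ := hv1
    rw [dep_in, dep_in] at l1
    refine ⟨w1, rfl, ?_⟩
    rcases (hτ w w1).mp a1 with ⟨h1, h2, _⟩ | ⟨h1, h2⟩
    · exact absurd h1 hw
    · rcases h2 with ⟨h2, h3⟩ | ⟨h2, h3⟩
      · exact ⟨h1.symm, h3⟩
      · exfalso
        have := size_half h2
        rw [← h3] at this
        omega
  obtain ⟨w1, rfl, e1, e2⟩ := key v1 a1 l1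
  obtain ⟨w2, rfl, e3, e4⟩ := key v2 a2 l2
  congr 1
  apply Prod.ext
  · rw [e1, e3]
  · apply Fin.ext
    rw [e2, e4]

/-- a 4-cycle close to the core is the core -/
lemma cyc_dep (hq : 3 ≤ q) (hG : Cubic G) {τ : (Bool × Bool) × Fin (2 * 2 ^ q) ↪ V}
    (hτ : Ind (T (2 ^ q)) G τ) {c' : Bool × Bool → V} (hinj : Function.Injective c')
    (hc : ∀ x y, C4.Adj x y → G.Adj (c' x) (c' y)) {x0 : Bool × Bool}
    (h : dep τ (c' x0) ≤ 2) (x : Bool × Bool) : dep τ (c' x) = 0 := by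
  have hall : ∀ y, dep τ (c' y) ≤ 4 := by
    intro y
    have s1 := dep_adj hG hτ (hc x0 (x0.1, !x0.2) (by rw [C4_iff]; simp))
    have s2 := dep_adj hG hτ (hc x0 (!x0.1, x0.2) (by rw [C4_iff]; simp))
    have s3 := dep_adj hG hτ (hc (x0.1, !x0.2) (!x0.1, !x0.2) (by rw [C4_iff]; simp))
    obtain ⟨a, b⟩ := x0
    obtain ⟨a', b'⟩ := y
    simp only at s1 s2 s3
    cases a <;> cases b <;> cases a' <;> cases b' <;> simp_all <;> omega
  obtain ⟨y, _, hy⟩ := Finset.exists_max_image (Finset.univ : Finset (Bool × Bool))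
    (fun y => dep τ (c' y)) ⟨x0, Finset.mem_univ _⟩
  have hy0 : dep τ (c' y) = 0 := by
    by_contra hne
    have e := dep_unique hτ (v := c' y) (by omega) (by have := hall y; omega)
      (hc y (y.1, !y.2) (by rw [C4_iff]; simp)) (hc y (!y.1, y.2) (by rw [C4_iff]; simp))
      (hy _ (Finset.mem_univ _)) (hy _ (Finset.mem_univ _))
    have h1 := hinj e
    have h2 : y.1 = !y.1 := congrArg Prod.fst h1
    cases h3 : y.1 <;> simp [h3] at h2
  have := hy x (Finset.mem_univ _)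
  omega

/-- the cycle `c` extends to a copy of the template -/
def good (q : ℕ) (G : SimpleGraph V) (c : Bool × Bool ↪ V) : Prop :=
  ∃ τ : (Bool × Bool) × Fin (2 * 2 ^ q) ↪ V, Ind (T (2 ^ q)) G τ ∧
    ∀ w : (Bool × Bool) × Fin (2 * 2 ^ q), w.2.val = 0 → τ w = c w.1

lemma zlt (q : ℕ) : 0 < 2 * 2 ^ q := by positivity
lemma olt (q : ℕ) : 1 < 2 * 2 ^ q := by
  have : 0 < 2 ^ q := by positivity
  omega

omit [Fintype V] in
lemma good_ind {c : Bool × Bool ↪ V} {τ : (Bool × Bool) × Fin (2 * 2 ^ q) ↪ V}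
    (hτ : Ind (T (2 ^ q)) G τ)
    (hc : ∀ w : (Bool × Bool) × Fin (2 * 2 ^ q), w.2.val = 0 → τ w = c w.1) : Ind C4 G c := by
  intro x y
  have h1 := hτ (x, ⟨0, zlt q⟩) (y, ⟨0, zlt q⟩)
  rw [hc (x, ⟨0, zlt q⟩) rfl, hc (y, ⟨0, zlt q⟩) rfl] at h1
  rw [h1, T_adj, C4_adj]
  simp

omit [Fintype V] in
lemma good_rem {c : Bool × Bool ↪ V} {τ : (Bool × Bool) × Fin (2 * 2 ^ q) ↪ V}
    (hτ : Ind (T (2 ^ q)) G τ)
    (hc : ∀ w : (Bool × Bool) × Fin (2 * 2 ^ q), w.2.val = 0 → τ w = c w.1) :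
    Rem C4 G c (fun x => τ (x, ⟨1, olt q⟩)) where
  ind := good_ind hτ hc
  adj := by
    intro x
    rw [← hc (x, ⟨0, zlt q⟩) rfl, hτ, T_adj]
    right
    simp
  out := by
    rintro x ⟨y, hy⟩
    rw [← hc (y, ⟨0, zlt q⟩) rfl] at hy
    have := τ.injective hy
    have h2 := congrArg (fun w => w.2.val) this
    simp at h2
  inj := by
    intro x y h
    have := τ.injective h
    exact congrArg Prod.fst this
  nadj := by
    intro x
    rw [hτ, T_adj]
    rintro (⟨h, _⟩ | ⟨h, _⟩)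
    · simp at h
    · have h3 : x.2 = !x.2 := congrArg Prod.snd h
      cases h4 : x.2 <;> simp [h4] at h3

/-- far pairs -/
lemma far_rem (hG : Cubic G) {c c' : Bool × Bool ↪ V}
    {τ τ' : (Bool × Bool) × Fin (2 * 2 ^ q) ↪ V}
    (hτ : Ind (T (2 ^ q)) G τ) (hτ' : Ind (T (2 ^ q)) G τ')
    (hc : ∀ w : (Bool × Bool) × Fin (2 * 2 ^ q), w.2.val = 0 → τ w = c w.1)
    (hc' : ∀ w : (Bool × Bool) × Fin (2 * 2 ^ q), w.2.val = 0 → τ' w = c' w.1)
    (hfar : ∀ x, 3 ≤ dep τ (c' x)) :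
    ∃ c2 : (Bool × Bool) × Bool ↪ V, (∃ o, Rem F2 G c2 o) ∧
      (∀ a b, c2 ((false, a), b) = c (a, b)) ∧ (∀ a b, c2 ((true, a), b) = c' (a, b)) := by
  have hd0 : ∀ x, dep τ (c x) = 0 := by
    intro x
    rw [← hc (x, ⟨0, zlt q⟩) rfl, dep_in]
    simp
  have hd1 : ∀ x, dep τ (τ (x, ⟨1, olt q⟩)) = 1 := by
    intro x
    rw [dep_in]
    simp
  have r := good_rem hτ hc
  have r' := good_rem hτ' hc'
  have hd2 : ∀ x, 2 ≤ dep τ (τ' (x, ⟨1, olt q⟩)) := by
    intro x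
    have h1 := dep_adj hG hτ (r'.adj x).symm
    have h2 := hfar x
    omega
  obtain ⟨c2, e1, e2⟩ : ∃ c2 : (Bool × Bool) × Bool ↪ V,
      (∀ a b, c2 ((false, a), b) = c (a, b)) ∧ (∀ a b, c2 ((true, a), b) = c' (a, b)) := by
    refine ⟨⟨fun w => if w.1.1 then c' (w.1.2, w.2) else c (w.1.2, w.2), ?_⟩, fun _ _ => rfl,
      fun _ _ => rfl⟩
    rintro ⟨⟨j, a⟩, b⟩ ⟨⟨j', a'⟩, b'⟩ h
    cases j <;> cases j' <;> simp only [Bool.false_eq_true, if_false, if_true] at h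
    · have := c.injective h
      simp only [Prod.mk.injEq] at this ⊢
      exact ⟨⟨trivial, this.1⟩, this.2⟩
    · exfalso
      have h1 := hd0 (a, b)
      have h2 := hfar (a', b')
      rw [h] at h1
      omega
    · exfalso
      have h1 := hd0 (a', b')
      have h2 := hfar (a, b)
      rw [← h] at h1
      omega
    · have := c'.injective h
      simp only [Prod.mk.injEq] at this ⊢
      exact ⟨⟨trivial, this.1⟩, this.2⟩
  obtain ⟨o, o1, o2⟩ : ∃ o : (Bool × Bool) × Bool → V,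
      (∀ a b, o ((false, a), b) = τ ((a, b), ⟨1, olt q⟩)) ∧
      (∀ a b, o ((true, a), b) = τ' ((a, b), ⟨1, olt q⟩)) :=
    ⟨fun w => if w.1.1 then τ' ((w.1.2, w.2), ⟨1, olt q⟩) else τ ((w.1.2, w.2), ⟨1, olt q⟩),
      fun _ _ => rfl, fun _ _ => rfl⟩
  refine ⟨c2, ⟨o, ?_⟩, e1, e2⟩
  constructor
  · rintro ⟨⟨j, a⟩, b⟩ ⟨⟨j', a'⟩, b'⟩
    rw [F2_adj]
    cases j <;> cases j'
    · rw [e1, e1]
      simp only [true_and]
      exact r.ind _ _
    · rw [e1, e2]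
      simp only [reduceCtorEq, false_and, iff_false]
      intro h
      have h1 := dep_adj hG hτ h
      have h2 := hd0 (a, b)
      have h3 := hfar (a', b')
      omega
    · rw [e1, e2]
      simp only [reduceCtorEq, false_and, iff_false]
      intro h
      have h1 := dep_adj hG hτ h.symm
      have h2 := hd0 (a', b')
      have h3 := hfar (a, b)
      omega
    · rw [e2, e2]
      simp only [true_and]
      exact r'.ind _ _
  · rintro ⟨⟨j, a⟩, b⟩
    cases j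
    · rw [e1, o1]
      exact r.adj _
    · rw [e2, o2]
      exact r'.adj _
  · rintro ⟨⟨j, a⟩, b⟩ ⟨⟨⟨j', a'⟩, b'⟩, h⟩
    cases j <;> cases j'
    · rw [e1, o1] at h
      exact r.out _ ⟨_, h⟩
    · rw [e2, o1] at h
      have h1 := hd1 (a, b)
      have h2 := hfar (a', b')
      rw [h] at h2
      omega
    · rw [e1, o2] at h
      have h1 := hd2 (a, b)
      have h2 := hd0 (a', b')
      rw [h] at h2
      omega
    · rw [e2, o2] at h
      exact r'.out _ ⟨_, h⟩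
  · rintro ⟨⟨j, a⟩, b⟩ ⟨⟨j', a'⟩, b'⟩ h
    cases j <;> cases j'
    · rw [o1, o1] at h
      have := r.inj h
      simp only [Prod.mk.injEq] at this ⊢
      exact ⟨⟨trivial, this.1⟩, this.2⟩
    · exfalso
      rw [o1, o2] at h
      have h1 := hd1 (a, b)
      have h2 := hd2 (a', b')
      rw [h] at h1
      omega
    · exfalso
      rw [o1, o2] at h
      have h1 := hd1 (a', b')
      have h2 := hd2 (a, b)
      rw [← h] at h1
      omega
    · rw [o2, o2] at h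
      have := r'.inj h
      simp only [Prod.mk.injEq] at this ⊢
      exact ⟨⟨trivial, this.1⟩, this.2⟩
  · rintro ⟨⟨j, a⟩, b⟩
    cases j
    · simp only [flip]
      rw [o1, o1]
      exact r.nadj (a, b)
    · simp only [flip]
      rw [o2, o2]
      exact r'.nadj (a, b)

end

end H994K
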