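import Pool.Agent.H994R2.K.Basic

/-! Inserting a template into a cubic graph by subdividing edges. -/

open scoped Classical

namespace H994K

section Ins
variable {V W : Type*} [Fintype V] [Fintype W]

/-- adjacency of the graph obtained from `H` by subdividing the edges `e w` (`w ∈ L`) with the
vertices `w` of the template `F`. -/
def insAdj (F : SimpleGraph W) (L : Set W) (H : SimpleGraph V) (e : L → Sym2 V) :
    V ⊕ W → V ⊕ W → Prop
  | Sum.inl v, Sum.inl v' => H.Adj v v' ∧ ∀ w, e w ≠ s(v, v')
  | Sum.inl v, Sum.inr w => ∃ h : w ∈ L, v ∈ e ⟨w, h⟩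
  | Sum.inr w, Sum.inl v => ∃ h : w ∈ L, v ∈ e ⟨w, h⟩
  | Sum.inr w, Sum.inr w' => F.Adj w w'

/-- the graph with the template inserted -/
def ins (F : SimpleGraph W) (L : Set W) (H : SimpleGraph V) (e : L → Sym2 V) :
    SimpleGraph (V ⊕ W) where
  Adj := insAdj F L H e
  symm := by
    constructor
    intro a b h
    rcases a with v | w <;> rcases b with v' | w'
    · exact ⟨h.1.symm, fun w => by rw [Sym2.eq_swap]; exact h.2 w⟩
    · exact h
    · exact h
    · exact SimpleGraph.Adj.symm (G := F) h
  loopless := by
    constructor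
    intro a h
    rcases a with v | w
    · exact H.irrefl h.1
    · exact F.irrefl h

lemma sum_split (p : V ⊕ W → Prop) :
    (Finset.univ.filter p).card = (Finset.univ.filter (fun v : V => p (Sum.inl v))).card
      + (Finset.univ.filter (fun w : W => p (Sum.inr w))).card := by
  rw [Finset.card_filter, Finset.card_filter, Finset.card_filter, Fintype.sum_sum_type]

lemma cubic_ins {F : SimpleGraph W} {L : Set W}
    (hF1 : ∀ w ∈ L, (Finset.univ.filter (fun w' => F.Adj w w')).card = 1)
    (hF3 : ∀ w ∉ L, (Finset.univ.filter (fun w' => F.Adj w w')).card = 3)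
    {H : SimpleGraph V} (hH : Cubic H) (e : L ↪ H.edgeSet) :
    Cubic (ins F L H (fun w => (e w : Sym2 V))) := by
  intro a
  rw [sum_split]
  rcases a with v | w
  · -- old vertex
    have h1 : (Finset.univ.filter (fun v' : V =>
        (ins F L H (fun w => (e w : Sym2 V))).Adj (Sum.inl v) (Sum.inl v'))).card
        = ((Finset.univ.filter (fun v' : V => H.Adj v v')).filter
          (fun v' => ¬ ∃ w, (e w : Sym2 V) = s(v, v'))).card := by
      congr 1
      ext v'
      simp only [Finset.mem_filter, Finset.mem_univ, true_and, not_exists]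
      rfl
    have h2 : (Finset.univ.filter (fun w : W =>
        (ins F L H (fun w => (e w : Sym2 V))).Adj (Sum.inl v) (Sum.inr w))).card
        = ((Finset.univ.filter (fun v' : V => H.Adj v v')).filter
          (fun v' => ∃ w, (e w : Sym2 V) = s(v, v'))).card := by
      symm
      have hch : ∀ v' ∈ (Finset.univ.filter (fun v' : V => H.Adj v v')).filter
          (fun v' => ∃ w, (e w : Sym2 V) = s(v, v')), ∃ w, (e w : Sym2 V) = s(v, v') := by
        intro v' hv'
        rw [Finset.mem_filter] at hv'
        exact hv'.2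
      apply Finset.card_bij (fun v' hv' => ((hch v' hv').choose : W))
      · intro v' hv'
        rw [Finset.mem_filter]
        refine ⟨Finset.mem_univ _, ?_⟩
        have := (hch v' hv').choose_spec
        refine ⟨(hch v' hv').choose.2, ?_⟩
        change v ∈ (e (hch v' hv').choose : Sym2 V)
        rw [this]
        exact Sym2.mem_mk_left _ _
      · intro a ha b hb hab
        have h3 := (hch a ha).choose_spec
        have h4 := (hch b hb).choose_spec
        have h5 : (hch a ha).choose = (hch b hb).choose := Subtype.ext hab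
        rw [h5, h4] at h3
        rw [Sym2.eq_iff] at h3
        rcases h3 with ⟨_, h⟩ | ⟨h, h'⟩
        · exact h.symm
        · rw [← h, ← h']
      · intro w hw
        rw [Finset.mem_filter] at hw
        obtain ⟨hwL, hv⟩ := hw.2
        rw [Sym2.mem_iff_exists] at hv
        obtain ⟨v', hv'⟩ := hv
        change (e ⟨w, hwL⟩ : Sym2 V) = s(v, v') at hv'
        have hadj : H.Adj v v' := by
          have := (e ⟨w, hwL⟩).2
          rw [hv'] at this
          exact this
        have hmem : v' ∈ (Finset.univ.filter (fun v' : V => H.Adj v v')).filter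
          (fun v' => ∃ w, (e w : Sym2 V) = s(v, v')) := by
          rw [Finset.mem_filter, Finset.mem_filter]
          exact ⟨⟨Finset.mem_univ _, hadj⟩, ⟨w, hwL⟩, hv'⟩
        refine ⟨v', hmem, ?_⟩
        have h3 := (hch v' hmem).choose_spec
        have h4 : (e (hch v' hmem).choose : Sym2 V) = e ⟨w, hwL⟩ := by rw [h3, hv']
        have h5 := e.injective (Subtype.ext h4)
        rw [h5]
    rw [h1, h2, add_comm, Finset.card_filter_add_card_filter_not]
    exact hH v
  · -- template vertex
    have h2 : (Finset.univ.filter (fun w' : W =>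
        (ins F L H (fun w => (e w : Sym2 V))).Adj (Sum.inr w) (Sum.inr w'))).card
        = (Finset.univ.filter (fun w' => F.Adj w w')).card := rfl
    by_cases hw : w ∈ L
    · have h1 : (Finset.univ.filter (fun v' : V =>
        (ins F L H (fun w => (e w : Sym2 V))).Adj (Sum.inr w) (Sum.inl v'))).card = 2 := by
        obtain ⟨a, b, hab⟩ : ∃ a b, (e ⟨w, hw⟩ : Sym2 V) = s(a, b) := by
          induction h : (e ⟨w, hw⟩ : Sym2 V) using Sym2.ind with
          | _ a b => exact ⟨a, b, rfl⟩
        have hadj : H.Adj a b := by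
          have := (e ⟨w, hw⟩).2
          rw [hab] at this
          exact this
        have : Finset.univ.filter (fun v' : V =>
            (ins F L H (fun w => (e w : Sym2 V))).Adj (Sum.inr w) (Sum.inl v')) = {a, b} := by
          ext v'
          rw [Finset.mem_filter, Finset.mem_insert, Finset.mem_singleton]
          constructor
          · rintro ⟨_, _, h⟩
            have h' : v' ∈ (e ⟨w, hw⟩ : Sym2 V) := h
            rw [hab, Sym2.mem_iff] at h'
            exact h'
          · intro h
            refine ⟨Finset.mem_univ _, hw, ?_⟩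
            change v' ∈ (e ⟨w, hw⟩ : Sym2 V)
            rw [hab, Sym2.mem_iff]
            exact h
        rw [this, Finset.card_pair hadj.ne]
      rw [h1, h2, hF1 w hw]
    · have h1 : (Finset.univ.filter (fun v' : V =>
        (ins F L H (fun w => (e w : Sym2 V))).Adj (Sum.inr w) (Sum.inl v'))).card = 0 := by
        rw [Finset.card_eq_zero, Finset.filter_eq_empty_iff]
        rintro v' _ ⟨h, _⟩
        exact hw h
      rw [h1, h2, hF3 w hw]

/-- cubic graphs on `V ⊕ W` which induce the template on `W` -/
noncomputable def cubT (V : Type*) [Fintype V] (F : SimpleGraph W) :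
    Finset (SimpleGraph (V ⊕ W)) :=
  (cub (V ⊕ W)).filter (fun G => ∀ w w', G.Adj (Sum.inr w) (Sum.inr w') ↔ F.Adj w w')

lemma ins_inj {F : SimpleGraph W} {L : Set W} :
    Function.Injective (fun x : (H : SimpleGraph V) × (L ↪ H.edgeSet) =>
      ins F L x.1 (fun w => (x.2 w : Sym2 V))) := by
  rintro ⟨H, e⟩ ⟨H', e'⟩ h
  change ins F L H (fun w => (e w : Sym2 V)) = ins F L H' (fun w => (e' w : Sym2 V)) at h
  have he : ∀ w, (e w : Sym2 V) = (e' w : Sym2 V) := by
    intro w
    apply Sym2.ext
    intro v
    have h1 : (ins F L H (fun w => (e w : Sym2 V))).Adj (Sum.inl v) (Sum.inr w.1) ↔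
        (ins F L H' (fun w => (e' w : Sym2 V))).Adj (Sum.inl v) (Sum.inr w.1) := by rw [h]
    constructor
    · intro hv
      obtain ⟨_, h2⟩ := h1.mp ⟨w.2, hv⟩
      exact h2
    · intro hv
      obtain ⟨_, h2⟩ := h1.mpr ⟨w.2, hv⟩
      exact h2
  have hH : H = H' := by
    ext v v'
    have h1 : (ins F L H (fun w => (e w : Sym2 V))).Adj (Sum.inl v) (Sum.inl v') ↔
        (ins F L H' (fun w => (e' w : Sym2 V))).Adj (Sum.inl v) (Sum.inl v') := by rw [h]
    have h2 : (H.Adj v v' ∧ ∀ w, (e w : Sym2 V) ≠ s(v, v')) ↔
        (H'.Adj v v' ∧ ∀ w, (e' w : Sym2 V) ≠ s(v, v')) := h1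
    by_cases hw : ∃ w, (e w : Sym2 V) = s(v, v')
    · obtain ⟨w, hw⟩ := hw
      have h3 : H.Adj v v' := by
        have := (e w).2
        rw [hw] at this
        exact this
      have h4 : H'.Adj v v' := by
        have := (e' w).2
        rw [← he w, hw] at this
        exact this
      exact ⟨fun _ => h4, fun _ => h3⟩
    · push Not at hw
      constructor
      · intro hv
        exact (h2.mp ⟨hv, hw⟩).1
      · intro hv
        refine (h2.mpr ⟨hv, fun w => ?_⟩).1
        rw [← he w]
        exact hw w
  subst hH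
  congr 1
  ext w
  simp only [he w]

/-- The insertion bound. -/
lemma card_cubT_ge {F : SimpleGraph W} {L : Set W}
    (hF1 : ∀ w ∈ L, (Finset.univ.filter (fun w' => F.Adj w w')).card = 1)
    (hF3 : ∀ w ∉ L, (Finset.univ.filter (fun w' => F.Adj w w')).card = 3) :
    nC V * (3 * Fintype.card V / 2).descFactorial (Fintype.card L) ≤ (cubT V F).card := by
  have h1 : ((cub V).sigma (fun H => (Finset.univ : Finset (L ↪ H.edgeSet)))).card
      = nC V * (3 * Fintype.card V / 2).descFactorial (Fintype.card L) := by
    rw [Finset.card_sigma]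
    have : ∀ H ∈ cub V, (Finset.univ : Finset (L ↪ H.edgeSet)).card
        = (3 * Fintype.card V / 2).descFactorial (Fintype.card L) := by
      intro H hH
      have h2 := cubic_edges (mem_cub.mp hH)
      rw [Finset.card_univ, Fintype.card_embedding_eq]
      congr 1
      omega
    rw [Finset.sum_congr rfl this, Finset.sum_const, smul_eq_mul]
    rfl
  rw [← h1]
  apply Finset.card_le_card_of_injOn (fun x : (H : SimpleGraph V) × (L ↪ H.edgeSet) =>
      ins F L x.1 (fun w => (x.2 w : Sym2 V)))
  · intro x hx
    rw [Finset.mem_coe, Finset.mem_sigma, mem_cub] at hx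
    rw [Finset.mem_coe, cubT, Finset.mem_filter, mem_cub]
    exact ⟨cubic_ins hF1 hF3 hx.1 x.2, fun _ _ => Iff.rfl⟩
  · intro x _ y _ h
    exact ins_inj h

end Ins

/-! ### counting copies of the template -/

section Copies
variable {V W : Type*} [Fintype V] [Fintype W]

/-- `τ` is an induced copy of `F` in `G` -/
def Ind (F : SimpleGraph W) (G : SimpleGraph V) (τ : W ↪ V) : Prop :=
  ∀ w w', G.Adj (τ w) (τ w') ↔ F.Adj w w'

/-- the equivalence splitting `V` along `τ` -/
noncomputable def splitE (τ : W ↪ V) : {v // v ∉ Set.range τ} ⊕ W ≃ V :=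
  Equiv.ofBijective (Sum.elim Subtype.val τ) (by
    constructor
    · rintro (a | a) (b | b) h
      · exact congrArg _ (Subtype.ext h)
      · exact absurd ⟨b, h.symm⟩ a.2
      · exact absurd ⟨a, h⟩ b.2
      · exact congrArg _ (τ.injective h)
    · intro v
      by_cases h : v ∈ Set.range τ
      · obtain ⟨w, rfl⟩ := h
        exact ⟨Sum.inr w, rfl⟩
      · exact ⟨Sum.inl ⟨v, h⟩, rfl⟩)

lemma splitE_inr (τ : W ↪ V) (w : W) : splitE τ (Sum.inr w) = τ w := rfl

lemma card_compl_range (τ : W ↪ V) :
    Fintype.card {v // v ∉ Set.range τ} = Fintype.card V - Fintype.card W := by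
  have h := Fintype.card_congr (splitE τ)
  rw [Fintype.card_sum] at h
  omega

lemma card_ind_ge {F : SimpleGraph W} {L : Set W}
    (hF1 : ∀ w ∈ L, (Finset.univ.filter (fun w' => F.Adj w w')).card = 1)
    (hF3 : ∀ w ∉ L, (Finset.univ.filter (fun w' => F.Adj w w')).card = 3) (τ : W ↪ V) :
    g (Fintype.card V - Fintype.card W) *
      (3 * (Fintype.card V - Fintype.card W) / 2).descFactorial (Fintype.card L)
      ≤ ((cub V).filter (fun G => Ind F G τ)).card := by
  have h1 := card_cubT_ge (V := {v // v ∉ Set.range τ}) hF1 hF3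
  rw [nC_eq_g, card_compl_range] at h1
  refine h1.trans ?_
  apply Finset.card_le_card_of_injOn (fun G => G.comap (splitE τ).symm)
  · intro G hG
    rw [Finset.mem_coe, cubT, Finset.mem_filter, mem_cub] at hG
    rw [Finset.mem_coe, Finset.mem_filter, mem_cub]
    refine ⟨cubic_comap _ hG.1, ?_⟩
    intro w w'
    rw [SimpleGraph.comap_adj, ← splitE_inr, ← splitE_inr]
    rw [Equiv.symm_apply_apply, Equiv.symm_apply_apply]
    exact hG.2 w w'
  · intro G _ G' _ h
    exact comap_inj _ h

/-- total number of induced copies, over all cubic graphs -/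
lemma sum_copies_ge {F : SimpleGraph W} {L : Set W}
    (hF1 : ∀ w ∈ L, (Finset.univ.filter (fun w' => F.Adj w w')).card = 1)
    (hF3 : ∀ w ∉ L, (Finset.univ.filter (fun w' => F.Adj w w')).card = 3) :
    (Fintype.card V).descFactorial (Fintype.card W) *
      (g (Fintype.card V - Fintype.card W) *
      (3 * (Fintype.card V - Fintype.card W) / 2).descFactorial (Fintype.card L))
      ≤ ∑ G ∈ cub V, (Finset.univ.filter (fun τ : W ↪ V => Ind F G τ)).card := by
  have h1 : ∑ G ∈ cub V, (Finset.univ.filter (fun τ : W ↪ V => Ind F G τ)).card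
      = ∑ τ : W ↪ V, ((cub V).filter (fun G => Ind F G τ)).card := by
    simp only [Finset.card_filter]
    rw [Finset.sum_comm]
  rw [h1, ← Fintype.card_embedding_eq, ← Finset.card_univ, ← smul_eq_mul, ← Finset.sum_const]
  exact Finset.sum_le_sum (fun τ _ => card_ind_ge hF1 hF3 τ)

end Copies

end H994K
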