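import Pool.Agent.H994R2.K.Pair
import Pool.Agent.H994R2.K.Insert

/-! Growth of the number of cubic graphs. -/

open scoped Classical

namespace H994K

lemma card_edge_copies {V : Type*} [Fintype V] {G : SimpleGraph V} (hG : Cubic G) :
    (Finset.univ.filter (fun τ : Bool ↪ V => Ind (⊤ : SimpleGraph Bool) G τ)).card
      ≤ 3 * Fintype.card V := by
  have h1 : ((Finset.univ : Finset V).sigma
      (fun v => Finset.univ.filter (fun w => G.Adj v w))).card = 3 * Fintype.card V := by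
    rw [Finset.card_sigma, Finset.sum_congr rfl (fun v _ => hG v), Finset.sum_const,
      Finset.card_univ, smul_eq_mul, mul_comm]
  rw [← h1]
  apply Finset.card_le_card_of_injOn (fun τ : Bool ↪ V => (⟨τ true, τ false⟩ : (_ : V) × V))
  · intro τ hτ
    rw [Finset.mem_coe, Finset.mem_filter] at hτ
    rw [Finset.mem_coe, Finset.mem_sigma, Finset.mem_filter]
    refine ⟨Finset.mem_univ _, Finset.mem_univ _, ?_⟩
    change G.Adj (τ true) (τ false)
    rw [hτ.2]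
    simp
  · intro τ _ τ' _ h
    have h' : (⟨τ true, τ false⟩ : (_ : V) × V) = ⟨τ' true, τ' false⟩ := h
    rw [Sigma.mk.injEq] at h'
    ext b
    cases b
    · exact eq_of_heq h'.2
    · exact h'.1

/-- number of cubic graphs on `2m` vertices -/
noncomputable def gg (m : ℕ) : ℕ := g (2 * m)

lemma gg_rec {m : ℕ} (hm : 2 ≤ m) :
    (2 * m - 1) * (m - 1) * (3 * m - 4) * gg (m - 1) ≤ gg m := by
  obtain ⟨F, hF⟩ : ∃ F : SimpleGraph Bool, F = ⊤ := ⟨_, rfl⟩
  have hF1 : ∀ w ∈ (Set.univ : Set Bool),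
      (Finset.univ.filter (fun w' => F.Adj w w')).card = 1 := by
    intro w _
    cases w
    · rw [Finset.card_eq_one]
      refine ⟨true, ?_⟩
      ext x; cases x <;> simp [hF]
    · rw [Finset.card_eq_one]
      refine ⟨false, ?_⟩
      ext x; cases x <;> simp [hF]
  have hF3 : ∀ w ∉ (Set.univ : Set Bool),
      (Finset.univ.filter (fun w' => F.Adj w w')).card = 3 := by
    intro w hw
    exact absurd (Set.mem_univ w) hw
  have h := sum_copies_ge (V := Fin (2 * m)) hF1 hF3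
  have h2 : ∑ G ∈ cub (Fin (2 * m)),
      (Finset.univ.filter (fun τ : Bool ↪ Fin (2 * m) => Ind F G τ)).card
      ≤ gg m * (3 * (2 * m)) := by
    have : ∀ G ∈ cub (Fin (2 * m)), (Finset.univ.filter
        (fun τ : Bool ↪ Fin (2 * m) => Ind F G τ)).card
        ≤ 3 * (2 * m) := by
      intro G hG
      have := card_edge_copies (mem_cub.mp hG)
      rw [Fintype.card_fin] at this
      rw [hF]
      exact this
    refine (Finset.sum_le_sum this).trans ?_
    rw [Finset.sum_const, smul_eq_mul]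
    exact le_of_eq rfl
  have h3 := h.trans h2
  have e0 : ∀ inst : Fintype (Set.univ : Set Bool), @Fintype.card _ inst = 2 := by
    intro inst
    rw [← Nat.card_eq_fintype_card]
    simp
  rw [e0, Fintype.card_fin, Fintype.card_bool] at h3
  obtain ⟨k, rfl⟩ : ∃ k, m = k + 2 := ⟨m - 2, by omega⟩
  have e1 : 2 * (k + 2) - 2 = 2 * (k + 1) := by omega
  have e2 : 3 * (2 * (k + 1)) / 2 = 3 * (k + 1) := by omega
  rw [e1, e2] at h3
  have e3 : (2 * (k + 2)).descFactorial 2 = (2 * k + 4) * (2 * k + 3) := by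
    rw [Nat.descFactorial_succ, Nat.descFactorial_one]
    have : 2 * (k + 2) - 1 = 2 * k + 3 := by omega
    rw [this]; ring
  have e4 : (3 * (k + 1)).descFactorial 2 = (3 * k + 3) * (3 * k + 2) := by
    rw [Nat.descFactorial_succ, Nat.descFactorial_one]
    have : 3 * (k + 1) - 1 = 3 * k + 2 := by omega
    rw [this]; ring
  rw [e3, e4] at h3
  have e5 : 2 * (k + 2) - 1 = 2 * k + 3 := by omega
  have e6 : k + 2 - 1 = k + 1 := by omega
  have e7 : 3 * (k + 2) - 4 = 3 * k + 2 := by omega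
  rw [e5, e6, e7]
  have hg1 : gg (k + 1) = g (2 * (k + 1)) := rfl
  rw [hg1]
  have hpos : 0 < 6 * (k + 2) := by omega
  have h4 : 6 * (k + 2) * ((2 * k + 3) * (k + 1) * (3 * k + 2) * g (2 * (k + 1)))
      ≤ 6 * (k + 2) * gg (k + 2) := by
    calc 6 * (k + 2) * ((2 * k + 3) * (k + 1) * (3 * k + 2) * g (2 * (k + 1)))
        = (2 * k + 4) * (2 * k + 3) * (g (2 * (k + 1)) * ((3 * k + 3) * (3 * k + 2))) := by ring
      _ ≤ gg (k + 2) * (3 * (2 * (k + 2))) := h3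
      _ = 6 * (k + 2) * gg (k + 2) := by ring
  exact Nat.le_of_mul_le_mul_left h4 hpos

/-- number of pairings of `6m` points -/
noncomputable def Dr (m : ℕ) : ℝ := ((6 * m).factorial : ℝ) / (2 ^ (3 * m) * (3 * m).factorial)

lemma Dr_pos (m : ℕ) : 0 < Dr m := by unfold Dr; positivity

lemma Dr_succ (m : ℕ) :
    Dr (m + 1) = Dr m * ((6 * m + 5) * (6 * m + 3) * (6 * m + 1)) := by
  unfold Dr
  have e1 : 6 * (m + 1) = 6 * m + 1 + 1 + 1 + 1 + 1 + 1 := by ring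
  have e2 : 3 * (m + 1) = 3 * m + 1 + 1 + 1 := by ring
  rw [e1, e2]
  simp only [Nat.factorial_succ]
  push_cast
  have : ((3 * m).factorial : ℝ) ≠ 0 := by positivity
  have h2 : (2 : ℝ) ^ (3 * m) ≠ 0 := by positivity
  rw [pow_succ, pow_succ, pow_succ]
  field_simp
  ring

lemma card_Inv_eq_Dr (m : ℕ) : ((Inv (Fin (2 * m) × Fin 3)).card : ℝ) = Dr m := by
  have h : Fintype.card (Fin (2 * m) × Fin 3) = 2 * (3 * m) := by
    rw [Fintype.card_prod, Fintype.card_fin, Fintype.card_fin]; ring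
  have h1 := card_Inv h
  have h2 : 2 * (3 * m) = 6 * m := by ring
  rw [h2] at h1
  unfold Dr
  rw [eq_div_iff (by positivity)]
  exact_mod_cast h1

/-- the probability that a random pairing is simple -/
noncomputable def R (m : ℕ) : ℝ := gg m * 36 ^ m / Dr m

lemma R_le_one (m : ℕ) : R m ≤ 1 := by
  unfold R
  rw [div_le_one (Dr_pos m), ← card_Inv_eq_Dr]
  have h := count_le (V := Fin (2 * m)) (cub (Fin (2 * m))) (fun G hG => mem_cub.mp hG)
    (Inv (Fin (2 * m) × Fin 3)) (fun G _ l => perm_mem l)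
  rw [Fintype.card_fin, pow_mul] at h
  norm_num at h
  have h' : gg m * 36 ^ m ≤ (Inv (Fin (2 * m) × Fin 3)).card := h
  exact_mod_cast h'

lemma R_nonneg (m : ℕ) : 0 ≤ R m := by
  unfold R
  have := Dr_pos m
  positivity

lemma R_step {m : ℕ} (hm : 2 ≤ m) :
    R (m - 1) * (12 * (m - 1) * (3 * m - 4)) ≤ R m * ((6 * m - 1) * (6 * m - 5)) := by
  obtain ⟨k, rfl⟩ : ∃ k, m = k + 2 := ⟨m - 2, by omega⟩
  have h := gg_rec hm
  have e5 : 2 * (k + 2) - 1 = 2 * k + 3 := by omega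
  have e6 : k + 2 - 1 = k + 1 := by omega
  have e7 : 3 * (k + 2) - 4 = 3 * k + 2 := by omega
  rw [e5, e6, e7] at h
  have h' : ((2 * k + 3) * (k + 1) * (3 * k + 2) * (gg (k + 1) : ℝ)) ≤ gg (k + 2) := by
    exact_mod_cast h
  rw [e6]
  unfold R
  have hD := Dr_succ (k + 1)
  have hD' : Dr (k + 2) = Dr (k + 1) * ((6 * k + 11) * (6 * k + 9) * (6 * k + 7)) := by
    rw [show k + 2 = k + 1 + 1 by ring, hD]
    push_cast
    ring
  have hp := Dr_pos (k + 1)
  rw [hD']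
  push_cast
  rw [div_mul_eq_mul_div, div_mul_eq_mul_div, div_le_div_iff₀ hp (by positivity)]
  have e8 : (36 : ℝ) ^ (k + 2) = 36 ^ (k + 1) * 36 := by rw [pow_succ]
  rw [e8]
  have hpos : (0 : ℝ) ≤ 36 ^ (k + 1) * Dr (k + 1) *
    (36 * ((6 * k + 11) * (6 * k + 7))) := by positivity
  have h2 := mul_le_mul_of_nonneg_left h' hpos
  calc (gg (k + 1) : ℝ) * 36 ^ (k + 1) * (12 * ((k : ℝ) + 2 - 1) * (3 * ((k : ℝ) + 2) - 4)) *
        (Dr (k + 1) * ((6 * k + 11) * (6 * k + 9) * (6 * k + 7)))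
      = 36 ^ (k + 1) * Dr (k + 1) * (36 * ((6 * k + 11) * (6 * k + 7))) *
        ((2 * k + 3) * (k + 1) * (3 * k + 2) * gg (k + 1)) := by ring
    _ ≤ 36 ^ (k + 1) * Dr (k + 1) * (36 * ((6 * k + 11) * (6 * k + 7))) * gg (k + 2) := h2
    _ = _ := by ring

lemma gg_pos {m : ℕ} (hm : 2 ≤ m) : 0 < gg m := by
  induction m, hm using Nat.le_induction with
  | base =>
    unfold gg g nC
    rw [Finset.card_pos]
    obtain ⟨G, hG⟩ : ∃ G : SimpleGraph (Fin (2 * 2)), G = ⊤ := ⟨_, rfl⟩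
    refine ⟨G, ?_⟩
    rw [mem_cub]
    intro v
    have : (Finset.univ.filter (fun w : Fin (2 * 2) => G.Adj v w))
        = Finset.univ.erase v := by
      ext w
      simp [hG, eq_comm]
    rw [this, Finset.card_erase_of_mem (Finset.mem_univ _)]
    simp
  | succ m hm ih =>
    have h := gg_rec (show 2 ≤ m + 1 by omega)
    rw [Nat.add_sub_cancel] at h
    have h2 : 0 < (2 * (m + 1) - 1) * m * (3 * (m + 1) - 4) * gg m := by
      have h3 : 0 < 2 * (m + 1) - 1 := by omega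
      have h4 : 0 < m := by omega
      have h5 : 0 < 3 * (m + 1) - 4 := by omega
      positivity
    omega

lemma R_pos {m : ℕ} (hm : 2 ≤ m) : 0 < R m := by
  unfold R
  have := Dr_pos m
  have := gg_pos hm
  positivity

lemma R_lower : ∃ c : ℝ, 0 < c ∧ ∀ m : ℕ, 3 ≤ m → c ≤ (R m) ^ 2 * (m : ℝ) ^ 3 := by
  refine ⟨(R 3) ^ 2 * 3 ^ 3, by have := R_pos (show 2 ≤ 3 by norm_num); positivity, ?_⟩
  intro m hm
  induction m, hm using Nat.le_induction with
  | base => norm_num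
  | succ m hm ih =>
    refine ih.trans ?_
    have h := R_step (show 2 ≤ m + 1 by omega)
    rw [Nat.add_sub_cancel] at h
    push_cast at h
    have hm' : (3 : ℝ) ≤ m := by exact_mod_cast hm
    have h1 : R m * (12 * m * (3 * m - 1)) ≤ R (m + 1) * ((6 * m + 5) * (6 * m + 1)) := by
      calc _ = R m * (12 * ((m : ℝ) + 1 - 1) * (3 * ((m : ℝ) + 1) - 4)) := by ring
        _ ≤ _ := h
        _ = _ := by ring
    have h0 := R_nonneg m
    have h0' := R_nonneg (m + 1)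
    have h2 : (R m * (12 * m * (3 * m - 1))) ^ 2
        ≤ (R (m + 1) * ((6 * m + 5) * (6 * m + 1))) ^ 2 := by
      apply pow_le_pow_left₀ _ h1
      apply mul_nonneg h0
      apply mul_nonneg (by positivity)
      linarith
    -- polynomial inequality
    have h3 : ((6 * (m : ℝ) + 5) * (6 * m + 1)) ^ 2 * (m : ℝ) ^ 3
        ≤ (12 * m * (3 * m - 1)) ^ 2 * ((m : ℝ) + 1) ^ 3 := by
      obtain ⟨x, hx⟩ : ∃ x : ℝ, (m : ℝ) = x + 3 := ⟨m - 3, by ring⟩
      have hx0 : 0 ≤ x := by linarith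
      rw [hx]
      have : (12 * (x + 3) * (3 * (x + 3) - 1)) ^ 2 * ((x + 3) + 1) ^ 3
          - ((6 * (x + 3) + 5) * (6 * (x + 3) + 1)) ^ 2 * (x + 3) ^ 3
          = (x + 3) ^ 2 * (144 * (3 * (x + 3) - 1) ^ 2 * ((x + 3) + 1) ^ 3
            - ((6 * (x + 3) + 5) * (6 * (x + 3) + 1)) ^ 2 * (x + 3)) := by ring
      have h5 : 0 ≤ 144 * (3 * (x + 3) - 1) ^ 2 * ((x + 3) + 1) ^ 3
            - ((6 * (x + 3) + 5) * (6 * (x + 3) + 1)) ^ 2 * (x + 3) := by
        ring_nf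
        positivity
      nlinarith [mul_nonneg (sq_nonneg (x + 3)) h5]
    have hP : 0 < ((6 * (m : ℝ) + 5) * (6 * m + 1)) ^ 2 := by positivity
    have h4 : (R m) ^ 2 * (m : ℝ) ^ 3 * ((6 * (m : ℝ) + 5) * (6 * m + 1)) ^ 2
        ≤ (R (m + 1)) ^ 2 * ((m : ℝ) + 1) ^ 3 * ((6 * (m : ℝ) + 5) * (6 * m + 1)) ^ 2 := by
      calc (R m) ^ 2 * (m : ℝ) ^ 3 * ((6 * (m : ℝ) + 5) * (6 * m + 1)) ^ 2
          = (R m) ^ 2 * (((6 * (m : ℝ) + 5) * (6 * m + 1)) ^ 2 * (m : ℝ) ^ 3) := by ring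
        _ ≤ (R m) ^ 2 * ((12 * m * (3 * m - 1)) ^ 2 * ((m : ℝ) + 1) ^ 3) :=
            mul_le_mul_of_nonneg_left h3 (sq_nonneg _)
        _ = (R m * (12 * m * (3 * m - 1))) ^ 2 * ((m : ℝ) + 1) ^ 3 := by ring
        _ ≤ (R (m + 1) * ((6 * m + 5) * (6 * m + 1))) ^ 2 * ((m : ℝ) + 1) ^ 3 :=
            mul_le_mul_of_nonneg_right h2 (by positivity)
        _ = _ := by ring
    push_cast
    exact le_of_mul_le_mul_right h4 hP

lemma Dr_ratio {m κ : ℕ} (h : κ ≤ m) : Dr m ≤ Dr (m - κ) * (216 * (m : ℝ) ^ 3) ^ κ := by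
  induction κ with
  | zero => simp
  | succ κ ih =>
    have ih' := ih (by omega)
    refine ih'.trans ?_
    have e : m - κ = (m - (κ + 1)) + 1 := by omega
    rw [e, Dr_succ, pow_succ]
    have hp := Dr_pos (m - (κ + 1))
    have hle : ((m - (κ + 1) : ℕ) : ℝ) + 1 ≤ m := by
      have : m - (κ + 1) + 1 ≤ m := by omega
      exact_mod_cast this
    set y : ℝ := ((m - (κ + 1) : ℕ) : ℝ) with hy
    have hy0 : 0 ≤ y := Nat.cast_nonneg _
    have h1 : (6 * y + 5) * (6 * y + 3) * (6 * y + 1) ≤ 216 * (m : ℝ) ^ 3 := by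
      have a1 : 6 * y + 5 ≤ 6 * m := by linarith
      have a2 : 6 * y + 3 ≤ 6 * m := by linarith
      have a3 : 6 * y + 1 ≤ 6 * m := by linarith
      calc (6 * y + 5) * (6 * y + 3) * (6 * y + 1) ≤ (6 * m) * (6 * m) * (6 * m) := by gcongr
        _ = 216 * (m : ℝ) ^ 3 := by ring
    calc Dr (m - (κ + 1)) * ((6 * y + 5) * (6 * y + 3) * (6 * y + 1)) * (216 * (m : ℝ) ^ 3) ^ κ
        ≤ Dr (m - (κ + 1)) * (216 * (m : ℝ) ^ 3) * (216 * (m : ℝ) ^ 3) ^ κ := by gcongr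
      _ = _ := by ring

/-- infinitely often the growth is not too fast -/
lemma special (κ m1 : ℕ) (hκ : 0 < κ) (hm1 : 2 + κ ≤ m1) :
    ∃ m, m1 ≤ m ∧ (gg m : ℝ) ≤ 2 * (6 * (m : ℝ) ^ 3) ^ κ * gg (m - κ) := by
  have hR : ∃ m, m1 ≤ m ∧ R m ≤ 2 * R (m - κ) := by
    by_contra hcon
    push Not at hcon
    have h1 : ∀ j : ℕ, 2 ^ j * R m1 ≤ R (m1 + j * κ) := by
      intro j
      induction j with
      | zero => simp
      | succ j ih =>
        have h2 := hcon (m1 + (j + 1) * κ) (by omega)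
        have h3 : m1 + (j + 1) * κ - κ = m1 + j * κ := by
          rw [add_mul, one_mul]; omega
        rw [h3] at h2
        calc 2 ^ (j + 1) * R m1 = 2 * (2 ^ j * R m1) := by ring
          _ ≤ 2 * R (m1 + j * κ) := by linarith
          _ ≤ R (m1 + (j + 1) * κ) := h2.le
    have hp := R_pos (show 2 ≤ m1 by omega)
    obtain ⟨j, hj⟩ := pow_unbounded_of_one_lt (1 / R m1) (show (1 : ℝ) < 2 by norm_num)
    have h4 := h1 j
    have h5 := R_le_one (m1 + j * κ)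
    rw [div_lt_iff₀ hp] at hj
    linarith
  obtain ⟨m, hm, h⟩ := hR
  refine ⟨m, hm, ?_⟩
  unfold R at h
  have hD := Dr_pos m
  have hD' := Dr_pos (m - κ)
  rw [div_le_iff₀ hD] at h
  have hr := Dr_ratio (show κ ≤ m by omega)
  have e : (36 : ℝ) ^ m = 36 ^ (m - κ) * 36 ^ κ := by
    rw [← pow_add]; congr 1; omega
  rw [e] at h
  have h36 : (0 : ℝ) < 36 ^ (m - κ) * 36 ^ κ := by positivity
  have h1 : (gg m : ℝ) * (36 ^ (m - κ) * 36 ^ κ)
      ≤ (2 * (6 * (m : ℝ) ^ 3) ^ κ * gg (m - κ)) * (36 ^ (m - κ) * 36 ^ κ) := by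
    calc (gg m : ℝ) * (36 ^ (m - κ) * 36 ^ κ)
        ≤ 2 * (gg (m - κ) * 36 ^ (m - κ) / Dr (m - κ)) * Dr m := h
      _ ≤ 2 * (gg (m - κ) * 36 ^ (m - κ) / Dr (m - κ)) *
          (Dr (m - κ) * (216 * (m : ℝ) ^ 3) ^ κ) := by
          apply mul_le_mul_of_nonneg_left hr
          positivity
      _ = 2 * gg (m - κ) * 36 ^ (m - κ) * (216 * (m : ℝ) ^ 3) ^ κ := by
          field_simp
      _ = _ := by
          rw [show (216 * (m : ℝ) ^ 3) = (6 * (m : ℝ) ^ 3) * 36 by ring, mul_pow]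
          ring
  exact le_of_mul_le_mul_right h1 h36

lemma gg_lower {m : ℕ} (hm : 2 ≤ m) : (m : ℝ) ^ 3 / 2 * gg (m - 1) ≤ gg m := by
  have h := gg_rec hm
  obtain ⟨k, rfl⟩ : ∃ k, m = k + 2 := ⟨m - 2, by omega⟩
  have e5 : 2 * (k + 2) - 1 = 2 * k + 3 := by omega
  have e6 : k + 2 - 1 = k + 1 := by omega
  have e7 : 3 * (k + 2) - 4 = 3 * k + 2 := by omega
  rw [e5, e6, e7] at h
  have h' : ((2 * k + 3) * (k + 1) * (3 * k + 2) * (gg (k + 1) : ℝ)) ≤ gg (k + 2) := by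
    exact_mod_cast h
  refine le_trans ?_ h'
  rw [e6]
  apply mul_le_mul_of_nonneg_right _ (Nat.cast_nonneg _)
  push_cast
  have hk : (0 : ℝ) ≤ k := Nat.cast_nonneg _
  nlinarith [mul_nonneg hk hk, mul_nonneg (mul_nonneg hk hk) hk]

end H994K
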