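import Pool.Agent.H994R2.K.Insert

/-! The template: a 4-cycle with four binary trees attached (heap indexing). -/

open scoped Classical

namespace H994K

/-- adjacency in the template: `(x, 0)` are the vertices of the 4-cycle, `(x, n)` with `1 ≤ n < 2M`
the vertices of the binary tree at `x` -/
def tAdj (M : ℕ) (w w' : (Bool × Bool) × Fin (2 * M)) : Prop :=
  (w.2.val = 0 ∧ w'.2.val = 0 ∧
    ((w.1.1 = w'.1.1 ∧ w.1.2 ≠ w'.1.2) ∨ (w.1.1 ≠ w'.1.1 ∧ w.1.2 = w'.1.2))) ∨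
  (w.1 = w'.1 ∧ ((w.2.val ≠ 0 ∧ w'.2.val = w.2.val / 2) ∨
    (w'.2.val ≠ 0 ∧ w.2.val = w'.2.val / 2)))

/-- the template -/
def T (M : ℕ) : SimpleGraph ((Bool × Bool) × Fin (2 * M)) where
  Adj := tAdj M
  symm := by
    constructor
    rintro w w' (⟨h1, h2, h3⟩ | ⟨h1, h2⟩)
    · refine Or.inl ⟨h2, h1, ?_⟩
      rcases h3 with ⟨h3, h4⟩ | ⟨h3, h4⟩
      · exact Or.inl ⟨h3.symm, h4.symm⟩
      · exact Or.inr ⟨h3.symm, h4.symm⟩
    · exact Or.inr ⟨h1.symm, h2.symm⟩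
  loopless := by
    constructor
    rintro w (⟨_, _, h3⟩ | ⟨_, h2⟩)
    · rcases h3 with ⟨_, h4⟩ | ⟨h4, _⟩
      · exact h4 rfl
      · exact h4 rfl
    · rcases h2 with ⟨h, h'⟩ | ⟨h, h'⟩ <;> omega

lemma T_adj {M : ℕ} {w w' : (Bool × Bool) × Fin (2 * M)} : (T M).Adj w w' ↔
  (w.2.val = 0 ∧ w'.2.val = 0 ∧
    ((w.1.1 = w'.1.1 ∧ w.1.2 ≠ w'.1.2) ∨ (w.1.1 ≠ w'.1.1 ∧ w.1.2 = w'.1.2))) ∨
  (w.1 = w'.1 ∧ ((w.2.val ≠ 0 ∧ w'.2.val = w.2.val / 2) ∨
    (w'.2.val ≠ 0 ∧ w.2.val = w'.2.val / 2))) := Iff.rfl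

section
variable {M : ℕ}

lemma T_nbr_zero (hM : 1 ≤ M) (w : (Bool × Bool) × Fin (2 * M)) (h : w.2.val = 0) :
    Finset.univ.filter (fun w' => (T M).Adj w w')
      = {((w.1.1, !w.1.2), ⟨0, by omega⟩), ((!w.1.1, w.1.2), ⟨0, by omega⟩),
        (w.1, ⟨1, by omega⟩)} := by
  obtain ⟨⟨a, b⟩, n, hn⟩ := w
  simp only at h
  ext ⟨⟨a', b'⟩, n', hn'⟩
  rw [Finset.mem_filter, T_adj]
  simp only [Finset.mem_insert, Finset.mem_univ, true_and,
    Finset.mem_singleton, Prod.mk.injEq, Fin.mk.injEq]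
  constructor
  · rintro (⟨_, h2, h3⟩ | ⟨⟨h1, h1'⟩, h2⟩)
    · rcases h3 with ⟨h3, h4⟩ | ⟨h3, h4⟩
      · left
        refine ⟨⟨h3.symm, ?_⟩, h2⟩
        cases b <;> cases b' <;> simp_all
      · right; left
        refine ⟨⟨?_, h4.symm⟩, h2⟩
        cases a <;> cases a' <;> simp_all
    · right; right
      refine ⟨⟨h1.symm, h1'.symm⟩, ?_⟩
      omega
  · rintro (⟨⟨h1, h2⟩, h3⟩ | ⟨⟨h1, h2⟩, h3⟩ | ⟨⟨h1, h2⟩, h3⟩)
    · left
      refine ⟨h, h3, Or.inl ⟨h1.symm, ?_⟩⟩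
      rw [h2]
      cases b <;> simp
    · left
      refine ⟨h, h3, Or.inr ⟨?_, h2.symm⟩⟩
      rw [h1]
      cases a <;> simp
    · right
      refine ⟨⟨h1.symm, h2.symm⟩, ?_⟩
      omega

lemma T_nbr_mid (w : (Bool × Bool) × Fin (2 * M)) (h : w.2.val ≠ 0)
    (h' : w.2.val < M) :
    Finset.univ.filter (fun w' => (T M).Adj w w')
      = {(w.1, ⟨w.2.val / 2, by omega⟩), (w.1, ⟨2 * w.2.val, by omega⟩),
        (w.1, ⟨2 * w.2.val + 1, by omega⟩)} := by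
  obtain ⟨x, n, hn⟩ := w
  simp only at h h'
  ext ⟨x', n', hn'⟩
  simp only [Finset.mem_filter, Finset.mem_univ, true_and, Finset.mem_insert,
    Finset.mem_singleton, T_adj, Prod.mk.injEq, Fin.mk.injEq]
  constructor
  · rintro (⟨h0, _, _⟩ | ⟨h1, h2⟩)
    · exact absurd h0 h
    · rcases h2 with ⟨_, h3⟩ | ⟨h3, h4⟩
      · exact Or.inl ⟨h1.symm, h3⟩
      · right
        have : n' = 2 * n ∨ n' = 2 * n + 1 := by omega
        rcases this with h5 | h5
        · exact Or.inl ⟨h1.symm, h5⟩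
        · exact Or.inr ⟨h1.symm, h5⟩
  · rintro (⟨h1, h2⟩ | ⟨h1, h2⟩ | ⟨h1, h2⟩)
    · exact Or.inr ⟨h1.symm, Or.inl ⟨h, h2⟩⟩
    · exact Or.inr ⟨h1.symm, Or.inr ⟨by omega, by omega⟩⟩
    · exact Or.inr ⟨h1.symm, Or.inr ⟨by omega, by omega⟩⟩

lemma T_nbr_leaf (hM : 1 ≤ M) (w : (Bool × Bool) × Fin (2 * M)) (h : M ≤ w.2.val) :
    Finset.univ.filter (fun w' => (T M).Adj w w')
      = {(w.1, ⟨w.2.val / 2, by omega⟩)} := by
  obtain ⟨x, n, hn⟩ := w
  simp only at h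
  ext ⟨x', n', hn'⟩
  simp only [Finset.mem_filter, Finset.mem_univ, true_and,
    Finset.mem_singleton, T_adj, Prod.mk.injEq, Fin.mk.injEq]
  constructor
  · rintro (⟨h0, _, _⟩ | ⟨h1, h2⟩)
    · omega
    · rcases h2 with ⟨_, h3⟩ | ⟨h3, h4⟩
      · exact ⟨h1.symm, h3⟩
      · omega
  · rintro ⟨h1, h2⟩
    exact Or.inr ⟨h1.symm, Or.inl ⟨by omega, h2⟩⟩

lemma T_sum_zero (hM : 1 ≤ M) (w : (Bool × Bool) × Fin (2 * M)) (h : w.2.val = 0)
    {A : Type*} [AddCommMonoid A] (f : Bool × Bool → ℕ → A) :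
    ∑ w' ∈ Finset.univ.filter (fun w' => (T M).Adj w w'), f w'.1 w'.2.val
      = f (w.1.1, !w.1.2) 0 + (f (!w.1.1, w.1.2) 0 + f w.1 1) := by
  rw [T_nbr_zero hM w h, Finset.sum_insert, Finset.sum_insert, Finset.sum_singleton]
  · simp
  · obtain ⟨⟨a, b⟩, n⟩ := w
    cases a <;> cases b <;> simp

lemma T_sum_mid (w : (Bool × Bool) × Fin (2 * M)) (h : w.2.val ≠ 0) (h' : w.2.val < M)
    {A : Type*} [AddCommMonoid A] (f : Bool × Bool → ℕ → A) :
    ∑ w' ∈ Finset.univ.filter (fun w' => (T M).Adj w w'), f w'.1 w'.2.val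
      = f w.1 (w.2.val / 2) + (f w.1 (2 * w.2.val) + f w.1 (2 * w.2.val + 1)) := by
  rw [T_nbr_mid w h h', Finset.sum_insert, Finset.sum_insert, Finset.sum_singleton]
  · simp
  · simp
    omega

lemma T_sum_leaf (hM : 1 ≤ M) (w : (Bool × Bool) × Fin (2 * M)) (h : M ≤ w.2.val)
    {A : Type*} [AddCommMonoid A] (f : Bool × Bool → ℕ → A) :
    ∑ w' ∈ Finset.univ.filter (fun w' => (T M).Adj w w'), f w'.1 w'.2.val
      = f w.1 (w.2.val / 2) := by
  rw [T_nbr_leaf hM w h, Finset.sum_singleton]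

lemma T_deg_leaf (hM : 1 ≤ M) (w : (Bool × Bool) × Fin (2 * M)) (h : M ≤ w.2.val) :
    (Finset.univ.filter (fun w' => (T M).Adj w w')).card = 1 := by
  rw [T_nbr_leaf hM w h, Finset.card_singleton]

lemma T_deg_inner (hM : 1 ≤ M) (w : (Bool × Bool) × Fin (2 * M)) (h : ¬ M ≤ w.2.val) :
    (Finset.univ.filter (fun w' => (T M).Adj w w')).card = 3 := by
  by_cases h0 : w.2.val = 0
  · have := T_sum_zero hM w h0 (fun _ _ => 1)
    rw [Finset.card_eq_sum_ones, this]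
    norm_num
  · have := T_sum_mid w h0 (by omega) (fun _ _ => 1)
    rw [Finset.card_eq_sum_ones, this]
    norm_num

/-- the leaves -/
def Lf (M : ℕ) : Set ((Bool × Bool) × Fin (2 * M)) := {w | M ≤ w.2.val}

lemma card_W (M : ℕ) : Fintype.card ((Bool × Bool) × Fin (2 * M)) = 8 * M := by
  rw [Fintype.card_prod, Fintype.card_prod, Fintype.card_bool, Fintype.card_fin]
  ring

lemma card_Lf (M : ℕ) : Fintype.card (Lf M) = 4 * M := by
  have e : (Bool × Bool) × Fin M ≃ Lf M :=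
    { toFun := fun w => ⟨(w.1, ⟨M + w.2.val, by omega⟩), by simp [Lf]⟩
      invFun := fun w => (w.1.1, ⟨w.1.2.val - M, by
        have := w.1.2.2
        have h2 : M ≤ w.1.2.val := w.2
        omega⟩)
      left_inv := by
        rintro ⟨x, n⟩
        simp
      right_inv := by
        rintro ⟨⟨x, n, hn⟩, h⟩
        have h2 : M ≤ n := h
        apply Subtype.ext
        apply Prod.ext
        · rfl
        · apply Fin.ext
          change M + (n - M) = n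
          omega }
  rw [← Fintype.card_congr e, Fintype.card_prod, Fintype.card_prod, Fintype.card_bool,
    Fintype.card_fin]

end

section Copy
variable {V W : Type*} [Fintype V] [Fintype W] {G : SimpleGraph V} {F : SimpleGraph W}

/-- neighbours of a vertex of an induced copy -/
lemma nbr_decomp {τ : W ↪ V} (hτ : Ind F G τ) (w : W) {A : Type*} [AddCommMonoid A] (f : V → A) :
    ∑ v ∈ Finset.univ.filter (fun v => G.Adj (τ w) v), f v
      = ∑ w' ∈ Finset.univ.filter (fun w' => F.Adj w w'), f (τ w')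
        + ∑ v ∈ Finset.univ.filter (fun v => G.Adj (τ w) v ∧ v ∉ Set.range τ), f v := by
  rw [← Finset.sum_filter_add_sum_filter_not (Finset.univ.filter (fun v => G.Adj (τ w) v))
    (fun v => v ∈ Set.range τ), Finset.filter_filter, Finset.filter_filter]
  congr 1
  have : Finset.univ.filter (fun v => G.Adj (τ w) v ∧ v ∈ Set.range τ)
      = (Finset.univ.filter (fun w' => F.Adj w w')).map τ := by
    ext v
    simp only [Finset.mem_filter, Finset.mem_univ, true_and, Finset.mem_map, Set.mem_range]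
    constructor
    · rintro ⟨h1, w', rfl⟩
      exact ⟨w', (hτ w w').mp h1, rfl⟩
    · rintro ⟨w', h1, rfl⟩
      exact ⟨(hτ w w').mpr h1, w', rfl⟩
  rw [this, Finset.sum_map]

lemma outer_card (hG : Cubic G) {τ : W ↪ V} (hτ : Ind F G τ) (w : W) :
    (Finset.univ.filter (fun w' => F.Adj w w')).card
      + (Finset.univ.filter (fun v => G.Adj (τ w) v ∧ v ∉ Set.range τ)).card = 3 := by
  have h := nbr_decomp hτ w (fun _ => 1)
  rw [← Finset.card_eq_sum_ones, ← Finset.card_eq_sum_ones, ← Finset.card_eq_sum_ones, hG] at h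
  exact h.symm

end Copy

end H994K
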