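import Pool.Agent.H994R2.K.Analysis
import Pool.Agent.H994R2.K.Angles
import Pool.Agent.H994R2.K.Tmpl

/-! An induced copy of the template in a cubic expander gives a nonconstant local minimum. -/

open scoped Classical

namespace H994K

lemma size_half {n : ℕ} (h : n ≠ 0) : Nat.size n = Nat.size (n / 2) + 1 := by
  have h1 : Nat.bit (n.bodd) n.div2 = n := Nat.bit_bodd_div2 n
  have h2 : n.div2 = n / 2 := Nat.div2_val n
  rw [h2] at h1
  have h3 : Nat.bit n.bodd (n / 2) ≠ 0 := by rw [h1]; exact h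
  have h4 := Nat.size_bit h3
  rw [h1] at h4
  exact h4

lemma size_two_mul {n : ℕ} (h : n ≠ 0) : Nat.size (2 * n) = Nat.size n + 1 := by
  have h1 := size_half (n := 2 * n) (by omega)
  rw [show 2 * n / 2 = n by omega] at h1
  exact h1

lemma size_two_mul_add {n : ℕ} : Nat.size (2 * n + 1) = Nat.size n + 1 := by
  have h1 := size_half (n := 2 * n + 1) (by omega)
  rw [show (2 * n + 1) / 2 = n by omega] at h1
  exact h1

/-- sign of a side -/
noncomputable def sg (b : Bool) : ℝ := if b then -1 else 1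

lemma sg_not (b : Bool) : sg (!b) = - sg b := by cases b <;> simp [sg]

lemma sin_sg (b : Bool) (y : ℝ) : Real.sin (sg b * y) = sg b * Real.sin y := by
  cases b <;> simp [sg]

lemma cos_sg (b : Bool) (y : ℝ) : Real.cos (sg b * y) = Real.cos y := by
  cases b <;> simp [sg]

section
variable {V : Type*} [Fintype V] {G : SimpleGraph V} {q : ℕ}

/-- the angles -/
noncomputable def ang (a : ℕ → ℝ) (τ : (Bool × Bool) × Fin (2 * 2 ^ q) ↪ V) : V → ℝ :=
  Function.extend τ (fun w => sg w.1.1 * a (Nat.size w.2.val)) 0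

lemma ang_in (a : ℕ → ℝ) (τ : (Bool × Bool) × Fin (2 * 2 ^ q) ↪ V)
    (w : (Bool × Bool) × Fin (2 * 2 ^ q)) : ang a τ (τ w) = sg w.1.1 * a (Nat.size w.2.val) :=
  τ.injective.extend_apply _ _ w

lemma ang_out (a : ℕ → ℝ) (τ : (Bool × Bool) × Fin (2 * 2 ^ q) ↪ V) {v : V}
    (hv : v ∉ Set.range τ) : ang a τ v = 0 := by
  unfold ang
  rw [Function.extend_apply' _ _ _ (fun h => hv h)]
  rfl

lemma leaf_of_outer (hG : Cubic G) {τ : (Bool × Bool) × Fin (2 * 2 ^ q) ↪ V}
    (hτ : Ind (T (2 ^ q)) G τ) {w : (Bool × Bool) × Fin (2 * 2 ^ q)} {v : V}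
    (hv : v ∉ Set.range τ) (h : G.Adj (τ w) v) : 2 ^ q ≤ w.2.val := by
  by_contra hcon
  have h1 := outer_card hG hτ w
  rw [T_deg_inner Nat.one_le_two_pow w hcon] at h1
  have h2 : (Finset.univ.filter (fun v => G.Adj (τ w) v ∧ v ∉ Set.range τ)).card = 0 := by omega
  rw [Finset.card_eq_zero, Finset.filter_eq_empty_iff] at h2
  exact h2 (Finset.mem_univ v) ⟨h, hv⟩

lemma size_leaf {w : (Bool × Bool) × Fin (2 * 2 ^ q)} (h : 2 ^ q ≤ w.2.val) :
    Nat.size w.2.val = q + 1 := by
  apply le_antisymm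
  · rw [Nat.size_le, pow_succ]
    have := w.2.2
    omega
  · exact Nat.lt_size.mpr h

lemma size_inner {w : (Bool × Bool) × Fin (2 * 2 ^ q)} (h : ¬ 2 ^ q ≤ w.2.val) :
    Nat.size w.2.val < q + 1 := by
  rw [Nat.lt_succ_iff, Nat.size_le]
  omega

lemma outer_sum (hG : Cubic G) {τ : (Bool × Bool) × Fin (2 * 2 ^ q) ↪ V}
    (hτ : Ind (T (2 ^ q)) G τ) (w : (Bool × Bool) × Fin (2 * 2 ^ q)) (a : ℕ → ℝ) :
    ∑ v ∈ Finset.univ.filter (fun v => G.Adj (τ w) v ∧ v ∉ Set.range τ),
      Real.sin (ang a τ (τ w) - ang a τ v)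
      = (if 2 ^ q ≤ w.2.val then 2 else 0) * Real.sin (ang a τ (τ w)) := by
  have h1 : ∀ v ∈ Finset.univ.filter (fun v => G.Adj (τ w) v ∧ v ∉ Set.range τ),
      Real.sin (ang a τ (τ w) - ang a τ v) = Real.sin (ang a τ (τ w)) := by
    intro v hv
    rw [Finset.mem_filter] at hv
    rw [ang_out a τ hv.2.2, sub_zero]
  rw [Finset.sum_congr rfl h1, Finset.sum_const, nsmul_eq_mul]
  congr 1
  have h2 := outer_card hG hτ w
  split_ifs with h
  · rw [T_deg_leaf Nat.one_le_two_pow w h] at h2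
    have : (Finset.univ.filter (fun v => G.Adj (τ w) v ∧ v ∉ Set.range τ)).card = 2 := by omega
    rw [this]
    norm_num
  · rw [T_deg_inner Nat.one_le_two_pow w h] at h2
    have : (Finset.univ.filter (fun v => G.Adj (τ w) v ∧ v ∉ Set.range τ)).card = 0 := by omega
    rw [this]
    norm_num

lemma resid_in (hG : Cubic G) {τ : (Bool × Bool) × Fin (2 * 2 ^ q) ↪ V}
    (hτ : Ind (T (2 ^ q)) G τ) {a : ℕ → ℝ} (ha0 : a (q + 1 + 1) = 0)
    (ha1 : Real.sin (2 * a 0) + Real.sin (a 0 - a 1) = 0)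
    (ha2 : ∀ j < q + 1, Real.sin (a (j + 1) - a j) + 2 * Real.sin (a (j + 1) - a (j + 2)) = 0)
    (w : (Bool × Bool) × Fin (2 * 2 ^ q)) :
    ∑ v ∈ Finset.univ.filter (fun v => G.Adj (τ w) v), Real.sin (ang a τ (τ w) - ang a τ v) = 0 := by
  rw [nbr_decomp hτ w, outer_sum hG hτ w a]
  simp only [ang_in]
  obtain ⟨f, hf⟩ : ∃ f : Bool × Bool → ℕ → ℝ, f = fun x n =>
        Real.sin (sg w.1.1 * a (Nat.size w.2.val) - sg x.1 * a (Nat.size n)) := ⟨_, rfl⟩
  have hsum : ∑ w' ∈ Finset.univ.filter (fun w' => (T (2 ^ q)).Adj w w'),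
      Real.sin (sg w.1.1 * a (Nat.size w.2.val) - sg w'.1.1 * a (Nat.size w'.2.val))
      = ∑ w' ∈ Finset.univ.filter (fun w' => (T (2 ^ q)).Adj w w'), f w'.1 w'.2.val := by
    rw [hf]
  rw [hsum]
  by_cases hleaf : 2 ^ q ≤ w.2.val
  · rw [T_sum_leaf Nat.one_le_two_pow w hleaf, if_pos hleaf, hf]
    have h0 : w.2.val ≠ 0 := by
      have : 0 < 2 ^ q := by positivity
      omega
    have hs := size_leaf hleaf
    have hs2 := size_half h0
    have hs3 : Nat.size (w.2.val / 2) = q := by omega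
    simp only [hs, hs3]
    have h1 := ha2 q (by omega)
    rw [show q + 2 = q + 1 + 1 by ring, ha0, sub_zero] at h1
    rw [← mul_sub, sin_sg, sin_sg]
    linear_combination sg w.1.1 * h1
  · rw [if_neg hleaf]
    by_cases h0 : w.2.val = 0
    · rw [T_sum_zero Nat.one_le_two_pow w h0, hf]
      simp only [h0, Nat.size_zero, Nat.size_one]
      rw [sg_not, sub_self, Real.sin_zero,
        show sg w.1.1 * a 0 - -sg w.1.1 * a 0 = sg w.1.1 * (2 * a 0) by ring, ← mul_sub,
        sin_sg, sin_sg]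
      linear_combination sg w.1.1 * ha1
    · rw [T_sum_mid w h0 (by omega), hf]
      have hs2 := size_half h0
      have hs3 := size_two_mul h0
      have hs4 := size_two_mul_add (n := w.2.val)
      have hs5 := size_inner hleaf
      have h1 := ha2 (Nat.size (w.2.val / 2)) (by omega)
      simp only [hs3, hs4, hs2]
      rw [← mul_sub, ← mul_sub, sin_sg, sin_sg]
      linear_combination sg w.1.1 * h1

lemma cos_edge (hG : Cubic G) {τ : (Bool × Bool) × Fin (2 * 2 ^ q) ↪ V}
    (hτ : Ind (T (2 ^ q)) G τ) {a : ℕ → ℝ} (ha0 : a (q + 1 + 1) = 0)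
    (ha3 : 99 / 1000 ≤ Real.cos (2 * a 0))
    (ha4 : ∀ j ≤ q + 1, 99 / 1000 ≤ Real.cos (a j - a (j + 1))) (u v : V) (huv : G.Adj u v) :
    99 / 1000 ≤ Real.cos (ang a τ u - ang a τ v) := by
  -- one endpoint in the range
  have key : ∀ w v, G.Adj (τ w) v → 99 / 1000 ≤ Real.cos (ang a τ (τ w) - ang a τ v) := by
    intro w v h
    by_cases hv : v ∈ Set.range τ
    · obtain ⟨w', rfl⟩ := hv
      have hT := (hτ w w').mp h
      rw [ang_in, ang_in]
      have tree : ∀ w w' : (Bool × Bool) × Fin (2 * 2 ^ q), w.1 = w'.1 → w.2.val ≠ 0 →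
          w'.2.val = w.2.val / 2 → 99 / 1000 ≤ Real.cos (sg w.1.1 * a (Nat.size w.2.val)
            - sg w'.1.1 * a (Nat.size w'.2.val)) := by
        intro w w' h1 h2 h3
        rw [← h1, h3, size_half h2, ← mul_sub, cos_sg, ← Real.cos_neg, neg_sub]
        apply ha4
        have h4 : Nat.size w.2.val ≤ q + 1 := by
          rw [Nat.size_le, pow_succ]
          have := w.2.2
          omega
        have h5 := size_half h2
        omega
      rcases hT with ⟨h1, h2, h3⟩ | ⟨h1, h2⟩
      · rw [h1, h2]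
        rcases h3 with ⟨h3, _⟩ | ⟨h3, _⟩
        · rw [h3, sub_self, Real.cos_zero]
          norm_num
        · have : w'.1.1 = !w.1.1 := by
            cases h4 : w.1.1 <;> cases h5 : w'.1.1 <;> simp_all
          rw [this, sg_not, Nat.size_zero,
            show sg w.1.1 * a 0 - -sg w.1.1 * a 0 = sg w.1.1 * (2 * a 0) by ring, cos_sg]
          exact ha3
      · rcases h2 with ⟨h2, h3⟩ | ⟨h2, h3⟩
        · exact tree w w' h1 h2 h3
        · have := tree w' w h1.symm h2 h3
          rw [← Real.cos_neg, neg_sub] at this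
          exact this
    · have hleaf := leaf_of_outer hG hτ hv h
      rw [ang_out a τ hv, sub_zero, ang_in, cos_sg, size_leaf hleaf]
      have := ha4 (q + 1) le_rfl
      rw [ha0, sub_zero] at this
      exact this
  by_cases hu : u ∈ Set.range τ
  · obtain ⟨w, rfl⟩ := hu
    exact key w v huv
  · by_cases hv : v ∈ Set.range τ
    · obtain ⟨w, rfl⟩ := hv
      have := key w u huv.symm
      rw [← Real.cos_neg, neg_sub] at this
      exact this
    · rw [ang_out a τ hu, ang_out a τ hv, sub_zero, Real.cos_zero]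
      norm_num

end

/-- the local minimum -/
theorem nonsync_of_copy {V : Type*} [Fintype V] {G : SimpleGraph V} (hG : Cubic G)
    (hE : Expander G) {q : ℕ} (hq : 64 ≤ q) (τ : (Bool × Bool) × Fin (2 * 2 ^ q) ↪ V)
    (hτ : Ind (T (2 ^ q)) G τ) :
    ∃ θ' : V → ℝ, IsLocalMin (energy G) θ' ∧
      ∃ u v, ¬ ∃ k : ℤ, θ' u - θ' v = 2 * Real.pi * (k : ℝ) := by
  obtain ⟨a, ha0, ha1, ha2, ha3, ha4, ha5, ha6⟩ := exists_angles (q + 1) (by omega)
  have hpos : 0 < 2 * 2 ^ q := by positivity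
  let u := τ ((false, false), ⟨0, hpos⟩)
  let v := τ ((true, false), ⟨0, hpos⟩)
  have : Nonempty V := ⟨u⟩
  have hcosE := fun i j h => cos_edge hG hτ ha0 ha3 ha4 i j h
  have huv : Real.cos (ang a τ u - ang a τ v) < 1 - 1 / 800 := by
    simp only [u, v, ang_in, Nat.size_zero, sg]
    simp only [Bool.false_eq_true, if_false, if_true]
    rw [show (1 : ℝ) * a 0 - -1 * a 0 = 2 * a 0 by ring]
    exact ha6
  -- residuals
  set Bd : Finset V := (Finset.univ.filter (fun w : (Bool × Bool) × Fin (2 * 2 ^ q) =>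
    w ∈ Lf (2 ^ q))).biUnion (fun w => Finset.univ.filter
      (fun v => G.Adj (τ w) v ∧ v ∉ Set.range τ)) with hBd
  have hBdc : Bd.card ≤ 8 * 2 ^ q := by
    refine Finset.card_biUnion_le.trans ?_
    have h1 : ∀ w ∈ Finset.univ.filter (fun w : (Bool × Bool) × Fin (2 * 2 ^ q) =>
        w ∈ Lf (2 ^ q)), (Finset.univ.filter
        (fun v => G.Adj (τ w) v ∧ v ∉ Set.range τ)).card = 2 := by
      intro w hw
      rw [Finset.mem_filter] at hw
      have h2 := outer_card hG hτ w
      rw [T_deg_leaf Nat.one_le_two_pow w hw.2] at h2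
      omega
    rw [Finset.sum_congr rfl h1, Finset.sum_const, smul_eq_mul]
    have h3 := card_Lf (2 ^ q)
    rw [Fintype.card_subtype] at h3
    have h4 : (Finset.univ.filter (fun w : (Bool × Bool) × Fin (2 * 2 ^ q) =>
        w ∈ Lf (2 ^ q))).card = 4 * 2 ^ q := by
      rw [← h3]
    rw [h4]
    omega
  have hres : ∀ i, (∑ j, if G.Adj i j then Real.sin (ang a τ i - ang a τ j) else 0) ^ 2
      ≤ if i ∈ Bd then 9 * (1 / 2 ^ (q + 1)) ^ 2 else 0 := by
    intro i
    rw [← Finset.sum_filter]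
    by_cases hi : i ∈ Set.range τ
    · obtain ⟨w, rfl⟩ := hi
      rw [resid_in hG hτ ha0 ha1 ha2 w, zero_pow two_ne_zero]
      split_ifs <;> positivity
    · have hterm : ∀ j ∈ Finset.univ.filter (fun j => G.Adj i j),
          |Real.sin (ang a τ i - ang a τ j)| ≤ if i ∈ Bd then 1 / 2 ^ (q + 1) else 0 := by
        intro j hj
        rw [Finset.mem_filter] at hj
        rw [ang_out a τ hi, zero_sub, Real.sin_neg, abs_neg]
        by_cases hjr : j ∈ Set.range τ
        · obtain ⟨w, rfl⟩ := hjr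
          have hleaf := leaf_of_outer hG hτ hi hj.2.symm
          have hmem : i ∈ Bd := by
            rw [hBd, Finset.mem_biUnion]
            refine ⟨w, ?_, ?_⟩
            · rw [Finset.mem_filter]
              exact ⟨Finset.mem_univ _, hleaf⟩
            · rw [Finset.mem_filter]
              exact ⟨Finset.mem_univ _, hj.2.symm, hi⟩
          rw [if_pos hmem, ang_in, sin_sg, abs_mul, size_leaf hleaf]
          have : |sg w.1.1| = 1 := by cases w.1.1 <;> simp [sg]
          rw [this, one_mul]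
          exact ha5
        · rw [ang_out a τ hjr, Real.sin_zero, abs_zero]
          split_ifs <;> positivity
      have hb : |∑ j ∈ Finset.univ.filter (fun j => G.Adj i j),
          Real.sin (ang a τ i - ang a τ j)| ≤ 3 * (if i ∈ Bd then 1 / 2 ^ (q + 1) else 0) := by
        refine (Finset.abs_sum_le_sum_abs _ _).trans ?_
        refine (Finset.sum_le_sum hterm).trans ?_
        rw [Finset.sum_const, hG i, nsmul_eq_mul]
        norm_num
      rw [← sq_abs]
      split_ifs at hb ⊢ with hm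
      · calc _ ≤ (3 * (1 / 2 ^ (q + 1) : ℝ)) ^ 2 := pow_le_pow_left₀ (abs_nonneg _) hb 2
          _ = _ := by ring
      · have : |∑ j ∈ Finset.univ.filter (fun j => G.Adj i j),
          Real.sin (ang a τ i - ang a τ j)| = 0 := le_antisymm (by linarith) (abs_nonneg _)
        rw [this]
        norm_num
  have hr : ∑ i, (∑ j, if G.Adj i j then Real.sin (ang a τ i - ang a τ j) else 0) ^ 2
      < (1 / 480000000) ^ 2 := by
    refine (Finset.sum_le_sum (fun i _ => hres i)).trans_lt ?_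
    rw [← Finset.sum_filter, Finset.sum_const, nsmul_eq_mul]
    have h1 : (Finset.univ.filter (fun i => i ∈ Bd)).card ≤ 8 * 2 ^ q := by
      have : Finset.univ.filter (fun i => i ∈ Bd) = Bd := by ext; simp
      rw [this]
      exact hBdc
    have h2 : ((Finset.univ.filter (fun i => i ∈ Bd)).card : ℝ) ≤ 8 * 2 ^ q := by
      exact_mod_cast h1
    calc ((Finset.univ.filter (fun i => i ∈ Bd)).card : ℝ) * (9 * (1 / 2 ^ (q + 1)) ^ 2)
        ≤ (8 * 2 ^ q) * (9 * (1 / 2 ^ (q + 1)) ^ 2) := by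
          apply mul_le_mul_of_nonneg_right h2 (by positivity)
      _ = 18 / 2 ^ q := by
          rw [pow_succ (2 : ℝ) q]
          field_simp
          norm_num
      _ ≤ 18 / 2 ^ 64 := by
          apply div_le_div_of_nonneg_left (by norm_num) (by positivity)
          exact pow_le_pow_right₀ (by norm_num) hq
      _ < _ := by norm_num
  obtain ⟨θ', h1, h2⟩ := nonsync_of_approx hG hE (ang a τ) hcosE hr u v huv
  exact ⟨θ', h1, u, v, h2⟩

end H994K
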