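import Pool.Agent.H994R2.K.Good
import Pool.Agent.H994R2.K.Growth

/-! First and second moments of the number of good 4-cycles. -/

open scoped Classical

namespace H994K

section
variable {V : Type*} [Fintype V] {G : SimpleGraph V} {q : ℕ}

/-- number of good 4-cycles -/
noncomputable def Yc (q : ℕ) (G : SimpleGraph V) : ℕ :=
  (Finset.univ.filter (fun c : Bool × Bool ↪ V => good q G c)).card

/-- number of removable pairs of 4-cycles -/
noncomputable def Zc (G : SimpleGraph V) : ℕ :=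
  (Finset.univ.filter (fun c2 : (Bool × Bool) × Bool ↪ V => RemP F2 G c2)).card

lemma near_card (S : Finset (Bool × Bool ↪ V)) :
    ((S ×ˢ S).filter (fun p => ∀ x, p.2 x ∈ Set.range p.1)).card ≤ 256 * S.card := by
  have h1 : (S ×ˢ (Finset.univ : Finset (Bool × Bool → Bool × Bool))).card = 256 * S.card := by
    rw [Finset.card_product, Finset.card_univ, Fintype.card_fun, Fintype.card_prod,
      Fintype.card_bool, mul_comm]
    norm_num
  rw [← h1]
  apply Finset.card_le_card_of_injOn (fun p => (p.1, fun x => Function.invFun p.1 (p.2 x)))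
  · intro p hp
    rw [Finset.mem_coe, Finset.mem_filter, Finset.mem_product] at hp
    rw [Finset.mem_coe, Finset.mem_product]
    exact ⟨hp.1.1, Finset.mem_univ _⟩
  · intro p hp p' hp' h
    rw [Finset.mem_coe, Finset.mem_filter, Finset.mem_product] at hp hp'
    obtain ⟨h1, h2⟩ := Prod.mk.injEq .. ▸ h
    apply Prod.ext h1
    apply Function.Embedding.ext
    intro x
    have e1 := Function.invFun_eq (hp.2 x)
    have e2 := Function.invFun_eq (hp'.2 x)
    have e3 : Function.invFun p.1 (p.2 x) = Function.invFun p'.1 (p'.2 x) := congrFun h2 x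
    rw [← e1, ← e2, e3, h1]

lemma Y_sq (hq : 3 ≤ q) (hG : Cubic G) : Yc q G ^ 2 ≤ 256 * Yc q G + Zc G := by
  set S := Finset.univ.filter (fun c : Bool × Bool ↪ V => good q G c) with hS
  have hY : Yc q G = S.card := rfl
  rw [hY, sq, ← Finset.card_product,
    ← Finset.card_filter_add_card_filter_not (s := S ×ˢ S) (fun p => ∀ x, p.2 x ∈ Set.range p.1)]
  apply Nat.add_le_add (near_card S)
  have hex : ∀ p ∈ (S ×ˢ S).filter (fun p => ¬ ∀ x, p.2 x ∈ Set.range p.1),
      ∃ c2 : (Bool × Bool) × Bool ↪ V, (∃ o, Rem F2 G c2 o) ∧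
      (∀ a b, c2 ((false, a), b) = p.1 (a, b)) ∧ (∀ a b, c2 ((true, a), b) = p.2 (a, b)) := by
    intro p hp
    rw [Finset.mem_filter, Finset.mem_product, hS, Finset.mem_filter, Finset.mem_filter] at hp
    obtain ⟨⟨⟨_, τ, hτ, hc⟩, ⟨_, τ', hτ', hc'⟩⟩, hnear⟩ := hp
    apply far_rem hG hτ hτ' hc hc'
    by_contra hcon
    push Not at hcon
    obtain ⟨x0, hx0⟩ := hcon
    apply hnear
    intro x
    have h0 := cyc_dep hq hG hτ p.2.injective
      (fun x y h => (good_ind hτ' hc' x y).mpr h) (x0 := x0) (by omega) x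
    have hr : p.2 x ∈ Set.range τ := by
      by_contra hr
      rw [dep_out τ hr] at h0
      omega
    obtain ⟨w, hw⟩ := hr
    rw [← hw, dep_in, Nat.size_eq_zero] at h0
    rw [← hw, hc w h0]
    exact ⟨w.1, rfl⟩
  rcases Finset.eq_empty_or_nonempty
    ((S ×ˢ S).filter (fun p => ¬ ∀ x, p.2 x ∈ Set.range p.1)) with he | ⟨p0, hp0⟩
  · rw [he, Finset.card_empty]
    exact Nat.zero_le _
  obtain ⟨t0, _⟩ := hex p0 hp0
  have : Nonempty ((Bool × Bool) × Bool ↪ V) := ⟨t0⟩
  choose! f hf using hex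
  apply Finset.card_le_card_of_injOn f
  · intro p hp
    rw [Finset.mem_coe, Finset.mem_filter]
    exact ⟨Finset.mem_univ _, (hf p hp).1⟩
  · intro p hp p' hp' h
    obtain ⟨_, h1, h2⟩ := hf p hp
    obtain ⟨_, h1', h2'⟩ := hf p' hp'
    rw [h] at h1 h2
    apply Prod.ext
    · apply Function.Embedding.ext
      rintro ⟨a, b⟩
      rw [← h1, ← h1']
    · apply Function.Embedding.ext
      rintro ⟨a, b⟩
      rw [← h2, ← h2']

/-- first moment, upper bound -/
lemma sumY_le : ∑ G ∈ cub V, Yc q G ≤ (Fintype.card V).descFactorial 4 *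
    (g (Fintype.card V - 4) * (3 * (Fintype.card V - 4)) ^ 2) := by
  have h1 : ∑ G ∈ cub V, Yc q G
      = ∑ c : Bool × Bool ↪ V, ((cub V).filter (fun G => good q G c)).card := by
    unfold Yc
    simp only [Finset.card_filter]
    rw [Finset.sum_comm]
  have h2 : ∀ c : Bool × Bool ↪ V, ((cub V).filter (fun G => good q G c)).card
      ≤ g (Fintype.card V - 4) * (3 * (Fintype.card V - 4)) ^ 2 := by
    intro c
    have h3 := rem_count (V := V) (F := C4) C4_deg c
    rw [Fintype.card_bool] at h3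
    refine le_trans ?_ h3
    apply Finset.card_le_card
    intro G hG
    rw [Finset.mem_filter] at hG ⊢
    obtain ⟨hG, τ, hτ, hc⟩ := hG
    exact ⟨hG, _, good_rem hτ hc⟩
  rw [h1]
  refine (Finset.sum_le_sum (fun c _ => h2 c)).trans ?_
  rw [Finset.sum_const, smul_eq_mul, Finset.card_univ, Fintype.card_embedding_eq,
    Fintype.card_prod, Fintype.card_bool]

lemma sumZ_le : ∑ G ∈ cub V, Zc G ≤ (Fintype.card V).descFactorial 8 *
    (g (Fintype.card V - 8) * (3 * (Fintype.card V - 8)) ^ 4) := by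
  have h1 : ∑ G ∈ cub V, Zc G
      = ∑ c2 : (Bool × Bool) × Bool ↪ V,
        ((cub V).filter (fun G => RemP F2 G c2)).card := by
    unfold Zc
    simp only [Finset.card_filter]
    rw [Finset.sum_comm]
  have h2 : ∀ c2 : (Bool × Bool) × Bool ↪ V,
      ((cub V).filter (fun G => RemP F2 G c2)).card
      ≤ g (Fintype.card V - 8) * (3 * (Fintype.card V - 8)) ^ 4 := by
    intro c
    have h3 := rem_count (V := V) (F := F2) F2_deg c
    rw [Fintype.card_prod, Fintype.card_bool] at h3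
    exact h3
  rw [h1]
  refine (Finset.sum_le_sum (fun c _ => h2 c)).trans ?_
  rw [Finset.sum_const, smul_eq_mul, Finset.card_univ, Fintype.card_embedding_eq,
    Fintype.card_prod, Fintype.card_prod, Fintype.card_bool]

/-- the number of copies of the template is bounded by the number of good 4-cycles -/
lemma X_le (hG : Cubic G) :
    (Finset.univ.filter (fun τ : (Bool × Bool) × Fin (2 * 2 ^ q) ↪ V => Ind (T (2 ^ q)) G τ)).card
      ≤ 3 ^ (8 * 2 ^ q) * Yc q G := by
  obtain ⟨f, hf⟩ : ∃ f : V → Fin 3 → V, ∀ v w, G.Adj v w → ∃ i, f v i = w := by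
    have hG' : ∀ v : V, (Finset.univ.filter (fun w => G.Adj v w)).card = 3 := hG
    have hex : ∀ v : V, ∃ f : Fin 3 → V, ∀ w, G.Adj v w → ∃ i, f i = w := by
      intro v
      refine ⟨fun i => ((Finset.equivFinOfCardEq (hG' v)).symm i).1, ?_⟩
      intro w h
      have hw : w ∈ Finset.univ.filter (fun w => G.Adj v w) := by
        rw [Finset.mem_filter]
        exact ⟨Finset.mem_univ _, h⟩
      refine ⟨Finset.equivFinOfCardEq (hG' v) ⟨w, hw⟩, ?_⟩
      simp only [Equiv.symm_apply_apply]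
    choose f hf using hex
    exact ⟨f, hf⟩
  set S := Finset.univ.filter (fun c : Bool × Bool ↪ V => good q G c) with hS
  have hcard : (S ×ˢ (Finset.univ : Finset ((Bool × Bool) × Fin (2 * 2 ^ q) → Fin 3))).card
      = 3 ^ (8 * 2 ^ q) * Yc q G := by
    rw [Finset.card_product, Finset.card_univ, Fintype.card_fun, card_W, Fintype.card_fin,
      mul_comm]
    rfl
  rw [← hcard]
  have hex : ∀ τ ∈ Finset.univ.filter
      (fun τ : (Bool × Bool) × Fin (2 * 2 ^ q) ↪ V => Ind (T (2 ^ q)) G τ),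
      ∃ p ∈ S ×ˢ (Finset.univ : Finset ((Bool × Bool) × Fin (2 * 2 ^ q) → Fin 3)),
        (∀ w : (Bool × Bool) × Fin (2 * 2 ^ q), w.2.val = 0 → τ w = p.1 w.1) ∧
        (∀ (x : Bool × Bool) (n : ℕ) (h : n < 2 * 2 ^ q), n ≠ 0 →
          f (τ (x, ⟨n / 2, by omega⟩)) (p.2 (x, ⟨n, h⟩)) = τ (x, ⟨n, h⟩)) := by
    intro τ hτ
    rw [Finset.mem_filter] at hτ
    have hτ := hτ.2
    let c : Bool × Bool ↪ V := ⟨fun x => τ (x, ⟨0, zlt q⟩), by
      intro x y h
      exact congrArg Prod.fst (τ.injective h)⟩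
    have hc : ∀ w : (Bool × Bool) × Fin (2 * 2 ^ q), w.2.val = 0 → τ w = c w.1 := by
      intro w hw
      change τ w = τ (w.1, ⟨0, zlt q⟩)
      congr 1
      exact Prod.ext rfl (Fin.ext hw)
    have hcode : ∀ w : (Bool × Bool) × Fin (2 * 2 ^ q), ∃ i : Fin 3, w.2.val ≠ 0 →
        f (τ (w.1, ⟨w.2.val / 2, by omega⟩)) i = τ w := by
      intro w
      by_cases hw : w.2.val = 0
      · exact ⟨0, fun h => absurd hw h⟩
      · have hadj : G.Adj (τ (w.1, ⟨w.2.val / 2, by omega⟩)) (τ w) := by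
          rw [hτ, T_adj]
          exact Or.inr ⟨rfl, Or.inr ⟨hw, rfl⟩⟩
        obtain ⟨i, hi⟩ := hf _ _ hadj
        exact ⟨i, fun _ => hi⟩
    choose code hcode using hcode
    refine ⟨(c, code), ?_, hc, ?_⟩
    · rw [Finset.mem_product, hS, Finset.mem_filter]
      exact ⟨⟨Finset.mem_univ _, τ, hτ, hc⟩, Finset.mem_univ _⟩
    · intro x n h hn
      exact hcode (x, ⟨n, h⟩) hn
  rcases Finset.eq_empty_or_nonempty (Finset.univ.filter
      (fun τ : (Bool × Bool) × Fin (2 * 2 ^ q) ↪ V => Ind (T (2 ^ q)) G τ)) with he | ⟨τ0, hτ0⟩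
  · rw [he, Finset.card_empty]
    exact Nat.zero_le _
  obtain ⟨t0, _⟩ := hex τ0 hτ0
  have : Nonempty ((Bool × Bool ↪ V) × ((Bool × Bool) × Fin (2 * 2 ^ q) → Fin 3)) := ⟨t0⟩
  choose! F hF using hex
  apply Finset.card_le_card_of_injOn F
  · intro τ hτ
    exact (hF τ hτ).1
  · intro τ hτ τ' hτ' h
    obtain ⟨_, h1, h2⟩ := hF τ hτ
    obtain ⟨_, h1', h2'⟩ := hF τ' hτ'
    rw [h] at h1 h2
    have key : ∀ n : ℕ, ∀ (hn : n < 2 * 2 ^ q) (x : Bool × Bool),
        τ (x, ⟨n, hn⟩) = τ' (x, ⟨n, hn⟩) := by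
      intro n
      induction n using Nat.strong_induction_on with
      | _ n ih =>
        intro hn x
        by_cases h0 : n = 0
        · rw [h1 (x, ⟨n, hn⟩) h0, h1' (x, ⟨n, hn⟩) h0]
        · rw [← h2 x n hn h0, ← h2' x n hn h0, ih (n / 2) (by omega) (by omega) x]
    apply Function.Embedding.ext
    rintro ⟨x, n, hn⟩
    exact key n hn x

end

end H994K
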