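import Pool.Agent.H994R2.K.Basic

/-! Pairings (fixed point free involutions) and their relation to cubic graphs. -/

open scoped Classical

namespace H994K

/-- fixed point free involutions -/
noncomputable def Inv (α : Type*) [Fintype α] : Finset (Equiv.Perm α) :=
  Finset.univ.filter (fun σ => (∀ x, σ x ≠ x) ∧ ∀ x, σ (σ x) = x)

lemma mem_Inv {α : Type*} [Fintype α] {σ : Equiv.Perm α} :
    σ ∈ Inv α ↔ (∀ x, σ x ≠ x) ∧ ∀ x, σ (σ x) = x := by
  unfold Inv; simp

lemma inv_iff {α : Type*} [Fintype α] {a : ℕ} (ha : Fintype.card α = 2 * a) (σ : Equiv.Perm α) :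
    ((∀ x, σ x ≠ x) ∧ ∀ x, σ (σ x) = x) ↔ σ.cycleType = Multiset.replicate a 2 := by
  have : Fact (Nat.Prime 2) := ⟨Nat.prime_two⟩
  constructor
  · rintro ⟨h1, h2⟩
    have hs : σ ^ 2 = 1 := by
      ext x
      simp [sq, h2]
    have h3 := Equiv.Perm.cycleType_of_pow_prime_eq_one hs
    have h4 : σ.support = Finset.univ := by
      ext x
      simp [h1]
    have h5 := σ.sum_cycleType
    rw [h4, Finset.card_univ, ha, h3, Multiset.sum_replicate, smul_eq_mul] at h5
    have h6 : σ.cycleType.card = a := by omega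
    rw [h3, h6]
  · intro h
    have hs : σ ^ 2 = 1 := by
      rw [Equiv.Perm.pow_prime_eq_one_iff, h]
      intro c hc
      exact Multiset.eq_of_mem_replicate hc
    have h5 := σ.sum_cycleType
    rw [h, Multiset.sum_replicate, smul_eq_mul] at h5
    have h6 : σ.support = Finset.univ := by
      rw [← Finset.card_eq_iff_eq_univ, ← h5, ha]
      ring
    constructor
    · intro x
      rw [← Equiv.Perm.mem_support, h6]
      exact Finset.mem_univ _
    · intro x
      have := congrArg (fun τ : Equiv.Perm α => τ x) hs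
      simpa [sq] using this

lemma card_Inv {α : Type*} [Fintype α] {a : ℕ} (ha : Fintype.card α = 2 * a) :
    (Inv α).card * (2 ^ a * a.factorial) = (2 * a).factorial := by
  have h1 : Inv α = Finset.univ.filter
      (fun σ : Equiv.Perm α => σ.cycleType = Multiset.replicate a 2) := by
    ext σ
    rw [mem_Inv, inv_iff ha]
    simp
  have h2 := Equiv.Perm.card_of_cycleType_mul_eq α (Multiset.replicate a 2)
  rw [if_pos] at h2
  · rw [h1]
    rw [ha] at h2
    rw [← h2]
    rcases Nat.eq_zero_or_pos a with h0 | h0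
    · subst h0
      simp
    · have e1 : (Multiset.replicate a 2).sum = 2 * a := by
        rw [Multiset.sum_replicate, smul_eq_mul]; ring
      have e2 : (Multiset.replicate a 2).prod = 2 ^ a := by
        rw [Multiset.prod_replicate]
      have e3 : (Multiset.replicate a 2).toFinset = {2} := by
        rw [Multiset.toFinset_replicate, if_neg (by omega)]
      rw [e1, e2, e3]
      simp
  · constructor
    · rw [Multiset.sum_replicate, smul_eq_mul, ha]
      exact le_of_eq (by ring)
    · intro b hb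
      rw [Multiset.eq_of_mem_replicate hb]

/-- odd sets have no fixed point free involution -/
lemma card_Inv_odd {α : Type*} [Fintype α] (ha : ¬ Even (Fintype.card α)) :
    (Inv α).card = 0 := by
  rw [Finset.card_eq_zero, Finset.eq_empty_iff_forall_notMem]
  intro σ hσ
  rw [mem_Inv] at hσ
  apply ha
  have hs : σ ^ 2 = 1 := by
    ext x
    simp [sq, hσ.2]
  have h4 : σ.support = Finset.univ := by
    ext x
    simp [hσ.1]
  have := Equiv.Perm.two_dvd_card_support hs
  rw [h4, Finset.card_univ] at this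
  exact (even_iff_two_dvd).mpr this

/-- involutions stabilising a set -/
noncomputable def Stab {α : Type*} [Fintype α] (Q : Finset α) : Finset (Equiv.Perm α) :=
  (Inv α).filter (fun σ => ∀ x ∈ Q, σ x ∈ Q)

lemma mem_Stab {α : Type*} [Fintype α] {Q : Finset α} {σ : Equiv.Perm α} :
    σ ∈ Stab Q ↔ σ ∈ Inv α ∧ ∀ x ∈ Q, σ x ∈ Q := by
  unfold Stab
  rw [Finset.mem_filter]

lemma card_stab {α : Type*} [Fintype α] (Q : Finset α) :
    (Stab Q).card ≤ (Inv {x // x ∈ Q}).card * (Inv {x // x ∉ Q}).card := by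
  rw [← Finset.card_product]
  unfold Stab
  have hstab : ∀ σ ∈ (Inv α).filter (fun σ => ∀ x ∈ Q, σ x ∈ Q), ∀ x, x ∈ Q ↔ σ x ∈ Q := by
    intro σ hσ x
    rw [Finset.mem_filter, mem_Inv] at hσ
    constructor
    · exact hσ.2 x
    · intro h
      have := hσ.2 _ h
      rwa [hσ.1.2] at this
  apply Finset.card_le_card_of_injOn
    (fun σ => if h : ∀ x, x ∈ Q ↔ σ x ∈ Q then
      (σ.subtypePerm (fun x => (h x).symm), σ.subtypePerm (fun x => not_congr (h x).symm))
      else (1, 1))
  · intro σ hσ
    have h := hstab σ hσ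
    rw [Finset.mem_coe, Finset.mem_filter, mem_Inv] at hσ
    simp only [dif_pos h]
    rw [Finset.mem_coe, Finset.mem_product, mem_Inv, mem_Inv]
    refine ⟨⟨?_, ?_⟩, ?_, ?_⟩
    · intro x hx
      exact hσ.1.1 x.1 (congrArg Subtype.val hx)
    · intro x
      apply Subtype.ext
      exact hσ.1.2 x.1
    · intro x hx
      exact hσ.1.1 x.1 (congrArg Subtype.val hx)
    · intro x
      apply Subtype.ext
      exact hσ.1.2 x.1
  · intro σ hσ τ hτ h
    have hs := hstab σ hσ
    have ht := hstab τ hτ
    simp only [dif_pos hs, dif_pos ht, Prod.mk.injEq] at h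
    ext x
    by_cases hx : x ∈ Q
    · have := congrArg (fun π => (π ⟨x, hx⟩).1) h.1
      exact this
    · have := congrArg (fun π => (π ⟨x, hx⟩).1) h.2
      exact this

/-! ### cubic graphs with labelled half edges -/

section Lab
variable {V : Type*} [Fintype V]

/-- labellings of the half edges -/
def Lab (G : SimpleGraph V) : Type _ := ∀ v : V, Fin 3 ≃ {w // G.Adj v w}

noncomputable instance (G : SimpleGraph V) : Fintype (Lab G) := by
  unfold Lab; infer_instance

lemma card_Lab {G : SimpleGraph V} (hG : Cubic G) :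
    Fintype.card (Lab G) = 6 ^ Fintype.card V := by
  have h : ∀ v : V, Fintype.card (Fin 3 ≃ {w // G.Adj v w}) = 6 := by
    intro v
    have h1 : Fintype.card {w // G.Adj v w} = 3 := by
      rw [Fintype.card_subtype]
      exact hG v
    have e : Fin 3 ≃ {w // G.Adj v w} := (Fintype.equivFinOfCardEq h1).symm
    rw [Fintype.card_equiv e, Fintype.card_fin]
    rfl
  have h2 : Fintype.card (Lab G) = ∏ v : V, Fintype.card (Fin 3 ≃ {w // G.Adj v w}) := by
    have : Fintype.card (Lab G) = Fintype.card (∀ v : V, Fin 3 ≃ {w // G.Adj v w}) :=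
      Fintype.card_congr (Equiv.refl _)
    rw [this, Fintype.card_pi]
  rw [h2, Finset.prod_congr rfl (fun v _ => h v), Finset.prod_const, Finset.card_univ]

/-- the map of half edges -/
def sig {G : SimpleGraph V} (l : Lab G) (x : V × Fin 3) : V × Fin 3 :=
  ((l x.1 x.2).1, (l (l x.1 x.2).1).symm ⟨x.1, (l x.1 x.2).2.symm⟩)

lemma sig_sig {G : SimpleGraph V} (l : Lab G) (x : V × Fin 3) : sig l (sig l x) = x := by
  have key : ∀ (y : V × Fin 3) (v : V) (hv : G.Adj y.1 v),
      l y.1 y.2 = ⟨v, hv⟩ → sig l y = (v, (l v).symm ⟨y.1, hv.symm⟩) := by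
    intro y v hv h
    unfold sig
    have h1 : (l y.1 y.2).1 = v := by rw [h]
    subst h1
    rfl
  rw [key (sig l x) x.1 (l x.1 x.2).2.symm]
  · apply Prod.ext
    · rfl
    · change (l x.1).symm ⟨(l x.1 x.2).1, _⟩ = x.2
      rw [Equiv.symm_apply_eq]
  · unfold sig
    rw [Equiv.apply_symm_apply]

/-- the pairing of a labelled cubic graph -/
def perm {G : SimpleGraph V} (l : Lab G) : Equiv.Perm (V × Fin 3) :=
  ⟨sig l, sig l, sig_sig l, sig_sig l⟩

lemma perm_fst {G : SimpleGraph V} (l : Lab G) (x : V × Fin 3) :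
    (perm l x).1 = (l x.1 x.2).1 := rfl

lemma perm_adj {G : SimpleGraph V} (l : Lab G) (x : V × Fin 3) : G.Adj x.1 (perm l x).1 :=
  (l x.1 x.2).2

lemma perm_mem {G : SimpleGraph V} (l : Lab G) : perm l ∈ Inv (V × Fin 3) := by
  rw [mem_Inv]
  refine ⟨?_, sig_sig l⟩
  intro x hx
  have h1 := perm_adj l x
  rw [hx] at h1
  exact G.irrefl h1

lemma adj_iff_perm {G : SimpleGraph V} (l : Lab G) (v w : V) :
    G.Adj v w ↔ ∃ i, (perm l (v, i)).1 = w := by
  constructor
  · intro h
    refine ⟨(l v).symm ⟨w, h⟩, ?_⟩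
    rw [perm_fst]
    simp
  · rintro ⟨i, rfl⟩
    exact perm_adj l (v, i)

lemma perm_inj : Function.Injective
    (fun x : (G : SimpleGraph V) × Lab G => perm x.2) := by
  rintro ⟨G, l⟩ ⟨G', l'⟩ h
  change perm l = perm l' at h
  have hG : G = G' := by
    ext v w
    rw [adj_iff_perm l, adj_iff_perm l', h]
  subst hG
  congr 1
  funext v
  ext i
  have : (perm l (v, i)).1 = (perm l' (v, i)).1 := by rw [h]
  exact this

/-- counting cubic graphs through pairings -/
lemma count_le (s : Finset (SimpleGraph V)) (hs : ∀ G ∈ s, Cubic G)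
    (B : Finset (Equiv.Perm (V × Fin 3))) (hB : ∀ G ∈ s, ∀ l : Lab G, perm l ∈ B) :
    s.card * 6 ^ Fintype.card V ≤ B.card := by
  have h1 : (s.sigma (fun G => (Finset.univ : Finset (Lab G)))).card
      = s.card * 6 ^ Fintype.card V := by
    rw [Finset.card_sigma]
    have : ∀ G ∈ s, (Finset.univ : Finset (Lab G)).card = 6 ^ Fintype.card V := by
      intro G hG
      rw [Finset.card_univ, card_Lab (hs G hG)]
    rw [Finset.sum_congr rfl this, Finset.sum_const, smul_eq_mul]
  rw [← h1]
  apply Finset.card_le_card_of_injOn (fun x : (G : SimpleGraph V) × Lab G => perm x.2)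
  · intro x hx
    rw [Finset.mem_coe, Finset.mem_sigma] at hx
    exact hB x.1 hx.1 x.2
  · intro x _ y _ h
    exact perm_inj h

end Lab

end H994K
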